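import Pool.Agent.W414.AT.Sound
set_option autoImplicit false

/-! Certificates: two-sided multiples of the relations. -/

namespace Pool.Agent.W414.AT
open Po

/-- words in ten letters -/
inductive Wd
  | e : Wd
  | a0 : Wd → Wd
  | a1 : Wd → Wd
  | a2 : Wd → Wd
  | a3 : Wd → Wd
  | a4 : Wd → Wd
  | a5 : Wd → Wd
  | a6 : Wd → Wd
  | a7 : Wd → Wd
  | a8 : Wd → Wd
  | a9 : Wd → Wd

/-- a word with a coefficient, as a polynomial -/
noncomputable def mono (k : ℤ) (w : Wd) : Po :=
  Wd.rec (motive := fun _ => Po)
    (.node k .nil .nil .nil .nil .nil .nil .nil .nil .nil .nil)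
    (fun _ p => .node (.ofNat 0) p .nil .nil .nil .nil .nil .nil .nil .nil .nil)
    (fun _ p => .node (.ofNat 0) .nil p .nil .nil .nil .nil .nil .nil .nil .nil)
    (fun _ p => .node (.ofNat 0) .nil .nil p .nil .nil .nil .nil .nil .nil .nil)
    (fun _ p => .node (.ofNat 0) .nil .nil .nil p .nil .nil .nil .nil .nil .nil)
    (fun _ p => .node (.ofNat 0) .nil .nil .nil .nil p .nil .nil .nil .nil .nil)
    (fun _ p => .node (.ofNat 0) .nil .nil .nil .nil .nil p .nil .nil .nil .nil)
    (fun _ p => .node (.ofNat 0) .nil .nil .nil .nil .nil .nil p .nil .nil .nil)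
    (fun _ p => .node (.ofNat 0) .nil .nil .nil .nil .nil .nil .nil p .nil .nil)
    (fun _ p => .node (.ofNat 0) .nil .nil .nil .nil .nil .nil .nil .nil p .nil)
    (fun _ p => .node (.ofNat 0) .nil .nil .nil .nil .nil .nil .nil .nil .nil p) w

/-- a combination of words -/
inductive Comb
  | nil : Comb
  | cons : ℤ → Wd → Comb → Comb

/-- the polynomial of a combination of words -/
noncomputable def Comb.po (l : Comb) : Po :=
  Comb.rec (motive := fun _ => Po) Po.nil (fun k w _ ih => add (mono k w) ih) l

/-- a list of relations, each followed by a combination of words -/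
inductive Items
  | nil : Items
  | cons : Core → Comb → Items → Items

/-- the polynomial of a list of items -/
noncomputable def Items.po (l : Items) : Po :=
  Items.rec (motive := fun _ => Po) Po.nil (fun c v _ ih => add (mul v.po c.po) ih) l

theorem Items.po_cons (c : Core) (v : Comb) (l : Items) : (Items.cons c v l).po = add (mul v.po c.po) l.po := rfl

/-- a sum of relations, indexed by the preceding word -/
inductive Cert
  | nil : Cert
  | node : Items → Cert → Cert → Cert → Cert → Cert → Cert → Cert → Cert → Cert → Cert → Cert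

/-- the polynomial of a certificate -/
noncomputable def total (c : Cert) : Po :=
  Cert.rec (motive := fun _ => Po) Po.nil
    (fun l _ _ _ _ _ _ _ _ _ _ i0 i1 i2 i3 i4 i5 i6 i7 i8 i9 =>
      add l.po (.node (.ofNat 0) i0 i1 i2 i3 i4 i5 i6 i7 i8 i9)) c

theorem total_node (l : Items) (c0 c1 c2 c3 c4 c5 c6 c7 c8 c9 : Cert) :
    total (.node l c0 c1 c2 c3 c4 c5 c6 c7 c8 c9) =
      add l.po (.node (.ofNat 0) (total c0) (total c1) (total c2) (total c3) (total c4)
        (total c5) (total c6) (total c7) (total c8) (total c9)) := rfl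

/-- non-associative monomials in five letters and one further letter `m` that occurs once -/
inductive PT
  | m : PT
  | l : Tr → PT → PT
  | r : PT → Tr → PT

/-- value of such a monomial -/
def PT.val {R : Type} [Mul R] (x : Fin 5 → R) (y : R) : PT → R
  | m => y
  | l t p => t.val x * p.val x y
  | r p t => p.val x y * t.val x

/-- such a monomial as an operator polynomial applied to `m` -/
noncomputable def PT.po (p : PT) : Po :=
  PT.rec (motive := fun _ => Po)
    (.node (.ofNat 1) .nil .nil .nil .nil .nil .nil .nil .nil .nil .nil)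
    (fun t _ ih => mul (Lp t) ih) (fun _ t ih => mul (Rp t) ih) p

/-- a combination of monomials -/
inductive PC
  | nil : PC
  | cons : ℤ → PT → PC → PC

/-- value of a combination of monomials -/
def PC.val {R : Type} [NonUnitalNonAssocRing R] (x : Fin 5 → R) (y : R) : PC → R
  | nil => 0
  | cons k p l => k • p.val x y + l.val x y

/-- a combination of monomials as an operator polynomial -/
noncomputable def PC.po (l : PC) : Po :=
  PC.rec (motive := fun _ => Po) Po.nil (fun k p _ ih => add (smul k p.po) ih) l

variable {R : Type} [NonUnitalNonAssocRing R] (x : Fin 5 → R) (hR : IsAlt R)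
include hR

theorem items_sound (l : Items) : ev (ops x) l.po = 0 := by
  induction l with
  | nil => rfl
  | cons c v l ih => rw [Items.po_cons, ev_add, ih, ev_mul, core_sound x hR, mul_zero, add_zero]

theorem total_sound (c : Cert) : ev (ops x) (total c) = 0 := by
  induction c with
  | nil => rfl
  | node l c0 c1 c2 c3 c4 c5 c6 c7 c8 c9 i0 i1 i2 i3 i4 i5 i6 i7 i8 i9 =>
    rw [total_node, ev_add, items_sound x hR, ev, i0, i1, i2, i3, i4, i5, i6, i7, i8, i9]
    simp

theorem PT.po_sound (p : PT) (y : R) : ev (ops x) p.po y = p.val x y := by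
  induction p with
  | m =>
    show ev (ops x) (.node (.ofNat 1) .nil .nil .nil .nil .nil .nil .nil .nil .nil .nil) y = y
    simp [ev]
  | l t p ih =>
    show ev (ops x) (mul (Lp t) p.po) y = _
    rw [ev_mul, (RL_sound x hR t).2]
    show lx _ (ev (ops x) p.po y) = _
    rw [ih]; rfl
  | r p t ih =>
    show ev (ops x) (mul (Rp t) p.po) y = _
    rw [ev_mul, (RL_sound x hR t).1]
    show rx _ (ev (ops x) p.po y) = _
    rw [ih]; rfl

theorem PC.po_sound (l : PC) (y : R) : ev (ops x) l.po y = l.val x y := by
  induction l with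
  | nil => rfl
  | cons k p l ih =>
    show ev (ops x) (add (smul k p.po) l.po) y = _
    rw [ev_add, ev_smul]
    show k • (ev (ops x) p.po y) + ev (ops x) l.po y = _
    rw [ih, PT.po_sound x hR]; rfl

/-- the certificate theorem -/
theorem cert_sound (c : Cert) (t : PC) (N : ℤ)
    (h : isZ (add (smul N t.po) (total c)) = true) (y : R) : N • t.val x y = 0 := by
  have h1 := ev_isZ (ops x) _ h
  rw [ev_add, total_sound x hR, add_zero, ev_smul] at h1
  have h2 := DFunLike.congr_fun h1 y
  rw [← PC.po_sound x hR]
  exact h2

end Pool.Agent.W414.AT
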