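import Pool.Agent.W414.AT.Data
set_option autoImplicit false

/-! The kernel check of the certificate. -/

namespace Pool.Agent.W414.AT

theorem check : Po.isZ (Po.add (Po.smul (Int.ofNat 24) tgt.po) (total cert)) = true := by
  decide +kernel

end Pool.Agent.W414.AT
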