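import Pool.Agent.W414.AT.Cert
set_option autoImplicit false
set_option maxRecDepth 100000

/-! Certificate data (found by computer): `24 • tgt` as a sum of 2663 two-sided multiples of relations. -/

namespace Pool.Agent.W414.AT

def T0 : Tr := .m .x4 .x1
def T1 : Tr := .m .x2 T0
def T2 : Tr := .m .x3 T0
def T3 : Tr := .m .x3 .x1
def T4 : Tr := .m .x4 T3
def T5 : Tr := .m .x4 .x2
def T6 : Tr := .m .x3 T5
def T7 : Tr := .m .x3 .x2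
def T8 : Tr := .m .x4 T7
def T9 : Tr := .m .x4 .x0
def T10 : Tr := .m .x2 T9
def T11 : Tr := .m T10 .x1
def T12 : Tr := .m .x2 .x0
def T13 : Tr := .m .x4 T12
def T14 : Tr := .m T13 .x1
def T15 : Tr := .m T1 .x0
def T16 : Tr := .m .x2 .x1
def T17 : Tr := .m .x4 T16
def T18 : Tr := .m T17 .x0
def T19 : Tr := .m .x1 T9
def T20 : Tr := .m T19 .x3
def T21 : Tr := .m .x4 .x3
def T22 : Tr := .m .x0 T21
def T23 : Tr := .m T22 .x1
def T24 : Tr := .m .x3 T9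
def T25 : Tr := .m T24 .x1
def T26 : Tr := .m .x3 .x0
def T27 : Tr := .m .x4 T26
def T28 : Tr := .m T27 .x1
def T29 : Tr := .m .x1 T21
def T30 : Tr := .m T29 .x0
def T31 : Tr := .m .x1 .x4
def T32 : Tr := .m .x3 T31
def T33 : Tr := .m T32 .x0
def T34 : Tr := .m T2 .x0
def T35 : Tr := .m .x1 .x3
def T36 : Tr := .m .x4 T35
def T37 : Tr := .m T36 .x0
def T38 : Tr := .m .x0 T5
def T39 : Tr := .m T38 .x3
def T40 : Tr := .m .x0 .x4
def T41 : Tr := .m .x2 T40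
def T42 : Tr := .m T41 .x3
def T43 : Tr := .m T10 .x3
def T44 : Tr := .m T13 .x3
def T45 : Tr := .m T22 .x2
def T46 : Tr := .m .x3 T40
def T47 : Tr := .m T46 .x2
def T48 : Tr := .m T24 .x2
def T49 : Tr := .m .x0 .x3
def T50 : Tr := .m .x4 T49
def T51 : Tr := .m T50 .x2
def T52 : Tr := .m T27 .x2
def T53 : Tr := .m .x2 T21
def T54 : Tr := .m T53 .x0
def T55 : Tr := .m .x2 .x4
def T56 : Tr := .m .x3 T55
def T57 : Tr := .m T56 .x0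
def T58 : Tr := .m T6 .x0
def T59 : Tr := .m .x2 .x3
def T60 : Tr := .m .x4 T59
def T61 : Tr := .m T60 .x0
def T62 : Tr := .m T8 .x0
def T63 : Tr := .m T3 .x0
def T64 : Tr := .m T26 .x2
def T65 : Tr := .m T59 .x0
def T66 : Tr := .m T7 .x0
def T67 : Tr := .m T0 .x0
def T68 : Tr := .m T9 .x2
def T69 : Tr := .m T55 .x0
def T70 : Tr := .m T5 .x0
def T71 : Tr := .m T9 .x3
def T72 : Tr := .m .x3 .x4
def T73 : Tr := .m T72 .x0
def T74 : Tr := .m T21 .x0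
def T75 : Tr := .m T5 .x1
def T76 : Tr := .m T0 .x3
def T77 : Tr := .m T72 .x1
def T78 : Tr := .m T21 .x1
def T79 : Tr := .m .x1 .x2
def T80 : Tr := .m .x1 .x0
def T81 : Tr := .m .x0 .x2
def T82 : Tr := .m .x0 .x1
def T83 : Tr := .m T82 .x2
def T84 : Tr := .m T83 .x3
def T85 : Tr := .m T84 .x4
def T86 : Tr := .m T81 .x1
def T87 : Tr := .m T86 .x3
def T88 : Tr := .m T87 .x4
def T89 : Tr := .m T82 .x3
def T90 : Tr := .m T89 .x2
def T91 : Tr := .m T90 .x4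
def T92 : Tr := .m T49 .x2
def T93 : Tr := .m T92 .x1
def T94 : Tr := .m T93 .x4
def T95 : Tr := .m T79 .x3
def T96 : Tr := .m .x0 T95
def T97 : Tr := .m T96 .x4
def T98 : Tr := .m T35 .x2
def T99 : Tr := .m .x0 T98
def T100 : Tr := .m T99 .x4
def T101 : Tr := .m T86 .x4
def T102 : Tr := .m T101 .x3
def T103 : Tr := .m .x0 T79
def T104 : Tr := .m T103 .x4
def T105 : Tr := .m T104 .x3
def T106 : Tr := .m T81 .x4
def T107 : Tr := .m T106 .x1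
def T108 : Tr := .m T107 .x3
def T109 : Tr := .m T40 .x2
def T110 : Tr := .m T109 .x1
def T111 : Tr := .m T110 .x3
def T112 : Tr := .m T89 .x4
def T113 : Tr := .m T112 .x2
def T114 : Tr := .m T49 .x1
def T115 : Tr := .m T114 .x4
def T116 : Tr := .m T115 .x2
def T117 : Tr := .m .x0 T35
def T118 : Tr := .m T117 .x4
def T119 : Tr := .m T118 .x2
def T120 : Tr := .m T82 .x4
def T121 : Tr := .m T120 .x3
def T122 : Tr := .m T121 .x2
def T123 : Tr := .m T40 .x1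
def T124 : Tr := .m T123 .x3
def T125 : Tr := .m T124 .x2
def T126 : Tr := .m T49 .x4
def T127 : Tr := .m T126 .x1
def T128 : Tr := .m T127 .x2
def T129 : Tr := .m T92 .x4
def T130 : Tr := .m T129 .x1
def T131 : Tr := .m T106 .x3
def T132 : Tr := .m T131 .x1
def T133 : Tr := .m T103 .x3
def T134 : Tr := .m T117 .x2
def T135 : Tr := .m T81 .x3
def T136 : Tr := .m T135 .x1
def T137 : Tr := .m T59 .x1
def T138 : Tr := .m T83 .x4
def T139 : Tr := .m T79 .x4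
def T140 : Tr := .m T16 .x4
def T141 : Tr := .m T55 .x1
def T142 : Tr := .m T40 .x3
def T143 : Tr := .m T142 .x1
def T144 : Tr := .m T35 .x4
def T145 : Tr := .m T31 .x3
def T146 : Tr := .m T135 .x4
def T147 : Tr := .m T109 .x3
def T148 : Tr := .m T59 .x4
def T149 : Tr := .m T5 .x3
def T150 : Tr := .m T16 .x3
def T151 : Tr := .m T150 .x4
def T152 : Tr := .m T7 .x1
def T153 : Tr := .m T152 .x4
def T154 : Tr := .m T139 .x3
def T155 : Tr := .m T140 .x3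
def T156 : Tr := .m T141 .x3
def T157 : Tr := .m T75 .x3
def T158 : Tr := .m T3 .x4
def T159 : Tr := .m T158 .x2
def T160 : Tr := .m T145 .x2
def T161 : Tr := .m T76 .x2
def T162 : Tr := .m T77 .x2
def T163 : Tr := .m T7 .x4
def T164 : Tr := .m T163 .x1
def T165 : Tr := .m T55 .x3
def T166 : Tr := .m T165 .x1

def C0 : Cert := .node (.cons (.s .x3 .x4) (.cons (.ofNat 36) (.a7 .e) (.cons (.ofNat 36) (.a2 .e) .nil)) .nil) .nil .nil .nil .nil (.node (.cons (.s .x2 .x3) (.cons (.ofNat 32) .e .nil) .nil) .nil .nil .nil .nil .nil .nil .nil .nil .nil .nil) .nil .nil .nil .nil .nil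
def C1 : Cert := .node (.cons (.s .x3 .x4) (.cons (.ofNat 20) (.a6 .e) (.cons (.ofNat 114) (.a1 .e) .nil)) (.cons (.s .x1 .x4) (.cons (.ofNat 70) (.a8 .e) .nil) (.cons (.s .x1 .x3) (.cons (.negSucc 93) (.a9 .e) .nil) (.cons (.s T0 .x3) (.cons (.ofNat 102) .e .nil) (.cons (.s T3 .x4) (.cons (.negSucc 125) .e .nil) .nil))))) .nil .nil .nil (.node (.cons (.s .x1 .x4) (.cons (.ofNat 32) .e .nil) .nil) .nil .nil .nil .nil .nil .nil .nil .nil .nil .nil) .nil .nil (.node (.cons (.s .x3 .x4) (.cons (.negSucc 87) .e .nil) .nil) .nil .nil .nil .nil .nil .nil .nil .nil .nil .nil) .nil .nil .nil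
def C2 : Cert := .node (.cons (.s .x2 .x4) (.cons (.negSucc 3) (.a6 .e) (.cons (.negSucc 1) (.a1 .e) .nil)) (.cons (.s .x1 .x4) (.cons (.ofNat 178) (.a7 .e) (.cons (.ofNat 16) (.a2 .e) .nil)) (.cons (.s .x1 .x2) (.cons (.negSucc 149) (.a9 .e) (.cons (.ofNat 92) (.a4 .e) .nil)) (.cons (.s T0 .x2) (.cons (.ofNat 194) .e .nil) (.cons (.s T31 .x2) (.cons (.ofNat 4) .e .nil) (.cons (.s T16 .x4) (.cons (.negSucc 193) .e .nil) .nil)))))) .nil (.node (.cons (.s .x2 .x4) (.cons (.negSucc 27) .e .nil) .nil) .nil .nil .nil .nil .nil .nil .nil .nil .nil .nil) (.node (.cons (.s .x1 .x4) (.cons (.ofNat 28) .e .nil) .nil) .nil .nil .nil .nil .nil .nil .nil .nil .nil .nil) .nil .nil .nil (.node (.cons (.s .x2 .x4) (.cons (.negSucc 223) .e .nil) .nil) .nil .nil .nil .nil .nil .nil .nil .nil .nil .nil) (.node (.cons (.s .x1 .x4) (.cons (.negSucc 135) .e .nil) .nil) .nil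 .nil .nil .nil .nil .nil .nil .nil .nil .nil) .nil .nil
def C3 : Cert := .node (.cons (.s .x2 .x3) (.cons (.negSucc 159) (.a6 .e) (.cons (.negSucc 33) (.a1 .e) .nil)) (.cons (.s .x1 .x3) (.cons (.ofNat 58) (.a7 .e) (.cons (.ofNat 24) (.a2 .e) .nil)) (.cons (.s .x1 .x2) (.cons (.negSucc 81) (.a8 .e) (.cons (.ofNat 52) (.a3 .e) .nil)) (.cons (.s T3 .x2) (.cons (.ofNat 50) .e .nil) (.cons (.s T35 .x2) (.cons (.negSucc 19) .e .nil) (.cons (.s T16 .x3) (.cons (.negSucc 61) .e .nil) .nil)))))) .nil (.node (.cons (.s .x2 .x3) (.cons (.ofNat 28) .e .nil) .nil) .nil .nil .nil .nil .nil .nil .nil .nil .nil .nil) (.node (.cons (.s .x1 .x3) (.cons (.negSucc 15) .e .nil) .nil) .nil .nil .nil .nil .nil .nil .nil .nil .nil .nil) (.node (.cons (.s .x1 .x2) (.cons (.ofNat 36) .e .nil) .nil) .nil .nil .nil .nil .nil .nil .nil .nil .nil .nil) .nil .nil (.node (.cons (.s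 .x2 .x3) (.cons (.negSucc 38) .e .nil) .nil) .nil .nil .nil .nil .nil .nil .nil .nil .nil .nil) (.node (.cons (.s .x1 .x3) (.cons (.negSucc 161) .e .nil) .nil) .nil .nil .nil .nil .nil .nil .nil .nil .nil .nil) (.node (.cons (.s .x1 .x2) (.cons (.negSucc 115) .e .nil) .nil) .nil .nil .nil .nil .nil .nil .nil .nil .nil .nil) .nil
def C4 : Cert := .node (.cons (.s .x3 .x4) (.cons (.negSucc 51) (.a7 (.a6 .e)) (.cons (.ofNat 46) (.a7 (.a1 .e)) (.cons (.negSucc 169) (.a2 (.a6 .e)) (.cons (.negSucc 86) (.a2 (.a1 .e)) (.cons (.ofNat 88) (.a6 (.a7 .e)) (.cons (.ofNat 220) (.a6 (.a2 .e)) (.cons (.ofNat 224) (.a1 (.a7 .e)) (.cons (.ofNat 96) (.a1 (.a2 .e)) .nil)))))))) (.cons (.s .x2 .x4) (.cons (.negSucc 189) (.a8 (.a6 .e)) (.cons (.negSucc 136) (.a8 (.a1 .e)) (.cons (.negSucc 97) (.a3 (.a6 .e)) (.cons (.ofNat 77) (.a3 (.a1 .e)) (.cons (.ofNat 8) (.a6 (.a8 .e))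 (.cons (.ofNat 324) (.a6 (.a3 .e)) (.cons (.ofNat 87) (.a1 (.a8 .e)) (.cons (.ofNat 420) (.a1 (.a3 .e)) .nil)))))))) (.cons (.s .x2 .x3) (.cons (.negSucc 97) (.a9 (.a6 .e)) (.cons (.ofNat 75) (.a9 (.a1 .e)) (.cons (.ofNat 86) (.a4 (.a6 .e)) (.cons (.ofNat 215) (.a4 (.a1 .e)) (.cons (.ofNat 8) (.a6 (.a9 .e)) (.cons (.ofNat 336) (.a6 (.a4 .e)) (.cons (.negSucc 59) (.a1 (.a9 .e)) (.cons (.ofNat 457) (.a1 (.a4 .e)) .nil)))))))) (.cons (.s .x1 .x4) (.cons (.negSucc 93) (.a8 (.a7 .e)) (.cons (.negSucc 19) (.a8 (.a2 .e)) (.cons (.ofNat 58) (.a3 (.a7 .e)) (.cons (.ofNat 342) (.a3 (.a2 .e)) (.cons (.negSucc 130) (.a7 (.a8 .e)) (.cons (.ofNat 372) (.a7 (.a3 .e)) (.cons (.negSucc 6) (.a2 (.a8 .e)) (.cons (.ofNat 622) (.a2 (.a3 .e)) .nil)))))))) (.cons (.s .x1 .x3) (.cons (.negSucc 5) (.a9 (.a7 .e)) (.cons (.ofNat 66) (.a4 (.a7 .e)) (.cons (.ofNat 64) (.a4 (.a2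 .e)) (.cons (.negSucc 57) (.a7 (.a9 .e)) (.cons (.ofNat 285) (.a7 (.a4 .e)) (.cons (.ofNat 58) (.a2 (.a9 .e)) (.cons (.ofNat 399) (.a2 (.a4 .e)) .nil))))))) (.cons (.s .x1 .x2) (.cons (.negSucc 26) (.a9 (.a8 .e)) (.cons (.ofNat 120) (.a9 (.a3 .e)) (.cons (.ofNat 27) (.a4 (.a8 .e)) (.cons (.negSucc 119) (.a4 (.a3 .e)) (.cons (.ofNat 6) (.a8 (.a9 .e)) (.cons (.ofNat 153) (.a8 (.a4 .e)) (.cons (.negSucc 5) (.a3 (.a9 .e)) (.cons (.negSucc 152) (.a3 (.a4 .e)) .nil)))))))) (.cons (.s T5 .x3) (.cons (.negSucc 99) (.a6 .e) (.cons (.ofNat 1) (.a1 .e) .nil)) (.cons (.s T55 .x3) (.cons (.ofNat 4) (.a6 .e) (.cons (.negSucc 191) (.a1 .e) .nil)) (.cons (.s T0 .x3) (.cons (.negSucc 91) (.a7 .e) (.cons (.negSucc 106) (.a2 .e) .nil)) (.cons (.s T31 .x3) (.cons (.ofNat 20) (.a7 .e) (.cons (.negSucc 11) (.a2 .e) .nil)) (.cons (.s T0 .x2) (.cons (.negSucc 66) (.a8 .e) (.cons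 (.ofNat 69) (.a3 .e) .nil)) (.cons (.s T31 .x2) (.cons (.ofNat 32) (.a8 .e) .nil) (.cons (.s T3 .x2) (.cons (.negSucc 97) (.a9 .e) (.cons (.negSucc 17) (.a4 .e) .nil)) (.cons (.s T0 T7) (.cons (.negSucc 27) .e .nil) (.cons (.s T0 T59) (.cons (.negSucc 7) .e .nil) (.cons (.s T31 T7) (.cons (.negSucc 31) .e .nil) (.cons (.s T31 T59) (.cons (.negSucc 31) .e .nil) (.cons (.s T3 T55) (.cons (.ofNat 24) .e .nil) (.cons (.s T3 T5) (.cons (.ofNat 28) .e .nil) .nil))))))))))))))))))) .nil C0 C1 C2 C3 .nil .nil .nil .nil .nil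
def C5 : Cert := .node (.cons (.s .x3 .x4) (.cons (.negSucc 71) (.a7 .e) (.cons (.negSucc 179) (.a2 .e) .nil)) (.cons (.s .x2 .x4) (.cons (.negSucc 299) (.a3 .e) .nil) (.cons (.s .x2 .x3) (.cons (.negSucc 35) (.a9 .e) (.cons (.negSucc 323) (.a4 .e) .nil)) (.cons (.s T5 .x3) (.cons (.ofNat 12) .e .nil) (.cons (.s T55 .x3) (.cons (.negSucc 35) .e .nil) .nil))))) .nil .nil (.node (.cons (.s .x3 .x4) (.cons (.ofNat 12) .e .nil) .nil) .nil .nil .nil .nil .nil .nil .nil .nil .nil .nil) (.node (.cons (.s .x2 .x4) (.cons (.ofNat 36) .e .nil) .nil) .nil .nil .nil .nil .nil .nil .nil .nil .nil .nil) (.node (.cons (.s .x2 .x3) (.cons (.ofNat 112) .e .nil) .nil) .nil .nil .nil .nil .nil .nil .nil .nil .nil .nil) .nil .nil .nil .nil .nil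
def C6 : Cert := .node (.cons (.s .x3 .x4) (.cons (.ofNat 40) (.a5 .e) (.cons (.ofNat 66) (.a0 .e) .nil)) (.cons (.s .x0 .x4) (.cons (.negSucc 25) (.a8 .e) (.cons (.negSucc 127) (.a3 .e) .nil)) (.cons (.s .x0 .x3) (.cons (.negSucc 45) (.a9 .e) (.cons (.negSucc 123) (.a4 .e) .nil)) (.cons (.s T9 .x3) (.cons (.ofNat 114) .e .nil) (.cons (.s T26 .x4) (.cons (.ofNat 30) .e .nil) .nil))))) (.node (.cons (.s .x3 .x4) (.cons (.ofNat 24) .e .nil) .nil) .nil .nil .nil .nil .nil .nil .nil .nil .nil .nil) .nil .nil (.node (.cons (.s .x0 .x4) (.cons (.ofNat 40) .e .nil) .nil) .nil .nil .nil .nil .nil .nil .nil .nil .nil .nil) (.node (.cons (.s .x0 .x3) (.cons (.ofNat 36) .e .nil) .nil) .nil .nil .nil .nil .nil .nil .nil .nil .nil .nil) (.node (.cons (.s .x3 .x4) (.cons (.ofNat 158) .e .nil) .nil) .nil .nil .nil .nil .nil .nil .nil .nil .nil .nil) .nil .nil .nil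 .nil
def C7 : Cert := .node (.cons (.s .x2 .x4) (.cons (.ofNat 40) (.a5 .e) (.cons (.ofNat 2) (.a0 .e) .nil)) (.cons (.s .x0 .x4) (.cons (.ofNat 30) (.a7 .e) (.cons (.negSucc 55) (.a2 .e) .nil)) (.cons (.s .x0 .x2) (.cons (.ofNat 22) (.a9 .e) (.cons (.ofNat 96) (.a4 .e) .nil)) (.cons (.s T9 .x2) (.cons (.ofNat 70) .e .nil) (.cons (.s T40 .x2) (.cons (.ofNat 68) .e .nil) (.cons (.s T12 .x4) (.cons (.ofNat 14) .e .nil) .nil)))))) (.node (.cons (.s .x2 .x4) (.cons (.ofNat 28) .e .nil) .nil) .nil .nil .nil .nil .nil .nil .nil .nil .nil .nil) .nil (.node (.cons (.s .x0 .x4) (.cons (.ofNat 20) .e .nil) .nil) .nil .nil .nil .nil .nil .nil .nil .nil .nil .nil) .nil (.node (.cons (.s .x0 .x2) (.cons (.negSucc 59) .e .nil) .nil) .nil .nil .nil .nil .nil .nil .nil .nil .nil .nil) (.node (.cons (.s .x2 .x4) (.cons (.negSucc 361) .e .nil) .nil) .nil .nil .nil .nil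 .nil .nil .nil .nil .nil .nil) .nil (.node (.cons (.s .x0 .x4) (.cons (.negSucc 483) .e .nil) .nil) .nil .nil .nil .nil .nil .nil .nil .nil .nil .nil) .nil .nil
def C8 : Cert := .node (.cons (.s .x2 .x3) (.cons (.negSucc 79) (.a5 .e) (.cons (.negSucc 37) (.a0 .e) .nil)) (.cons (.s .x0 .x3) (.cons (.negSucc 53) (.a7 .e) (.cons (.negSucc 39) (.a2 .e) .nil)) (.cons (.s .x0 .x2) (.cons (.ofNat 54) (.a8 .e) (.cons (.ofNat 108) (.a3 .e) .nil)) (.cons (.s T26 .x2) (.cons (.negSucc 25) .e .nil) (.cons (.s T49 .x2) (.cons (.ofNat 20) .e .nil) (.cons (.s T12 .x3) (.cons (.ofNat 50) .e .nil) .nil)))))) (.node (.cons (.s .x2 .x3) (.cons (.ofNat 92) .e .nil) .nil) .nil .nil .nil .nil .nil .nil .nil .nil .nil .nil) .nil (.node (.cons (.s .x0 .x3) (.cons (.ofNat 4) .e .nil) .nil) .nil .nil .nil .nil .nil .nil .nil .nil .nil .nil) .nil .nil (.node (.cons (.s .x2 .x3)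 (.cons (.negSucc 482) .e .nil) .nil) .nil .nil .nil .nil .nil .nil .nil .nil .nil .nil) .nil (.node (.cons (.s .x0 .x3) (.cons (.negSucc 821) .e .nil) .nil) .nil .nil .nil .nil .nil .nil .nil .nil .nil .nil) (.node (.cons (.s .x0 .x2) (.cons (.negSucc 451) .e .nil) .nil) .nil .nil .nil .nil .nil .nil .nil .nil .nil .nil) .nil
def C9 : Cert := .node (.cons (.s .x3 .x4) (.cons (.negSucc 207) (.a7 .e) (.cons (.negSucc 391) (.a2 .e) .nil)) (.cons (.s .x2 .x4) (.cons (.negSucc 55) (.a8 .e) (.cons (.negSucc 479) (.a3 .e) .nil)) (.cons (.s .x2 .x3) (.cons (.negSucc 77) (.a9 .e) (.cons (.negSucc 371) (.a4 .e) .nil)) (.cons (.s T5 .x3) (.cons (.ofNat 212) .e .nil) (.cons (.s T55 .x3) (.cons (.negSucc 263) .e .nil) (.cons (.s T7 .x4) (.cons (.ofNat 36) .e .nil) (.cons (.rL .x4 .x2 .x3) (.cons (.ofNat 62) .e .nil) .nil))))))) .nil .nil (.node (.cons (.s .x3 .x4)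 (.cons (.negSucc 141) .e .nil) .nil) .nil .nil .nil .nil .nil .nil .nil .nil .nil .nil) (.node (.cons (.s .x2 .x4) (.cons (.ofNat 90) .e .nil) .nil) .nil .nil .nil .nil .nil .nil .nil .nil .nil .nil) (.node (.cons (.s .x2 .x3) (.cons (.ofNat 364) .e .nil) .nil) .nil .nil .nil .nil .nil .nil .nil .nil .nil .nil) .nil .nil (.node (.cons (.s .x3 .x4) (.cons (.negSucc 133) .e .nil) .nil) .nil .nil .nil .nil .nil .nil .nil .nil .nil .nil) (.node (.cons (.s .x2 .x4) (.cons (.ofNat 154) .e .nil) .nil) .nil .nil .nil .nil .nil .nil .nil .nil .nil .nil) (.node (.cons (.s .x2 .x3) (.cons (.ofNat 318) .e .nil) .nil) .nil .nil .nil .nil .nil .nil .nil .nil .nil .nil)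
def C10 : Cert := .node (.cons (.s .x3 .x4) (.cons (.negSucc 127) (.a7 (.a5 .e)) (.cons (.negSucc 69) (.a7 (.a0 .e)) (.cons (.negSucc 315) (.a2 (.a5 .e)) (.cons (.negSucc 377) (.a2 (.a0 .e)) (.cons (.negSucc 19) (.a5 (.a2 .e)) (.cons (.ofNat 288) (.a0 (.a7 .e)) (.cons (.ofNat 156) (.a0 (.a2 .e)) .nil))))))) (.cons (.s .x2 .x4) (.cons (.negSucc 403) (.a8 (.a5 .e)) (.cons (.negSucc 507) (.a8 (.a0 .e)) (.cons (.negSucc 267) (.a3 (.a5 .e)) (.cons (.negSucc 421) (.a3 (.a0 .e)) (.cons (.negSucc 71) (.a5 (.a8 .e)) (.cons (.negSucc 211) (.a5 (.a3 .e)) (.cons (.ofNat 441) (.a0 (.a8 .e)) (.cons (.ofNat 786) (.a0 (.a3 .e)) .nil)))))))) (.cons (.s .x2 .x3) (.cons (.negSucc 195) (.a9 (.a5 .e)) (.cons (.negSucc 119) (.a9 (.a0 .e)) (.cons (.ofNat 208) (.a4 (.a5 .e)) (.cons (.ofNat 106) (.a4 (.a0 .e)) (.cons (.negSucc 75) (.a5 (.a9 .e)) (.cons (.negSucc 195) (.a5 (.a4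 .e)) (.cons (.ofNat 226) (.a0 (.a9 .e)) (.cons (.ofNat 533) (.a0 (.a4 .e)) .nil)))))))) (.cons (.s .x0 .x4) (.cons (.ofNat 66) (.a8 (.a7 .e)) (.cons (.negSucc 259) (.a8 (.a2 .e)) (.cons (.ofNat 434) (.a3 (.a7 .e)) (.cons (.ofNat 322) (.a3 (.a2 .e)) (.cons (.ofNat 251) (.a7 (.a8 .e)) (.cons (.ofNat 594) (.a7 (.a3 .e)) (.cons (.ofNat 601) (.a2 (.a8 .e)) (.cons (.ofNat 914) (.a2 (.a3 .e)) .nil)))))))) (.cons (.s .x0 .x3) (.cons (.negSucc 265) (.a9 (.a7 .e)) (.cons (.negSucc 269) (.a9 (.a2 .e)) (.cons (.negSucc 3) (.a4 (.a7 .e)) (.cons (.ofNat 40) (.a4 (.a2 .e)) (.cons (.ofNat 152) (.a7 (.a9 .e)) (.cons (.ofNat 659) (.a7 (.a4 .e)) (.cons (.ofNat 372) (.a2 (.a9 .e)) (.cons (.ofNat 711) (.a2 (.a4 .e)) .nil)))))))) (.cons (.s .x0 .x2) (.cons (.negSucc 428) (.a9 (.a8 .e)) (.cons (.negSucc 187) (.a9 (.a3 .e)) (.cons (.negSucc 278) (.a4 (.a8 .e)) (.cons (.negSucc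 167) (.a4 (.a3 .e)) (.cons (.negSucc 183) (.a8 (.a9 .e)) (.cons (.ofNat 119) (.a8 (.a4 .e)) (.cons (.negSucc 159) (.a3 (.a9 .e)) (.cons (.negSucc 104) (.a3 (.a4 .e)) .nil)))))))) (.cons (.s T5 .x3) (.cons (.negSucc 211) (.a5 .e) (.cons (.negSucc 285) (.a0 .e) .nil)) (.cons (.s T55 .x3) (.cons (.negSucc 39) (.a5 .e) (.cons (.negSucc 47) (.a0 .e) .nil)) (.cons (.s T9 .x3) (.cons (.ofNat 154) (.a7 .e) (.cons (.ofNat 86) (.a2 .e) .nil)) (.cons (.s T40 .x3) (.cons (.ofNat 64) (.a7 .e) (.cons (.ofNat 144) (.a2 .e) .nil)) (.cons (.s T26 .x4) (.cons (.negSucc 193) (.a7 .e) (.cons (.negSucc 155) (.a2 .e) .nil)) (.cons (.s T9 .x2) (.cons (.ofNat 475) (.a8 .e) (.cons (.ofNat 504) (.a3 .e) .nil)) (.cons (.s T40 .x2) (.cons (.ofNat 64) (.a8 .e) (.cons (.ofNat 300) (.a3 .e) .nil)) (.cons (.s T12 .x4) (.cons (.negSucc 362) (.a8 .e) (.cons (.negSucc 485) (.a3 .e) .nil))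 (.cons (.s T26 .x2) (.cons (.ofNat 240) (.a9 .e) (.cons (.ofNat 231) (.a4 .e) .nil)) (.cons (.s T49 .x2) (.cons (.ofNat 24) (.a9 .e) (.cons (.ofNat 264) (.a4 .e) .nil)) (.cons (.s T12 .x3) (.cons (.negSucc 195) (.a9 .e) (.cons (.negSucc 284) (.a4 .e) .nil)) (.cons (.s T9 T7) (.cons (.negSucc 91) .e .nil) (.cons (.s T9 T59) (.cons (.negSucc 75) .e .nil) (.cons (.s T40 T7) (.cons (.negSucc 87) .e .nil) (.cons (.s T40 T59) (.cons (.negSucc 39) .e .nil) (.cons (.s T26 T5) (.cons (.negSucc 27) .e .nil) (.cons (.s T26 T55) (.cons (.negSucc 71) .e .nil) .nil))))))))))))))))))))))) C5 .nil C6 C7 C8 C9 .nil .nil .nil .nil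
def C11 : Cert := .node (.cons (.s .x3 .x4) (.cons (.ofNat 12) (.a6 .e) (.cons (.negSucc 71) (.a1 .e) .nil)) (.cons (.s .x1 .x4) (.cons (.ofNat 8) (.a8 .e) (.cons (.negSucc 169) (.a3 .e) .nil)) (.cons (.s .x1 .x3) (.cons (.negSucc 19) (.a9 .e) (.cons (.negSucc 201) (.a4 .e) .nil)) (.cons (.s T0 .x3) (.cons (.ofNat 12) .e .nil) (.cons (.s T31 .x3) (.cons (.ofNat 12) .e .nil) .nil))))) .nil (.node (.cons (.s .x3 .x4) (.cons (.negSucc 35) .e .nil) .nil) .nil .nil .nil .nil .nil .nil .nil .nil .nil .nil) .nil (.node (.cons (.s .x1 .x4) (.cons (.negSucc 11) .e .nil) .nil) .nil .nil .nil .nil .nil .nil .nil .nil .nil .nil) (.node (.cons (.s .x1 .x3) (.cons (.ofNat 8) .e .nil) .nil) .nil .nil .nil .nil .nil .nil .nil .nil .nil .nil) .nil .nil .nil .nil .nil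
def C12 : Cert := .node (.cons (.s .x3 .x4) (.cons (.ofNat 128) (.a5 .e) (.cons (.ofNat 144) (.a0 .e) .nil)) (.cons (.s .x0 .x4) (.cons (.ofNat 8) (.a8 .e) (.cons (.negSucc 117) (.a3 .e) .nil)) (.cons (.s .x0 .x3) (.cons (.negSucc 19) (.a9 .e) (.cons (.negSucc 157) (.a4 .e) .nil)) (.cons (.s T9 .x3) (.cons (.ofNat 84) .e .nil) (.cons (.s T26 .x4) (.cons (.ofNat 72) .e .nil) .nil))))) .nil .nil .nil (.node (.cons (.s .x0 .x4) (.cons (.negSucc 39) .e .nil) .nil) .nil .nil .nil .nil .nil .nil .nil .nil .nil .nil) .nil (.node (.cons (.s .x3 .x4) (.cons (.ofNat 426) .e .nil) .nil) .nil .nil .nil .nil .nil .nil .nil .nil .nil .nil) .nil .nil .nil .nil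
def C13 : Cert := .node (.cons (.s .x1 .x4) (.cons (.ofNat 240) (.a0 .e) .nil) (.cons (.s .x0 .x4) (.cons (.negSucc 191) (.a6 .e) (.cons (.negSucc 51) (.a1 .e) .nil)) (.cons (.s .x0 .x1) (.cons (.ofNat 188) (.a9 .e) (.cons (.ofNat 24) (.a4 .e) .nil)) (.cons (.s T9 .x1) (.cons (.negSucc 123) .e .nil) (.cons (.s T40 .x1) (.cons (.negSucc 7) .e .nil) (.cons (.s T80 .x4) (.cons (.ofNat 184) .e .nil) .nil)))))) (.node (.cons (.s .x1 .x4) (.cons (.ofNat 80) .e .nil) .nil) .nil .nil .nil .nil .nil .nil .nil .nil .nil .nil) (.node (.cons (.s .x0 .x4) (.cons (.ofNat 4) .e .nil) .nil) .nil .nil .nil .nil .nil .nil .nil .nil .nil .nil) .nil .nil (.node (.cons (.s .x0 .x1) (.cons (.negSucc 23) .e .nil) .nil) .nil .nil .nil .nil .nil .nil .nil .nil .nil .nil) (.node (.cons (.s .x1 .x4) (.cons (.negSucc 409) .e .nil) .nil) .nil .nil .nil .nil .nil .nil .nil .nil .nil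 .nil) (.node (.cons (.s .x0 .x4) (.cons (.negSucc 661) .e .nil) .nil) .nil .nil .nil .nil .nil .nil .nil .nil .nil .nil) .nil .nil .nil
def C14 : Cert := .node (.cons (.s .x1 .x3) (.cons (.negSucc 23) (.a5 .e) (.cons (.ofNat 196) (.a0 .e) .nil)) (.cons (.s .x0 .x3) (.cons (.negSucc 275) (.a6 .e) (.cons (.negSucc 55) (.a1 .e) .nil)) (.cons (.s .x0 .x1) (.cons (.ofNat 228) (.a8 .e) (.cons (.ofNat 72) (.a3 .e) .nil)) (.cons (.s T26 .x1) (.cons (.negSucc 147) .e .nil) (.cons (.s T49 .x1) (.cons (.ofNat 4) .e .nil) (.cons (.s T80 .x3) (.cons (.ofNat 244) .e .nil) .nil)))))) (.node (.cons (.s .x1 .x3) (.cons (.ofNat 76) .e .nil) .nil) .nil .nil .nil .nil .nil .nil .nil .nil .nil .nil) (.node (.cons (.s .x0 .x3) (.cons (.ofNat 44) .e .nil) .nil) .nil .nil .nil .nil .nil .nil .nil .nil .nil .nil) .nil (.node (.cons (.s .x0 .x1) (.cons (.negSucc 23) .e .nil)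 .nil) .nil .nil .nil .nil .nil .nil .nil .nil .nil .nil) .nil (.node (.cons (.s .x1 .x3) (.cons (.negSucc 363) .e .nil) .nil) .nil .nil .nil .nil .nil .nil .nil .nil .nil .nil) (.node (.cons (.s .x0 .x3) (.cons (.negSucc 678) .e .nil) .nil) .nil .nil .nil .nil .nil .nil .nil .nil .nil .nil) .nil (.node (.cons (.s .x0 .x1) (.cons (.ofNat 252) .e .nil) .nil) .nil .nil .nil .nil .nil .nil .nil .nil .nil .nil) .nil
def C15 : Cert := .node (.cons (.s .x3 .x4) (.cons (.negSucc 21) (.a6 .e) (.cons (.negSucc 569) (.a1 .e) .nil)) (.cons (.s .x1 .x4) (.cons (.negSucc 106) (.a8 .e) (.cons (.negSucc 397) (.a3 .e) .nil)) (.cons (.s .x1 .x3) (.cons (.negSucc 65) (.a9 .e) (.cons (.negSucc 498) (.a4 .e) .nil)) (.cons (.s T0 .x3) (.cons (.ofNat 286) .e .nil) (.cons (.s T31 .x3) (.cons (.ofNat 48) .e .nil) (.cons (.s T3 .x4) (.cons (.ofNat 230) .e .nil) (.cons (.rL .x4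 .x1 .x3) (.cons (.ofNat 42) .e .nil) .nil))))))) .nil (.node (.cons (.s .x3 .x4) (.cons (.negSucc 441) .e .nil) .nil) .nil .nil .nil .nil .nil .nil .nil .nil .nil .nil) .nil (.node (.cons (.s .x1 .x4) (.cons (.ofNat 88) .e .nil) .nil) .nil .nil .nil .nil .nil .nil .nil .nil .nil .nil) (.node (.cons (.s .x1 .x3) (.cons (.negSucc 103) .e .nil) .nil) .nil .nil .nil .nil .nil .nil .nil .nil .nil .nil) .nil (.node (.cons (.s .x3 .x4) (.cons (.negSucc 409) .e .nil) .nil) .nil .nil .nil .nil .nil .nil .nil .nil .nil .nil) .nil (.node (.cons (.s .x1 .x4) (.cons (.ofNat 84) .e .nil) .nil) .nil .nil .nil .nil .nil .nil .nil .nil .nil .nil) (.node (.cons (.s .x1 .x3) (.cons (.negSucc 105) .e .nil) .nil) .nil .nil .nil .nil .nil .nil .nil .nil .nil .nil)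
def C16 : Cert := .node (.cons (.s .x3 .x4) (.cons (.ofNat 78) (.a5 .e) (.cons (.negSucc 93) (.a0 .e) .nil)) (.cons (.s .x0 .x4) (.cons (.negSucc 2) (.a8 .e) (.cons (.negSucc 193) (.a3 .e) .nil)) (.cons (.s .x0 .x3) (.cons (.negSucc 89) (.a9 .e) (.cons (.negSucc 234) (.a4 .e) .nil)) (.cons (.s T9 .x3) (.cons (.ofNat 122) .e .nil) (.cons (.s T40 .x3) (.cons (.ofNat 60) .e .nil) (.cons (.s T26 .x4) (.cons (.negSucc 69) .e .nil) (.cons (.rL .x4 .x0 .x3) (.cons (.ofNat 142) .e .nil) .nil))))))) (.node (.cons (.s .x3 .x4) (.cons (.negSucc 47) .e .nil) .nil) .nil .nil .nil .nil .nil .nil .nil .nil .nil .nil) .nil .nil (.node (.cons (.s .x0 .x4) (.cons (.ofNat 250) .e .nil) .nil) .nil .nil .nil .nil .nil .nil .nil .nil .nil .nil) (.node (.cons (.s .x0 .x3) (.cons (.negSucc 185) .e .nil) .nil) .nil .nil .nil .nil .nil .nil .nil .nil .nil .nil) (.node (.cons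 (.s .x3 .x4) (.cons (.ofNat 48) .e .nil) .nil) .nil .nil .nil .nil .nil .nil .nil .nil .nil .nil) .nil .nil (.node (.cons (.s .x0 .x4) (.cons (.ofNat 68) .e .nil) .nil) .nil .nil .nil .nil .nil .nil .nil .nil .nil .nil) (.node (.cons (.s .x0 .x3) (.cons (.negSucc 318) .e .nil) .nil) .nil .nil .nil .nil .nil .nil .nil .nil .nil .nil)
def C17 : Cert := .node (.cons (.s .x3 .x4) (.cons (.ofNat 264) (.a6 (.a0 .e)) (.cons (.negSucc 461) (.a1 (.a5 .e)) (.cons (.negSucc 377) (.a1 (.a0 .e)) (.cons (.negSucc 27) (.a5 (.a1 .e)) (.cons (.negSucc 415) (.a0 (.a6 .e)) (.cons (.ofNat 41) (.a0 (.a1 .e)) .nil)))))) (.cons (.s .x1 .x4) (.cons (.negSucc 469) (.a8 (.a5 .e)) (.cons (.negSucc 542) (.a8 (.a0 .e)) (.cons (.negSucc 434) (.a3 (.a5 .e)) (.cons (.negSucc 373) (.a3 (.a0 .e)) (.cons (.negSucc 71) (.a5 (.a8 .e)) (.cons (.negSucc 84) (.a5 (.a3 .e)) (.cons (.ofNat 365)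 (.a0 (.a8 .e)) (.cons (.ofNat 818) (.a0 (.a3 .e)) .nil)))))))) (.cons (.s .x1 .x3) (.cons (.ofNat 50) (.a9 (.a5 .e)) (.cons (.negSucc 83) (.a9 (.a0 .e)) (.cons (.ofNat 462) (.a4 (.a5 .e)) (.cons (.ofNat 126) (.a4 (.a0 .e)) (.cons (.negSucc 55) (.a5 (.a9 .e)) (.cons (.negSucc 449) (.a5 (.a4 .e)) (.cons (.ofNat 416) (.a0 (.a9 .e)) (.cons (.ofNat 470) (.a0 (.a4 .e)) .nil)))))))) (.cons (.s .x0 .x4) (.cons (.negSucc 211) (.a8 (.a6 .e)) (.cons (.negSucc 124) (.a8 (.a1 .e)) (.cons (.negSucc 215) (.a3 (.a6 .e)) (.cons (.ofNat 297) (.a3 (.a1 .e)) (.cons (.ofNat 486) (.a6 (.a8 .e)) (.cons (.ofNat 880) (.a6 (.a3 .e)) (.cons (.ofNat 604) (.a1 (.a8 .e)) (.cons (.ofNat 960) (.a1 (.a3 .e)) .nil)))))))) (.cons (.s .x0 .x3) (.cons (.negSucc 67) (.a9 (.a6 .e)) (.cons (.negSucc 388) (.a9 (.a1 .e)) (.cons (.ofNat 180) (.a4 (.a6 .e)) (.cons (.ofNat 223) (.a4 (.a1 .e)) (.cons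 (.ofNat 442) (.a6 (.a9 .e)) (.cons (.ofNat 510) (.a6 (.a4 .e)) (.cons (.ofNat 630) (.a1 (.a9 .e)) (.cons (.ofNat 730) (.a1 (.a4 .e)) .nil)))))))) (.cons (.s .x0 .x1) (.cons (.negSucc 491) (.a9 (.a8 .e)) (.cons (.ofNat 232) (.a9 (.a3 .e)) (.cons (.negSucc 425) (.a4 (.a8 .e)) (.cons (.ofNat 48) (.a4 (.a3 .e)) (.cons (.negSucc 429) (.a8 (.a9 .e)) (.cons (.ofNat 428) (.a8 (.a4 .e)) (.cons (.negSucc 429) (.a3 (.a9 .e)) (.cons (.ofNat 24) (.a3 (.a4 .e)) .nil)))))))) (.cons (.s T0 .x3) (.cons (.negSucc 229) (.a5 .e) (.cons (.negSucc 625) (.a0 .e) .nil)) (.cons (.s T31 .x3) (.cons (.negSucc 79) (.a5 .e) (.cons (.negSucc 95) (.a0 .e) .nil)) (.cons (.s T3 .x4) (.cons (.ofNat 274) (.a5 .e) (.cons (.ofNat 150) (.a0 .e) .nil)) (.cons (.s T9 .x3) (.cons (.negSucc 119) (.a6 .e) (.cons (.negSucc 86) (.a1 .e) .nil)) (.cons (.s T40 .x3) (.cons (.negSucc 87) (.a6 .e) (.cons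 (.ofNat 84) (.a1 .e) .nil)) (.cons (.s T26 .x4) (.cons (.ofNat 76) (.a6 .e) (.cons (.negSucc 148) (.a1 .e) .nil)) (.cons (.s T9 .x1) (.cons (.ofNat 538) (.a8 .e) (.cons (.ofNat 436) (.a3 .e) .nil)) (.cons (.s T40 .x1) (.cons (.ofNat 12) (.a8 .e) (.cons (.ofNat 326) (.a3 .e) .nil)) (.cons (.s T80 .x4) (.cons (.negSucc 445) (.a8 .e) (.cons (.negSucc 291) (.a3 .e) .nil)) (.cons (.s T26 .x1) (.cons (.ofNat 486) (.a9 .e) (.cons (.ofNat 254) (.a4 .e) .nil)) (.cons (.s T49 .x1) (.cons (.ofNat 32) (.a9 .e) (.cons (.ofNat 274) (.a4 .e) .nil)) (.cons (.s T80 .x3) (.cons (.negSucc 409) (.a9 .e) (.cons (.negSucc 145) (.a4 .e) .nil)) (.cons (.s T9 T3) (.cons (.negSucc 63) .e .nil) (.cons (.s T9 T35) (.cons (.negSucc 55) .e .nil) (.cons (.s T40 T3) (.cons (.ofNat 28) .e .nil) (.cons (.s T40 T35) (.cons (.ofNat 40) .e .nil) (.cons (.s T26 T0) (.cons (.negSucc 79) .e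 .nil) (.cons (.s T26 T31) (.cons (.negSucc 71) .e .nil) .nil)))))))))))))))))))))))) C11 C12 .nil C13 C14 C15 C16 .nil .nil .nil
def C18 : Cert := .node (.cons (.s .x2 .x4) (.cons (.negSucc 3) (.a6 .e) (.cons (.ofNat 148) (.a1 .e) .nil)) (.cons (.s .x1 .x4) (.cons (.negSucc 79) (.a7 .e) (.cons (.ofNat 170) (.a2 .e) .nil)) (.cons (.s .x1 .x2) (.cons (.negSucc 15) (.a9 .e) (.cons (.negSucc 121) (.a4 .e) .nil)) (.cons (.s T0 .x2) (.cons (.ofNat 24) .e .nil) .nil)))) .nil .nil .nil .nil (.node (.cons (.s .x1 .x2) (.cons (.ofNat 4) .e .nil) .nil) .nil .nil .nil .nil .nil .nil .nil .nil .nil .nil) .nil .nil .nil .nil .nil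
def C19 : Cert := .node (.cons (.s .x2 .x4) (.cons (.ofNat 104) (.a5 .e) (.cons (.ofNat 296) (.a0 .e) .nil)) (.cons (.s .x0 .x4) (.cons (.ofNat 124) (.a7 .e) (.cons (.ofNat 202) (.a2 .e) .nil)) (.cons (.s .x0 .x2) (.cons (.negSucc 87) (.a9 .e) (.cons (.ofNat 38) (.a4 .e) .nil)) (.cons (.s T9 .x2) (.cons (.ofNat 84) .e .nil) (.cons (.s T12 .x4) (.cons (.negSucc 71) .e .nil) .nil))))) .nil .nil (.node (.cons (.s .x0 .x4) (.cons (.negSucc 43) .e .nil) .nil) .nil .nil .nil .nil .nil .nil .nil .nil .nil .nil) .nil (.node (.cons (.s .x0 .x2) (.cons (.negSucc 23) .e .nil) .nil) .nil .nil .nil .nil .nil .nil .nil .nil .nil .nil) (.node (.cons (.s .x2 .x4) (.cons (.ofNat 82) .e .nil) .nil) .nil .nil .nil .nil .nil .nil .nil .nil .nil .nil) .nil .nil .nil .nil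
def C20 : Cert := .node (.cons (.s .x1 .x4) (.cons (.ofNat 336) (.a0 .e) .nil) (.cons (.s .x0 .x4) (.cons (.negSucc 11) (.a6 .e) (.cons (.ofNat 172) (.a1 .e) .nil)) (.cons (.s .x0 .x1) (.cons (.negSucc 19) (.a9 .e) (.cons (.negSucc 47) (.a4 .e) .nil)) (.cons (.s T9 .x1) (.cons (.ofNat 16) .e .nil) (.cons (.s T40 .x1) (.cons (.negSucc 51) .e .nil) (.cons (.s T80 .x4) (.cons (.negSucc 39) .e .nil) .nil)))))) (.node (.cons (.s .x1 .x4) (.cons (.ofNat 52) .e .nil) .nil) .nil .nil .nil .nil .nil .nil .nil .nil .nil .nil) (.node (.cons (.s .x0 .x4) (.cons (.ofNat 20) .e .nil) .nil) .nil .nil .nil .nil .nil .nil .nil .nil .nil .nil) .nil .nil .nil (.node (.cons (.s .x1 .x4) (.cons (.negSucc 209) .e .nil) .nil) .nil .nil .nil .nil .nil .nil .nil .nil .nil .nil) (.node (.cons (.s .x0 .x4) (.cons (.negSucc 153) .e .nil) .nil) .nil .nil .nil .nil .nil .nil .nil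 .nil .nil .nil) .nil .nil .nil
def C21 : Cert := .node (.cons (.s .x1 .x2) (.cons (.negSucc 23) (.a5 .e) (.cons (.ofNat 68) (.a0 .e) .nil)) (.cons (.s .x0 .x2) (.cons (.negSucc 47) (.a6 .e) (.cons (.ofNat 44) (.a1 .e) .nil)) (.cons (.s .x0 .x1) (.cons (.ofNat 84) (.a7 .e) (.cons (.ofNat 24) (.a2 .e) .nil)) (.cons (.s T12 .x1) (.cons (.negSucc 31) .e .nil) (.cons (.s T81 .x1) (.cons (.negSucc 15) .e .nil) (.cons (.s T80 .x2) (.cons (.ofNat 68) .e .nil) .nil)))))) (.node (.cons (.s .x1 .x2) (.cons (.ofNat 80) .e .nil) .nil) .nil .nil .nil .nil .nil .nil .nil .nil .nil .nil) (.node (.cons (.s .x0 .x2) (.cons (.ofNat 64) .e .nil) .nil) .nil .nil .nil .nil .nil .nil .nil .nil .nil .nil) .nil .nil .nil (.node (.cons (.s .x1 .x2) (.cons (.negSucc 3) .e .nil) .nil) .nil .nil .nil .nil .nil .nil .nil .nil .nil .nil) (.node (.cons (.s .x0 .x2) (.cons (.negSucc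 329) .e .nil) .nil) .nil .nil .nil .nil .nil .nil .nil .nil .nil .nil) (.node (.cons (.s .x0 .x1) (.cons (.ofNat 50) .e .nil) .nil) .nil .nil .nil .nil .nil .nil .nil .nil .nil .nil) .nil .nil
def C22 : Cert := .node (.cons (.s .x2 .x4) (.cons (.ofNat 352) (.a6 .e) (.cons (.ofNat 357) (.a1 .e) .nil)) (.cons (.s .x1 .x4) (.cons (.negSucc 171) (.a7 .e) (.cons (.ofNat 290) (.a2 .e) .nil)) (.cons (.s .x1 .x2) (.cons (.ofNat 128) (.a9 .e) (.cons (.ofNat 89) (.a4 .e) .nil)) (.cons (.s T0 .x2) (.cons (.negSucc 197) .e .nil) (.cons (.s T31 .x2) (.cons (.ofNat 248) .e .nil) (.cons (.s T16 .x4) (.cons (.ofNat 226) .e .nil) (.cons (.rL .x4 .x1 .x2) (.cons (.negSucc 63) .e .nil) .nil))))))) .nil (.node (.cons (.s .x2 .x4) (.cons (.negSucc 149) .e .nil) .nil) .nil .nil .nil .nil .nil .nil .nil .nil .nil .nil) (.node (.cons (.s .x1 .x4) (.cons (.ofNat 352) .e .nil)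 .nil) .nil .nil .nil .nil .nil .nil .nil .nil .nil .nil) .nil (.node (.cons (.s .x1 .x2) (.cons (.negSucc 217) .e .nil) .nil) .nil .nil .nil .nil .nil .nil .nil .nil .nil .nil) .nil (.node (.cons (.s .x2 .x4) (.cons (.negSucc 53) .e .nil) .nil) .nil .nil .nil .nil .nil .nil .nil .nil .nil .nil) (.node (.cons (.s .x1 .x4) (.cons (.ofNat 272) .e .nil) .nil) .nil .nil .nil .nil .nil .nil .nil .nil .nil .nil) .nil (.node (.cons (.s .x1 .x2) (.cons (.negSucc 205) .e .nil) .nil) .nil .nil .nil .nil .nil .nil .nil .nil .nil .nil)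
def C23 : Cert := .node (.cons (.s .x2 .x4) (.cons (.ofNat 162) (.a5 .e) (.cons (.ofNat 832) (.a0 .e) .nil)) (.cons (.s .x0 .x4) (.cons (.negSucc 35) (.a7 .e) (.cons (.ofNat 550) (.a2 .e) .nil)) (.cons (.s .x0 .x2) (.cons (.ofNat 180) (.a9 .e) (.cons (.ofNat 605) (.a4 .e) .nil)) (.cons (.s T9 .x2) (.cons (.negSucc 461) .e .nil) (.cons (.s T40 .x2) (.cons (.ofNat 268) .e .nil) (.cons (.s T12 .x4) (.cons (.ofNat 394) .e .nil) (.cons (.rL .x4 .x0 .x2) (.cons (.negSucc 179) .e .nil) .nil))))))) (.node (.cons (.s .x2 .x4) (.cons (.negSucc 71) .e .nil) .nil) .nil .nil .nil .nil .nil .nil .nil .nil .nil .nil) .nil (.node (.cons (.s .x0 .x4) (.cons (.ofNat 196) .e .nil) .nil) .nil .nil .nil .nil .nil .nil .nil .nil .nil .nil) .nil (.node (.cons (.s .x0 .x2) (.cons (.negSucc 161) .e .nil) .nil) .nil .nil .nil .nil .nil .nil .nil .nil .nil .nil) (.node (.cons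 (.s .x2 .x4) (.cons (.negSucc 27) .e .nil) .nil) .nil .nil .nil .nil .nil .nil .nil .nil .nil .nil) .nil (.node (.cons (.s .x0 .x4) (.cons (.ofNat 220) .e .nil) .nil) .nil .nil .nil .nil .nil .nil .nil .nil .nil .nil) .nil (.node (.cons (.s .x0 .x2) (.cons (.negSucc 65) .e .nil) .nil) .nil .nil .nil .nil .nil .nil .nil .nil .nil .nil)
def C24 : Cert := .node (.cons (.s .x1 .x4) (.cons (.ofNat 12) (.a5 .e) (.cons (.ofNat 734) (.a0 .e) .nil)) (.cons (.s .x0 .x4) (.cons (.ofNat 182) (.a6 .e) (.cons (.ofNat 879) (.a1 .e) .nil)) (.cons (.s .x0 .x1) (.cons (.ofNat 138) (.a9 .e) (.cons (.ofNat 744) (.a4 .e) .nil)) (.cons (.s T9 .x1) (.cons (.negSucc 415) .e .nil) (.cons (.s T40 .x1) (.cons (.ofNat 376) .e .nil) (.cons (.s T80 .x4) (.cons (.ofNat 536) .e .nil) (.cons (.rL .x4 .x0 .x1) (.cons (.negSucc 285) .e .nil) .nil))))))) (.node (.cons (.s .x1 .x4) (.cons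 (.ofNat 36) .e .nil) .nil) .nil .nil .nil .nil .nil .nil .nil .nil .nil .nil) (.node (.cons (.s .x0 .x4) (.cons (.negSucc 197) .e .nil) .nil) .nil .nil .nil .nil .nil .nil .nil .nil .nil .nil) .nil .nil (.node (.cons (.s .x0 .x1) (.cons (.ofNat 100) .e .nil) .nil) .nil .nil .nil .nil .nil .nil .nil .nil .nil .nil) (.node (.cons (.s .x1 .x4) (.cons (.negSucc 219) .e .nil) .nil) .nil .nil .nil .nil .nil .nil .nil .nil .nil .nil) (.node (.cons (.s .x0 .x4) (.cons (.negSucc 111) .e .nil) .nil) .nil .nil .nil .nil .nil .nil .nil .nil .nil .nil) .nil .nil (.node (.cons (.s .x0 .x1) (.cons (.ofNat 218) .e .nil) .nil) .nil .nil .nil .nil .nil .nil .nil .nil .nil .nil)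
def C25 : Cert := .node (.cons (.s .x2 .x4) (.cons (.negSucc 113) (.a6 (.a0 .e)) (.cons (.negSucc 419) (.a1 (.a5 .e)) (.cons (.negSucc 1079) (.a1 (.a0 .e)) (.cons (.negSucc 249) (.a5 (.a1 .e)) (.cons (.negSucc 91) (.a0 (.a6 .e)) (.cons (.negSucc 373) (.a0 (.a1 .e)) .nil)))))) (.cons (.s .x1 .x4) (.cons (.negSucc 121) (.a7 (.a5 .e)) (.cons (.negSucc 109) (.a7 (.a0 .e)) (.cons (.negSucc 597) (.a2 (.a5 .e)) (.cons (.negSucc 863) (.a2 (.a0 .e)) (.cons (.ofNat 66) (.a5 (.a2 .e)) (.cons (.ofNat 210) (.a0 (.a7 .e)) (.cons (.negSucc 43) (.a0 (.a2 .e)) .nil))))))) (.cons (.s .x1 .x2) (.cons (.negSucc 245) (.a9 (.a5 .e)) (.cons (.negSucc 341) (.a9 (.a0 .e)) (.cons (.ofNat 230) (.a4 (.a5 .e)) (.cons (.ofNat 20) (.a4 (.a0 .e)) (.cons (.ofNat 44) (.a5 (.a9 .e)) (.cons (.negSucc 229) (.a5 (.a4 .e)) (.cons (.ofNat 40) (.a0 (.a9 .e)) (.cons (.negSucc 5) (.a0 (.a4 .e))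 .nil)))))))) (.cons (.s .x0 .x4) (.cons (.negSucc 133) (.a7 (.a6 .e)) (.cons (.ofNat 632) (.a7 (.a1 .e)) (.cons (.negSucc 551) (.a2 (.a6 .e)) (.cons (.negSucc 45) (.a2 (.a1 .e)) (.cons (.ofNat 212) (.a6 (.a7 .e)) (.cons (.ofNat 696) (.a6 (.a2 .e)) (.cons (.ofNat 76) (.a1 (.a7 .e)) (.cons (.ofNat 160) (.a1 (.a2 .e)) .nil)))))))) (.cons (.s .x0 .x2) (.cons (.negSucc 129) (.a9 (.a6 .e)) (.cons (.negSucc 675) (.a9 (.a1 .e)) (.cons (.ofNat 250) (.a4 (.a6 .e)) (.cons (.negSucc 23) (.a4 (.a1 .e)) (.cons (.ofNat 78) (.a6 (.a9 .e)) (.cons (.negSucc 393) (.a6 (.a4 .e)) (.cons (.ofNat 150) (.a1 (.a9 .e)) (.cons (.negSucc 85) (.a1 (.a4 .e)) .nil)))))))) (.cons (.s .x0 .x1) (.cons (.negSucc 199) (.a9 (.a7 .e)) (.cons (.negSucc 121) (.a9 (.a2 .e)) (.cons (.negSucc 9) (.a4 (.a7 .e)) (.cons (.ofNat 48) (.a4 (.a2 .e)) (.cons (.negSucc 181) (.a7 (.a9 .e)) (.cons (.ofNat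 412) (.a7 (.a4 .e)) (.cons (.negSucc 209) (.a2 (.a9 .e)) (.cons (.ofNat 48) (.a2 (.a4 .e)) .nil)))))))) (.cons (.s T0 .x2) (.cons (.ofNat 46) (.a5 .e) (.cons (.ofNat 172) (.a0 .e) .nil)) (.cons (.s T31 .x2) (.cons (.negSucc 79) (.a5 .e) (.cons (.negSucc 391) (.a0 .e) .nil)) (.cons (.s T16 .x4) (.cons (.ofNat 42) (.a5 .e) (.cons (.negSucc 271) (.a0 .e) .nil)) (.cons (.s T9 .x2) (.cons (.negSucc 81) (.a6 .e) (.cons (.ofNat 580) (.a1 .e) .nil)) (.cons (.s T40 .x2) (.cons (.negSucc 159) (.a6 .e) (.cons (.negSucc 99) (.a1 .e) .nil)) (.cons (.s T12 .x4) (.cons (.ofNat 18) (.a6 .e) (.cons (.negSucc 607) (.a1 .e) .nil)) (.cons (.s T9 .x1) (.cons (.ofNat 88) (.a7 .e) (.cons (.ofNat 502) (.a2 .e) .nil)) (.cons (.s T40 .x1) (.cons (.negSucc 11) (.a7 .e) (.cons (.negSucc 37) (.a2 .e) .nil)) (.cons (.s T80 .x4) (.cons (.negSucc 191) (.a7 .e) (.cons (.negSucc 405)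 (.a2 .e) .nil)) (.cons (.s T12 .x1) (.cons (.ofNat 114) (.a9 .e) (.cons (.negSucc 309) (.a4 .e) .nil)) (.cons (.s T81 .x1) (.cons (.negSucc 39) (.a9 .e) (.cons (.negSucc 109) (.a4 .e) .nil)) (.cons (.s T80 .x2) (.cons (.negSucc 117) (.a9 .e) (.cons (.ofNat 34) (.a4 .e) .nil)) (.cons (.s T9 T16) (.cons (.ofNat 4) .e .nil) (.cons (.s T9 T79) (.cons (.ofNat 44) .e .nil) (.cons (.s T40 T16) (.cons (.ofNat 32) .e .nil) (.cons (.s T40 T79) (.cons (.ofNat 20) .e .nil) (.cons (.s T12 T0) (.cons (.negSucc 51) .e .nil) .nil))))))))))))))))))))))) C18 C19 C20 .nil C21 C22 C23 C24 .nil .nil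
def C26 : Cert := .node (.cons (.s .x2 .x3) (.cons (.negSucc 79) (.a6 .e) (.cons (.ofNat 152) (.a1 .e) .nil)) (.cons (.s .x1 .x3) (.cons (.negSucc 63) (.a7 .e) (.cons (.ofNat 214) (.a2 .e) .nil)) (.cons (.s .x1 .x2) (.cons (.ofNat 16) (.a8 .e) (.cons (.negSucc 57) (.a3 .e) .nil)) .nil))) .nil .nil .nil (.node (.cons (.s .x1 .x2) (.cons (.ofNat 20) .e .nil) .nil) .nil .nil .nil .nil .nil .nil .nil .nil .nil .nil) .nil .nil .nil .nil .nil .nil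
def C27 : Cert := .node (.cons (.s .x2 .x3) (.cons (.ofNat 64) (.a5 .e) (.cons (.ofNat 256) (.a0 .e) .nil)) (.cons (.s .x0 .x3) (.cons (.ofNat 68) (.a7 .e) (.cons (.ofNat 194) (.a2 .e) .nil)) (.cons (.s .x0 .x2) (.cons (.negSucc 55) (.a8 .e) (.cons (.ofNat 70) (.a3 .e) .nil)) (.cons (.s T26 .x2) (.cons (.ofNat 48) .e .nil) (.cons (.s T12 .x3) (.cons (.negSucc 35) .e .nil) .nil))))) .nil .nil (.node (.cons (.s .x0 .x3) (.cons (.negSucc 51) .e .nil) .nil) .nil .nil .nil .nil .nil .nil .nil .nil .nil .nil) (.node (.cons (.s .x0 .x2) (.cons (.negSucc 23) .e .nil) .nil) .nil .nil .nil .nil .nil .nil .nil .nil .nil .nil) .nil (.node (.cons (.s .x2 .x3) (.cons (.negSucc 151) .e .nil) .nil) .nil .nil .nil .nil .nil .nil .nil .nil .nil .nil) .nil .nil .nil .nil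
def C28 : Cert := .node (.cons (.s .x1 .x3) (.cons (.ofNat 24) (.a5 .e) (.cons (.ofNat 264) (.a0 .e) .nil)) (.cons (.s .x0 .x3) (.cons (.ofNat 36) (.a6 .e) (.cons (.ofNat 140) (.a1 .e) .nil)) (.cons (.s .x0 .x1) (.cons (.negSucc 39) (.a8 .e) (.cons (.negSucc 95) (.a3 .e) .nil)) (.cons (.s T26 .x1) (.cons (.ofNat 32) .e .nil) (.cons (.s T49 .x1) (.cons (.negSucc 7) .e .nil) (.cons (.s T80 .x3) (.cons (.negSucc 43) .e .nil) .nil)))))) (.node (.cons (.s .x1 .x3) (.cons (.ofNat 44) .e .nil) .nil) .nil .nil .nil .nil .nil .nil .nil .nil .nil .nil) (.node (.cons (.s .x0 .x3) (.cons (.ofNat 28) .e .nil) .nil) .nil .nil .nil .nil .nil .nil .nil .nil .nil .nil) .nil (.node (.cons (.s .x0 .x1) (.cons (.ofNat 24) .e .nil) .nil) .nil .nil .nil .nil .nil .nil .nil .nil .nil .nil) .nil (.node (.cons (.s .x1 .x3) (.cons (.ofNat 34) .e .nil) .nil) .nil .nil .nil .nil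 .nil .nil .nil .nil .nil .nil) (.node (.cons (.s .x0 .x3) (.cons (.ofNat 243) .e .nil) .nil) .nil .nil .nil .nil .nil .nil .nil .nil .nil .nil) .nil .nil .nil
def C29 : Cert := .node (.cons (.s .x1 .x2) (.cons (.ofNat 24) (.a5 .e) (.cons (.ofNat 64) (.a0 .e) .nil)) (.cons (.s .x0 .x2) (.cons (.negSucc 23) (.a6 .e) (.cons (.negSucc 31) (.a1 .e) .nil)) (.cons (.s .x0 .x1) (.cons (.ofNat 48) (.a7 .e) (.cons (.negSucc 71) (.a2 .e) .nil)) (.cons (.s T12 .x1) (.cons (.negSucc 15) .e .nil) (.cons (.s T81 .x1) (.cons (.ofNat 16) .e .nil) (.cons (.s T80 .x2) (.cons (.ofNat 40) .e .nil) .nil)))))) (.node (.cons (.s .x1 .x2) (.cons (.ofNat 52) .e .nil) .nil) .nil .nil .nil .nil .nil .nil .nil .nil .nil .nil) (.node (.cons (.s .x0 .x2) (.cons (.ofNat 8) .e .nil) .nil) .nil .nil .nil .nil .nil .nil .nil .nil .nil .nil) (.node (.cons (.s .x0 .x1) (.cons (.ofNat 24)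 .e .nil) .nil) .nil .nil .nil .nil .nil .nil .nil .nil .nil .nil) .nil .nil (.node (.cons (.s .x1 .x2) (.cons (.ofNat 236) .e .nil) .nil) .nil .nil .nil .nil .nil .nil .nil .nil .nil .nil) (.node (.cons (.s .x0 .x2) (.cons (.ofNat 108) .e .nil) .nil) .nil .nil .nil .nil .nil .nil .nil .nil .nil .nil) (.node (.cons (.s .x0 .x1) (.cons (.negSucc 255) .e .nil) .nil) .nil .nil .nil .nil .nil .nil .nil .nil .nil .nil) .nil .nil
def C30 : Cert := .node (.cons (.s .x2 .x3) (.cons (.ofNat 244) (.a6 .e) (.cons (.ofNat 721) (.a1 .e) .nil)) (.cons (.s .x1 .x3) (.cons (.ofNat 72) (.a7 .e) (.cons (.ofNat 574) (.a2 .e) .nil)) (.cons (.s .x1 .x2) (.cons (.ofNat 243) (.a8 .e) (.cons (.ofNat 410) (.a3 .e) .nil)) (.cons (.s T3 .x2) (.cons (.negSucc 465) .e .nil) (.cons (.s T35 .x2) (.cons (.ofNat 200) .e .nil) (.cons (.s T16 .x3) (.cons (.ofNat 138) .e .nil) (.cons (.rL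 .x3 .x1 .x2) (.cons (.negSucc 197) .e .nil) .nil))))))) .nil (.node (.cons (.s .x2 .x3) (.cons (.ofNat 130) .e .nil) .nil) .nil .nil .nil .nil .nil .nil .nil .nil .nil .nil) (.node (.cons (.s .x1 .x3) (.cons (.ofNat 148) .e .nil) .nil) .nil .nil .nil .nil .nil .nil .nil .nil .nil .nil) (.node (.cons (.s .x1 .x2) (.cons (.negSucc 145) .e .nil) .nil) .nil .nil .nil .nil .nil .nil .nil .nil .nil .nil) .nil .nil (.node (.cons (.s .x2 .x3) (.cons (.ofNat 91) .e .nil) .nil) .nil .nil .nil .nil .nil .nil .nil .nil .nil .nil) (.node (.cons (.s .x1 .x3) (.cons (.ofNat 230) .e .nil) .nil) .nil .nil .nil .nil .nil .nil .nil .nil .nil .nil) (.node (.cons (.s .x1 .x2) (.cons (.ofNat 232) .e .nil) .nil) .nil .nil .nil .nil .nil .nil .nil .nil .nil .nil) .nil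
def C31 : Cert := .node (.cons (.s .x2 .x3) (.cons (.negSucc 193) (.a5 .e) (.cons (.ofNat 388) (.a0 .e) .nil)) (.cons (.s .x0 .x3) (.cons (.ofNat 264) (.a7 .e) (.cons (.ofNat 940) (.a2 .e) .nil)) (.cons (.s .x0 .x2) (.cons (.ofNat 235) (.a8 .e) (.cons (.ofNat 852) (.a3 .e) .nil)) (.cons (.s T26 .x2) (.cons (.negSucc 469) .e .nil) (.cons (.s T49 .x2) (.cons (.ofNat 340) .e .nil) (.cons (.s T12 .x3) (.cons (.ofNat 298) .e .nil) (.cons (.rL .x3 .x0 .x2) (.cons (.negSucc 199) .e .nil) .nil))))))) (.node (.cons (.s .x2 .x3) (.cons (.negSucc 113) .e .nil) .nil) .nil .nil .nil .nil .nil .nil .nil .nil .nil .nil) .nil (.node (.cons (.s .x0 .x3) (.cons (.negSucc 236) .e .nil) .nil) .nil .nil .nil .nil .nil .nil .nil .nil .nil .nil) (.node (.cons (.s .x0 .x2) (.cons (.negSucc 143) .e .nil) .nil) .nil .nil .nil .nil .nil .nil .nil .nil .nil .nil) .nil (.node (.cons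 (.s .x2 .x3) (.cons (.negSucc 148) .e .nil) .nil) .nil .nil .nil .nil .nil .nil .nil .nil .nil .nil) .nil (.node (.cons (.s .x0 .x3) (.cons (.ofNat 261) .e .nil) .nil) .nil .nil .nil .nil .nil .nil .nil .nil .nil .nil) (.node (.cons (.s .x0 .x2) (.cons (.ofNat 462) .e .nil) .nil) .nil .nil .nil .nil .nil .nil .nil .nil .nil .nil) .nil
def C32 : Cert := .node (.cons (.s .x1 .x3) (.cons (.negSucc 471) (.a5 .e) (.cons (.ofNat 262) (.a0 .e) .nil)) (.cons (.s .x0 .x3) (.cons (.ofNat 14) (.a6 .e) (.cons (.ofNat 1069) (.a1 .e) .nil)) (.cons (.s .x0 .x1) (.cons (.ofNat 196) (.a8 .e) (.cons (.ofNat 958) (.a3 .e) .nil)) (.cons (.s T26 .x1) (.cons (.negSucc 475) .e .nil) (.cons (.s T49 .x1) (.cons (.ofNat 540) .e .nil) (.cons (.s T80 .x3) (.cons (.ofNat 620) .e .nil) (.cons (.rL .x3 .x0 .x1) (.cons (.negSucc 377) .e .nil) .nil))))))) (.node (.cons (.s .x1 .x3)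 (.cons (.ofNat 24) .e .nil) .nil) .nil .nil .nil .nil .nil .nil .nil .nil .nil .nil) (.node (.cons (.s .x0 .x3) (.cons (.negSucc 158) .e .nil) .nil) .nil .nil .nil .nil .nil .nil .nil .nil .nil .nil) .nil (.node (.cons (.s .x0 .x1) (.cons (.ofNat 218) .e .nil) .nil) .nil .nil .nil .nil .nil .nil .nil .nil .nil .nil) .nil (.node (.cons (.s .x1 .x3) (.cons (.negSucc 197) .e .nil) .nil) .nil .nil .nil .nil .nil .nil .nil .nil .nil .nil) (.node (.cons (.s .x0 .x3) (.cons (.ofNat 118) .e .nil) .nil) .nil .nil .nil .nil .nil .nil .nil .nil .nil .nil) .nil (.node (.cons (.s .x0 .x1) (.cons (.ofNat 18) .e .nil) .nil) .nil .nil .nil .nil .nil .nil .nil .nil .nil .nil) .nil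
def C33 : Cert := .node (.cons (.s .x1 .x2) (.cons (.negSucc 483) (.a5 .e) (.cons (.negSucc 423) (.a0 .e) .nil)) (.cons (.s .x0 .x2) (.cons (.negSucc 203) (.a6 .e) (.cons (.ofNat 142) (.a1 .e) .nil)) (.cons (.s .x0 .x1) (.cons (.ofNat 220) (.a7 .e) (.cons (.ofNat 302) (.a2 .e) .nil)) (.cons (.s T12 .x1) (.cons (.negSucc 167) .e .nil) (.cons (.s T81 .x1) (.cons (.ofNat 128) .e .nil) (.cons (.s T80 .x2) (.cons (.ofNat 132) .e .nil) (.cons (.rL .x2 .x0 .x1) (.cons (.negSucc 103) .e .nil) .nil))))))) (.node (.cons (.s .x1 .x2) (.cons (.ofNat 36) .e .nil) .nil) .nil .nil .nil .nil .nil .nil .nil .nil .nil .nil) (.node (.cons (.s .x0 .x2) (.cons (.negSucc 17) .e .nil) .nil) .nil .nil .nil .nil .nil .nil .nil .nil .nil .nil) (.node (.cons (.s .x0 .x1) (.cons (.ofNat 94) .e .nil) .nil) .nil .nil .nil .nil .nil .nil .nil .nil .nil .nil) .nil .nil (.node (.cons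 (.s .x1 .x2) (.cons (.ofNat 148) .e .nil) .nil) .nil .nil .nil .nil .nil .nil .nil .nil .nil .nil) (.node (.cons (.s .x0 .x2) (.cons (.ofNat 356) .e .nil) .nil) .nil .nil .nil .nil .nil .nil .nil .nil .nil .nil) (.node (.cons (.s .x0 .x1) (.cons (.negSucc 259) .e .nil) .nil) .nil .nil .nil .nil .nil .nil .nil .nil .nil .nil) .nil .nil
def C34 : Cert := .node (.cons (.s .x2 .x3) (.cons (.ofNat 24) (.a6 (.a5 .e)) (.cons (.negSucc 215) (.a6 (.a0 .e)) (.cons (.ofNat 54) (.a1 (.a5 .e)) (.cons (.negSucc 587) (.a1 (.a0 .e)) (.cons (.negSucc 287) (.a5 (.a1 .e)) (.cons (.ofNat 102) (.a0 (.a6 .e)) (.cons (.negSucc 471) (.a0 (.a1 .e)) .nil))))))) (.cons (.s .x1 .x3) (.cons (.ofNat 274) (.a7 (.a5 .e)) (.cons (.ofNat 500) (.a7 (.a0 .e)) (.cons (.negSucc 51) (.a2 (.a5 .e)) (.cons (.negSucc 259) (.a2 (.a0 .e)) (.cons (.negSucc 23) (.a5 (.a7 .e)) (.cons (.ofNat 52)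 (.a5 (.a2 .e)) (.cons (.negSucc 35) (.a0 (.a7 .e)) (.cons (.negSucc 353) (.a0 (.a2 .e)) .nil)))))))) (.cons (.s .x1 .x2) (.cons (.negSucc 513) (.a8 (.a5 .e)) (.cons (.negSucc 388) (.a8 (.a0 .e)) (.cons (.negSucc 162) (.a3 (.a5 .e)) (.cons (.ofNat 52) (.a3 (.a0 .e)) (.cons (.ofNat 40) (.a5 (.a8 .e)) (.cons (.ofNat 163) (.a5 (.a3 .e)) (.cons (.negSucc 160) (.a0 (.a8 .e)) (.cons (.ofNat 48) (.a0 (.a3 .e)) .nil)))))))) (.cons (.s .x0 .x3) (.cons (.ofNat 98) (.a7 (.a6 .e)) (.cons (.ofNat 600) (.a7 (.a1 .e)) (.cons (.negSucc 299) (.a2 (.a6 .e)) (.cons (.negSucc 107) (.a2 (.a1 .e)) (.cons (.negSucc 39) (.a6 (.a7 .e)) (.cons (.ofNat 340) (.a6 (.a2 .e)) (.cons (.negSucc 195) (.a1 (.a7 .e)) (.cons (.negSucc 189) (.a1 (.a2 .e)) .nil)))))))) (.cons (.s .x0 .x2) (.cons (.negSucc 221) (.a8 (.a6 .e)) (.cons (.negSucc 413) (.a8 (.a1 .e)) (.cons (.ofNat 10) (.a3 (.a6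 .e)) (.cons (.negSucc 11) (.a3 (.a1 .e)) (.cons (.negSucc 141) (.a6 (.a8 .e)) (.cons (.negSucc 279) (.a6 (.a3 .e)) (.cons (.negSucc 105) (.a1 (.a8 .e)) (.cons (.negSucc 141) (.a1 (.a3 .e)) .nil)))))))) (.cons (.s .x0 .x1) (.cons (.negSucc 15) (.a8 (.a7 .e)) (.cons (.negSucc 329) (.a8 (.a2 .e)) (.cons (.ofNat 212) (.a3 (.a7 .e)) (.cons (.ofNat 48) (.a3 (.a2 .e)) (.cons (.ofNat 6) (.a7 (.a8 .e)) (.cons (.ofNat 196) (.a7 (.a3 .e)) (.cons (.ofNat 64) (.a2 (.a8 .e)) (.cons (.ofNat 72) (.a2 (.a3 .e)) .nil)))))))) (.cons (.s T3 .x2) (.cons (.ofNat 402) (.a5 .e) (.cons (.ofNat 708) (.a0 .e) .nil)) (.cons (.s T35 .x2) (.cons (.negSucc 283) (.a0 .e) .nil) (.cons (.s T16 .x3) (.cons (.negSucc 273) (.a5 .e) (.cons (.negSucc 691) (.a0 .e) .nil)) (.cons (.s T26 .x2) (.cons (.ofNat 110) (.a6 .e) (.cons (.ofNat 556) (.a1 .e) .nil)) (.cons (.s T49 .x2) (.cons (.negSucc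 147) (.a1 .e) .nil) (.cons (.s T12 .x3) (.cons (.negSucc 93) (.a6 .e) (.cons (.negSucc 527) (.a1 .e) .nil)) (.cons (.s T26 .x1) (.cons (.negSucc 135) (.a7 .e) (.cons (.ofNat 282) (.a2 .e) .nil)) (.cons (.s T49 .x1) (.cons (.negSucc 7) (.a7 .e) (.cons (.negSucc 217) (.a2 .e) .nil)) (.cons (.s T80 .x3) (.cons (.ofNat 12) (.a7 .e) (.cons (.negSucc 281) (.a2 .e) .nil)) (.cons (.s T12 .x1) (.cons (.negSucc 93) (.a8 .e) (.cons (.negSucc 355) (.a3 .e) .nil)) (.cons (.s T81 .x1) (.cons (.negSucc 31) (.a8 .e) (.cons (.negSucc 165) (.a3 .e) .nil)) (.cons (.s T80 .x2) (.cons (.ofNat 110) (.a8 .e) (.cons (.ofNat 104) (.a3 .e) .nil)) (.cons (.s T26 T16) (.cons (.ofNat 8) .e .nil) (.cons (.s T26 T79) (.cons (.ofNat 40) .e .nil) (.cons (.s T49 T16) (.cons (.negSucc 19) .e .nil) (.cons (.s T49 T79) (.cons (.ofNat 4) .e .nil) (.cons (.s T12 T3) (.cons (.negSucc 31) .e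 .nil) (.cons (.s T12 T35) (.cons (.negSucc 23) .e .nil) .nil)))))))))))))))))))))))) C26 C27 C28 C29 .nil C30 C31 C32 C33 .nil
def C35 : Cert := .node (.cons (.s .x3 .x4) (.cons (.negSucc 129) (.a7 .e) (.cons (.ofNat 138) (.a2 .e) .nil)) (.cons (.s .x2 .x4) (.cons (.negSucc 234) (.a8 .e) (.cons (.negSucc 467) (.a3 .e) .nil)) (.cons (.s .x2 .x3) (.cons (.negSucc 23) (.a9 .e) (.cons (.negSucc 350) (.a4 .e) .nil)) (.cons (.s T5 .x3) (.cons (.negSucc 107) .e .nil) (.cons (.s T55 .x3) (.cons (.ofNat 272) .e .nil) .nil))))) .nil .nil (.node (.cons (.s .x3 .x4) (.cons (.negSucc 5) .e .nil) .nil) .nil .nil .nil .nil .nil .nil .nil .nil .nil .nil) (.node (.cons (.s .x2 .x4) (.cons (.ofNat 250) .e .nil) .nil) .nil .nil .nil .nil .nil .nil .nil .nil .nil .nil) (.node (.cons (.s .x2 .x3) (.cons (.ofNat 109) .e .nil) .nil) .nil .nil .nil .nil .nil .nil .nil .nil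 .nil .nil) .nil .nil .nil .nil .nil
def C36 : Cert := .node (.cons (.s .x3 .x4) (.cons (.ofNat 42) (.a6 .e) (.cons (.ofNat 535) (.a1 .e) .nil)) (.cons (.s .x1 .x4) (.cons (.negSucc 166) (.a8 .e) (.cons (.negSucc 843) (.a3 .e) .nil)) (.cons (.s .x1 .x3) (.cons (.negSucc 207) (.a9 .e) (.cons (.negSucc 374) (.a4 .e) .nil)) (.cons (.s T0 .x3) (.cons (.ofNat 116) .e .nil) (.cons (.s T31 .x3) (.cons (.negSucc 7) .e .nil) (.cons (.s T3 .x4) (.cons (.negSucc 111) .e .nil) .nil)))))) .nil (.node (.cons (.s .x3 .x4) (.cons (.negSucc 47) .e .nil) .nil) .nil .nil .nil .nil .nil .nil .nil .nil .nil .nil) .nil (.node (.cons (.s .x1 .x4) (.cons (.ofNat 66) .e .nil) .nil) .nil .nil .nil .nil .nil .nil .nil .nil .nil .nil) (.node (.cons (.s .x1 .x3) (.cons (.ofNat 272) .e .nil) .nil) .nil .nil .nil .nil .nil .nil .nil .nil .nil .nil) .nil (.node (.cons (.s .x3 .x4) (.cons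 (.ofNat 200) .e .nil) .nil) .nil .nil .nil .nil .nil .nil .nil .nil .nil .nil) .nil .nil .nil
def C37 : Cert := .node (.cons (.s .x2 .x4) (.cons (.negSucc 141) (.a6 .e) (.cons (.ofNat 631) (.a1 .e) .nil)) (.cons (.s .x1 .x4) (.cons (.negSucc 173) (.a7 .e) (.cons (.negSucc 93) (.a2 .e) .nil)) (.cons (.s .x1 .x2) (.cons (.ofNat 76) (.a9 .e) (.cons (.negSucc 122) (.a4 .e) .nil)) (.cons (.s T0 .x2) (.cons (.negSucc 111) .e .nil) (.cons (.s T31 .x2) (.cons (.ofNat 80) .e .nil) (.cons (.s T16 .x4) (.cons (.ofNat 248) .e .nil) .nil)))))) .nil (.node (.cons (.s .x2 .x4) (.cons (.negSucc 187) .e .nil) .nil) .nil .nil .nil .nil .nil .nil .nil .nil .nil .nil) (.node (.cons (.s .x1 .x4) (.cons (.negSucc 461) .e .nil) .nil) .nil .nil .nil .nil .nil .nil .nil .nil .nil .nil) .nil (.node (.cons (.s .x1 .x2) (.cons (.ofNat 178) .e .nil) .nil) .nil .nil .nil .nil .nil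 .nil .nil .nil .nil .nil) .nil (.node (.cons (.s .x2 .x4) (.cons (.negSucc 495) .e .nil) .nil) .nil .nil .nil .nil .nil .nil .nil .nil .nil .nil) (.node (.cons (.s .x1 .x4) (.cons (.negSucc 851) .e .nil) .nil) .nil .nil .nil .nil .nil .nil .nil .nil .nil .nil) .nil .nil
def C38 : Cert := .node (.cons (.s .x2 .x3) (.cons (.negSucc 173) (.a6 .e) (.cons (.ofNat 325) (.a1 .e) .nil)) (.cons (.s .x1 .x3) (.cons (.negSucc 477) (.a7 .e) (.cons (.negSucc 39) (.a2 .e) .nil)) (.cons (.s .x1 .x2) (.cons (.negSucc 96) (.a8 .e) (.cons (.negSucc 513) (.a3 .e) .nil)) (.cons (.s T3 .x2) (.cons (.negSucc 115) .e .nil) (.cons (.s T35 .x2) (.cons (.ofNat 76) .e .nil) (.cons (.s T16 .x3) (.cons (.ofNat 532) .e .nil) .nil)))))) .nil (.node (.cons (.s .x2 .x3) (.cons (.negSucc 225) .e .nil) .nil) .nil .nil .nil .nil .nil .nil .nil .nil .nil .nil) (.node (.cons (.s .x1 .x3)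 (.cons (.negSucc 437) .e .nil) .nil) .nil .nil .nil .nil .nil .nil .nil .nil .nil .nil) (.node (.cons (.s .x1 .x2) (.cons (.negSucc 153) .e .nil) .nil) .nil .nil .nil .nil .nil .nil .nil .nil .nil .nil) .nil .nil (.node (.cons (.s .x2 .x3) (.cons (.negSucc 464) .e .nil) .nil) .nil .nil .nil .nil .nil .nil .nil .nil .nil .nil) (.node (.cons (.s .x1 .x3) (.cons (.negSucc 1105) .e .nil) .nil) .nil .nil .nil .nil .nil .nil .nil .nil .nil .nil) (.node (.cons (.s .x1 .x2) (.cons (.negSucc 451) .e .nil) .nil) .nil .nil .nil .nil .nil .nil .nil .nil .nil .nil) .nil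
def C39 : Cert := .node (.cons (.s .x3 .x4) (.cons (.negSucc 369) (.a7 .e) (.cons (.negSucc 1101) (.a2 .e) .nil)) (.cons (.s .x2 .x4) (.cons (.negSucc 435) (.a8 .e) (.cons (.negSucc 1413) (.a3 .e) .nil)) (.cons (.s .x2 .x3) (.cons (.negSucc 241) (.a9 .e) (.cons (.negSucc 1019) (.a4 .e) .nil)) (.cons (.s T5 .x3) (.cons (.ofNat 564) .e .nil) (.cons (.s T55 .x3) (.cons (.ofNat 232) .e .nil) (.cons (.s T7 .x4) (.cons (.ofNat 164) .e .nil) (.cons (.rL .x4 .x2 .x3) (.cons (.ofNat 188) .e .nil) .nil))))))) .nil .nil (.node (.cons (.s .x3 .x4) (.cons (.negSucc 139) .e .nil) .nil) .nil .nil .nil .nil .nil .nil .nil .nil .nil .nil) (.node (.cons (.s .x2 .x4) (.cons (.negSucc 155) .e .nil) .nil) .nil .nil .nil .nil .nil .nil .nil .nil .nil .nil) (.node (.cons (.s .x2 .x3) (.cons (.negSucc 295) .e .nil) .nil) .nil .nil .nil .nil .nil .nil .nil .nil .nil .nil) .nil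 .nil (.node (.cons (.s .x3 .x4) (.cons (.negSucc 163) .e .nil) .nil) .nil .nil .nil .nil .nil .nil .nil .nil .nil .nil) (.node (.cons (.s .x2 .x4) (.cons (.negSucc 231) .e .nil) .nil) .nil .nil .nil .nil .nil .nil .nil .nil .nil .nil) (.node (.cons (.s .x2 .x3) (.cons (.negSucc 415) .e .nil) .nil) .nil .nil .nil .nil .nil .nil .nil .nil .nil .nil)
def C40 : Cert := .node (.cons (.s .x3 .x4) (.cons (.ofNat 208) (.a6 .e) (.cons (.negSucc 503) (.a1 .e) .nil)) (.cons (.s .x1 .x4) (.cons (.negSucc 585) (.a8 .e) (.cons (.negSucc 1649) (.a3 .e) .nil)) (.cons (.s .x1 .x3) (.cons (.negSucc 434) (.a9 .e) (.cons (.negSucc 899) (.a4 .e) .nil)) (.cons (.s T0 .x3) (.cons (.ofNat 502) .e .nil) (.cons (.s T31 .x3) (.cons (.negSucc 147) .e .nil) (.cons (.s T3 .x4) (.cons (.negSucc 167) .e .nil) (.cons (.rL .x4 .x1 .x3) (.cons (.ofNat 335) .e .nil) .nil))))))) .nil (.node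 (.cons (.s .x3 .x4) (.cons (.ofNat 214) .e .nil) .nil) .nil .nil .nil .nil .nil .nil .nil .nil .nil .nil) .nil (.node (.cons (.s .x1 .x4) (.cons (.ofNat 400) .e .nil) .nil) .nil .nil .nil .nil .nil .nil .nil .nil .nil .nil) (.node (.cons (.s .x1 .x3) (.cons (.ofNat 600) .e .nil) .nil) .nil .nil .nil .nil .nil .nil .nil .nil .nil .nil) .nil (.node (.cons (.s .x3 .x4) (.cons (.ofNat 168) .e .nil) .nil) .nil .nil .nil .nil .nil .nil .nil .nil .nil .nil) .nil (.node (.cons (.s .x1 .x4) (.cons (.ofNat 116) .e .nil) .nil) .nil .nil .nil .nil .nil .nil .nil .nil .nil .nil) (.node (.cons (.s .x1 .x3) (.cons (.negSucc 186) .e .nil) .nil) .nil .nil .nil .nil .nil .nil .nil .nil .nil .nil)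
def C41 : Cert := .node (.cons (.s .x2 .x4) (.cons (.ofNat 108) (.a6 .e) (.cons (.ofNat 172) (.a1 .e) .nil)) (.cons (.s .x1 .x4) (.cons (.negSucc 499) (.a7 .e) (.cons (.negSucc 661) (.a2 .e) .nil)) (.cons (.s .x1 .x2) (.cons (.ofNat 245) (.a9 .e) (.cons (.negSucc 358) (.a4 .e) .nil)) (.cons (.s T0 .x2) (.cons (.negSucc 161) .e .nil) (.cons (.s T31 .x2) (.cons (.negSucc 255) .e .nil) (.cons (.s T16 .x4) (.cons (.negSucc 207) .e .nil) (.cons (.rL .x4 .x1 .x2) (.cons (.ofNat 41) .e .nil) .nil))))))) .nil (.node (.cons (.s .x2 .x4) (.cons (.ofNat 110) .e .nil) .nil) .nil .nil .nil .nil .nil .nil .nil .nil .nil .nil) (.node (.cons (.s .x1 .x4) (.cons (.ofNat 180) .e .nil) .nil) .nil .nil .nil .nil .nil .nil .nil .nil .nil .nil) .nil (.node (.cons (.s .x1 .x2) (.cons (.ofNat 78) .e .nil) .nil) .nil .nil .nil .nil .nil .nil .nil .nil .nil .nil) .nil (.node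 (.cons (.s .x2 .x4) (.cons (.ofNat 208) .e .nil) .nil) .nil .nil .nil .nil .nil .nil .nil .nil .nil .nil) (.node (.cons (.s .x1 .x4) (.cons (.ofNat 224) .e .nil) .nil) .nil .nil .nil .nil .nil .nil .nil .nil .nil .nil) .nil (.node (.cons (.s .x1 .x2) (.cons (.ofNat 239) .e .nil) .nil) .nil .nil .nil .nil .nil .nil .nil .nil .nil .nil)
def C42 : Cert := .node (.cons (.s .x2 .x3) (.cons (.ofNat 260) (.a6 .e) (.cons (.ofNat 600) (.a1 .e) .nil)) (.cons (.s .x1 .x3) (.cons (.negSucc 117) (.a7 .e) (.cons (.ofNat 175) (.a2 .e) .nil)) (.cons (.s .x1 .x2) (.cons (.ofNat 135) (.a8 .e) (.cons (.negSucc 554) (.a3 .e) .nil)) (.cons (.s T3 .x2) (.cons (.ofNat 154) .e .nil) (.cons (.s T35 .x2) (.cons (.negSucc 191) .e .nil) (.cons (.s T16 .x3) (.cons (.negSucc 191) .e .nil) (.cons (.rL .x3 .x1 .x2) (.cons (.ofNat 185) .e .nil) .nil))))))) .nil (.node (.cons (.s .x2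 .x3) (.cons (.negSucc 83) .e .nil) .nil) .nil .nil .nil .nil .nil .nil .nil .nil .nil .nil) (.node (.cons (.s .x1 .x3) (.cons (.ofNat 240) .e .nil) .nil) .nil .nil .nil .nil .nil .nil .nil .nil .nil .nil) (.node (.cons (.s .x1 .x2) (.cons (.negSucc 133) .e .nil) .nil) .nil .nil .nil .nil .nil .nil .nil .nil .nil .nil) .nil .nil (.node (.cons (.s .x2 .x3) (.cons (.ofNat 160) .e .nil) .nil) .nil .nil .nil .nil .nil .nil .nil .nil .nil .nil) (.node (.cons (.s .x1 .x3) (.cons (.ofNat 192) .e .nil) .nil) .nil .nil .nil .nil .nil .nil .nil .nil .nil .nil) (.node (.cons (.s .x1 .x2) (.cons (.ofNat 7) .e .nil) .nil) .nil .nil .nil .nil .nil .nil .nil .nil .nil .nil) .nil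
def C43 : Cert := .node (.cons (.s .x3 .x4) (.cons (.ofNat 326) (.a7 (.a6 .e)) (.cons (.ofNat 299) (.a7 (.a1 .e)) (.cons (.ofNat 68) (.a2 (.a6 .e)) (.cons (.ofNat 1732) (.a2 (.a1 .e)) (.cons (.negSucc 341) (.a6 (.a7 .e)) (.cons (.negSucc 43) (.a6 (.a2 .e)) (.cons (.ofNat 198) (.a1 (.a7 .e)) (.cons (.ofNat 1610) (.a1 (.a2 .e)) .nil)))))))) (.cons (.s .x2 .x4) (.cons (.negSucc 27) (.a8 (.a6 .e)) (.cons (.negSucc 1231) (.a8 (.a1 .e)) (.cons (.ofNat 70) (.a3 (.a6 .e)) (.cons (.ofNat 239) (.a3 (.a1 .e)) (.cons (.negSucc 406) (.a6 (.a8 .e)) (.cons (.negSucc 777) (.a6 (.a3 .e)) (.cons (.ofNat 1166) (.a1 (.a8 .e)) (.cons (.ofNat 1346) (.a1 (.a3 .e)) .nil)))))))) (.cons (.s .x2 .x3) (.cons (.ofNat 80) (.a9 (.a6 .e)) (.cons (.negSucc 207) (.a9 (.a1 .e)) (.cons (.ofNat 248) (.a4 (.a6 .e)) (.cons (.ofNat 279) (.a4 (.a1 .e)) (.cons (.negSucc 183) (.a6 (.a9 .e)) (.cons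 (.negSucc 434) (.a6 (.a4 .e)) (.cons (.ofNat 648) (.a1 (.a9 .e)) (.cons (.ofNat 986) (.a1 (.a4 .e)) .nil)))))))) (.cons (.s .x1 .x4) (.cons (.negSucc 321) (.a8 (.a7 .e)) (.cons (.negSucc 950) (.a8 (.a2 .e)) (.cons (.ofNat 17) (.a3 (.a7 .e)) (.cons (.ofNat 980) (.a3 (.a2 .e)) (.cons (.negSucc 127) (.a7 (.a8 .e)) (.cons (.negSucc 96) (.a7 (.a3 .e)) (.cons (.ofNat 1074) (.a2 (.a8 .e)) (.cons (.ofNat 2332) (.a2 (.a3 .e)) .nil)))))))) (.cons (.s .x1 .x3) (.cons (.ofNat 68) (.a9 (.a7 .e)) (.cons (.negSucc 278) (.a9 (.a2 .e)) (.cons (.negSucc 379) (.a4 (.a7 .e)) (.cons (.ofNat 88) (.a4 (.a2 .e)) (.cons (.ofNat 208) (.a7 (.a9 .e)) (.cons (.ofNat 62) (.a7 (.a4 .e)) (.cons (.ofNat 864) (.a2 (.a9 .e)) (.cons (.ofNat 1443) (.a2 (.a4 .e)) .nil)))))))) (.cons (.s .x1 .x2) (.cons (.negSucc 191) (.a9 (.a8 .e)) (.cons (.negSucc 30) (.a9 (.a3 .e)) (.cons (.negSucc 146)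 (.a4 (.a8 .e)) (.cons (.negSucc 71) (.a4 (.a3 .e)) (.cons (.negSucc 269) (.a8 (.a9 .e)) (.cons (.negSucc 24) (.a8 (.a4 .e)) (.cons (.negSucc 139) (.a3 (.a9 .e)) (.cons (.negSucc 128) (.a3 (.a4 .e)) .nil)))))))) (.cons (.s T5 .x3) (.cons (.negSucc 383) (.a6 .e) (.cons (.negSucc 1757) (.a1 .e) .nil)) (.cons (.s T55 .x3) (.cons (.negSucc 227) (.a6 .e) (.cons (.ofNat 18) (.a1 .e) .nil)) (.cons (.s T7 .x4) (.cons (.negSucc 207) (.a6 .e) (.cons (.negSucc 157) (.a1 .e) .nil)) (.cons (.s T0 .x3) (.cons (.negSucc 593) (.a7 .e) (.cons (.negSucc 1491) (.a2 .e) .nil)) (.cons (.s T31 .x3) (.cons (.ofNat 392) (.a7 .e) (.cons (.ofNat 538) (.a2 .e) .nil)) (.cons (.s T3 .x4) (.cons (.ofNat 370) (.a7 .e) (.cons (.ofNat 410) (.a2 .e) .nil)) (.cons (.s T0 .x2) (.cons (.negSucc 331) (.a8 .e) (.cons (.negSucc 775) (.a3 .e) .nil)) (.cons (.s T31 .x2) (.cons (.ofNat 642) (.a8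 .e) (.cons (.ofNat 1598) (.a3 .e) .nil)) (.cons (.s T16 .x4) (.cons (.ofNat 504) (.a8 .e) (.cons (.ofNat 1646) (.a3 .e) .nil)) (.cons (.s T3 .x2) (.cons (.ofNat 6) (.a9 .e) (.cons (.negSucc 437) (.a4 .e) .nil)) (.cons (.s T35 .x2) (.cons (.ofNat 292) (.a9 .e) (.cons (.ofNat 1020) (.a4 .e) .nil)) (.cons (.s T16 .x3) (.cons (.negSucc 109) (.a9 .e) (.cons (.ofNat 1020) (.a4 .e) .nil)) (.cons (.rL .x4 .x2 .x3) (.cons (.negSucc 191) (.a6 .e) (.cons (.negSucc 761) (.a1 .e) .nil)) (.cons (.rL .x4 .x1 .x3) (.cons (.negSucc 353) (.a7 .e) (.cons (.negSucc 814) (.a2 .e) .nil)) (.cons (.rL .x4 .x1 .x2) (.cons (.negSucc 707) (.a8 .e) (.cons (.negSucc 956) (.a3 .e) .nil)) (.cons (.rL .x3 .x1 .x2) (.cons (.negSucc 293) (.a9 .e) (.cons (.negSucc 520) (.a4 .e) .nil)) (.cons (.s T0 T7) (.cons (.ofNat 160) .e .nil) (.cons (.s T0 T59) (.cons (.ofNat 32) .e .nil) (.cons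 (.s T31 T7) (.cons (.ofNat 32) .e .nil) (.cons (.s T31 T59) (.cons (.ofNat 32) .e .nil) (.cons (.s T3 T5) (.cons (.ofNat 128) .e .nil) (.cons (.s T78 .x2) (.cons (.ofNat 24) .e .nil) .nil)))))))))))))))))))))))))))) .nil C35 C36 C37 C38 .nil C39 C40 C41 C42
def C44 : Cert := .node (.cons (.s .x3 .x4) (.cons (.negSucc 301) (.a7 .e) (.cons (.negSucc 149) (.a2 .e) .nil)) (.cons (.s .x2 .x4) (.cons (.negSucc 60) (.a8 .e) (.cons (.negSucc 605) (.a3 .e) .nil)) (.cons (.s .x2 .x3) (.cons (.negSucc 9) (.a9 .e) (.cons (.negSucc 570) (.a4 .e) .nil)) (.cons (.s T5 .x3) (.cons (.negSucc 67) .e .nil) (.cons (.s T55 .x3) (.cons (.ofNat 160) .e .nil) .nil))))) .nil .nil (.node (.cons (.s .x3 .x4) (.cons (.ofNat 6) .e .nil) .nil) .nil .nil .nil .nil .nil .nil .nil .nil .nil .nil) (.node (.cons (.s .x2 .x4) (.cons (.ofNat 258) .e .nil) .nil) .nil .nil .nil .nil .nil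 .nil .nil .nil .nil .nil) (.node (.cons (.s .x2 .x3) (.cons (.ofNat 133) .e .nil) .nil) .nil .nil .nil .nil .nil .nil .nil .nil .nil .nil) .nil .nil .nil .nil .nil
def C45 : Cert := .node (.cons (.s .x3 .x4) (.cons (.ofNat 432) (.a5 .e) (.cons (.ofNat 832) (.a0 .e) .nil)) (.cons (.s .x0 .x4) (.cons (.negSucc 310) (.a8 .e) (.cons (.negSucc 1241) (.a3 .e) .nil)) (.cons (.s .x0 .x3) (.cons (.negSucc 247) (.a9 .e) (.cons (.negSucc 866) (.a4 .e) .nil)) (.cons (.s T9 .x3) (.cons (.ofNat 258) .e .nil) (.cons (.s T40 .x3) (.cons (.negSucc 147) .e .nil) (.cons (.s T26 .x4) (.cons (.ofNat 98) .e .nil) .nil)))))) (.node (.cons (.s .x3 .x4) (.cons (.ofNat 132) .e .nil) .nil) .nil .nil .nil .nil .nil .nil .nil .nil .nil .nil) .nil .nil (.node (.cons (.s .x0 .x4) (.cons (.ofNat 468) .e .nil) .nil) .nil .nil .nil .nil .nil .nil .nil .nil .nil .nil) (.node (.cons (.s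 .x0 .x3) (.cons (.ofNat 897) .e .nil) .nil) .nil .nil .nil .nil .nil .nil .nil .nil .nil .nil) (.node (.cons (.s .x3 .x4) (.cons (.ofNat 204) .e .nil) .nil) .nil .nil .nil .nil .nil .nil .nil .nil .nil .nil) .nil .nil .nil .nil
def C46 : Cert := .node (.cons (.s .x2 .x4) (.cons (.ofNat 508) (.a5 .e) (.cons (.ofNat 844) (.a0 .e) .nil)) (.cons (.s .x0 .x4) (.cons (.negSucc 551) (.a7 .e) (.cons (.negSucc 737) (.a2 .e) .nil)) (.cons (.s .x0 .x2) (.cons (.ofNat 20) (.a9 .e) (.cons (.negSucc 518) (.a4 .e) .nil)) (.cons (.s T9 .x2) (.cons (.ofNat 54) .e .nil) (.cons (.s T40 .x2) (.cons (.negSucc 127) .e .nil) (.cons (.s T12 .x4) (.cons (.ofNat 122) .e .nil) .nil)))))) (.node (.cons (.s .x2 .x4) (.cons (.negSucc 39) .e .nil) .nil) .nil .nil .nil .nil .nil .nil .nil .nil .nil .nil) .nil (.node (.cons (.s .x0 .x4) (.cons (.negSucc 157) .e .nil) .nil) .nil .nil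 .nil .nil .nil .nil .nil .nil .nil .nil) .nil (.node (.cons (.s .x0 .x2) (.cons (.ofNat 448) .e .nil) .nil) .nil .nil .nil .nil .nil .nil .nil .nil .nil .nil) (.node (.cons (.s .x2 .x4) (.cons (.negSucc 379) .e .nil) .nil) .nil .nil .nil .nil .nil .nil .nil .nil .nil .nil) .nil (.node (.cons (.s .x0 .x4) (.cons (.negSucc 865) .e .nil) .nil) .nil .nil .nil .nil .nil .nil .nil .nil .nil .nil) .nil .nil
def C47 : Cert := .node (.cons (.s .x2 .x3) (.cons (.ofNat 468) (.a5 .e) (.cons (.ofNat 788) (.a0 .e) .nil)) (.cons (.s .x0 .x3) (.cons (.negSucc 567) (.a7 .e) (.cons (.negSucc 625) (.a2 .e) .nil)) (.cons (.s .x0 .x2) (.cons (.negSucc 58) (.a8 .e) (.cons (.negSucc 757) (.a3 .e) .nil)) (.cons (.s T26 .x2) (.cons (.ofNat 38) .e .nil) (.cons (.s T49 .x2) (.cons (.negSucc 195) .e .nil) (.cons (.s T12 .x3) (.cons (.ofNat 158) .e .nil) .nil)))))) (.node (.cons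 (.s .x2 .x3) (.cons (.ofNat 46) .e .nil) .nil) .nil .nil .nil .nil .nil .nil .nil .nil .nil .nil) .nil (.node (.cons (.s .x0 .x3) (.cons (.negSucc 117) .e .nil) .nil) .nil .nil .nil .nil .nil .nil .nil .nil .nil .nil) (.node (.cons (.s .x0 .x2) (.cons (.ofNat 68) .e .nil) .nil) .nil .nil .nil .nil .nil .nil .nil .nil .nil .nil) .nil (.node (.cons (.s .x2 .x3) (.cons (.negSucc 340) .e .nil) .nil) .nil .nil .nil .nil .nil .nil .nil .nil .nil .nil) .nil (.node (.cons (.s .x0 .x3) (.cons (.negSucc 1294) .e .nil) .nil) .nil .nil .nil .nil .nil .nil .nil .nil .nil .nil) (.node (.cons (.s .x0 .x2) (.cons (.negSucc 575) .e .nil) .nil) .nil .nil .nil .nil .nil .nil .nil .nil .nil .nil) .nil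
def C48 : Cert := .node (.cons (.s .x3 .x4) (.cons (.negSucc 123) (.a7 .e) (.cons (.negSucc 761) (.a2 .e) .nil)) (.cons (.s .x2 .x4) (.cons (.ofNat 22) (.a8 .e) (.cons (.negSucc 1101) (.a3 .e) .nil)) (.cons (.s .x2 .x3) (.cons (.ofNat 52) (.a9 .e) (.cons (.negSucc 807) (.a4 .e) .nil)) (.cons (.s T5 .x3) (.cons (.ofNat 392) .e .nil) (.cons (.s T55 .x3) (.cons (.negSucc 59) .e .nil) (.cons (.s T7 .x4) (.cons (.ofNat 8) .e .nil) (.cons (.rL .x4 .x2 .x3) (.cons (.ofNat 180) .e .nil) .nil))))))) .nil .nil (.node (.cons (.s .x3 .x4) (.cons (.negSucc 183) .e .nil) .nil) .nil .nil .nil .nil .nil .nil .nil .nil .nil .nil) (.node (.cons (.s .x2 .x4) (.cons (.negSucc 47) .e .nil) .nil) .nil .nil .nil .nil .nil .nil .nil .nil .nil .nil) (.node (.cons (.s .x2 .x3) (.cons (.ofNat 34) .e .nil) .nil) .nil .nil .nil .nil .nil .nil .nil .nil .nil .nil) .nil .nil (.node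 (.cons (.s .x3 .x4) (.cons (.negSucc 7) .e .nil) .nil) .nil .nil .nil .nil .nil .nil .nil .nil .nil .nil) (.node (.cons (.s .x2 .x4) (.cons (.ofNat 96) .e .nil) .nil) .nil .nil .nil .nil .nil .nil .nil .nil .nil .nil) (.node (.cons (.s .x2 .x3) (.cons (.negSucc 63) .e .nil) .nil) .nil .nil .nil .nil .nil .nil .nil .nil .nil .nil)
def C49 : Cert := .node (.cons (.s .x3 .x4) (.cons (.ofNat 528) (.a5 .e) (.cons (.ofNat 864) (.a0 .e) .nil)) (.cons (.s .x0 .x4) (.cons (.negSucc 281) (.a8 .e) (.cons (.negSucc 1065) (.a3 .e) .nil)) (.cons (.s .x0 .x3) (.cons (.negSucc 93) (.a9 .e) (.cons (.negSucc 663) (.a4 .e) .nil)) (.cons (.s T9 .x3) (.cons (.ofNat 168) .e .nil) (.cons (.s T40 .x3) (.cons (.negSucc 191) .e .nil) (.cons (.s T26 .x4) (.cons (.negSucc 111) .e .nil) (.cons (.rL .x4 .x0 .x3) (.cons (.ofNat 122) .e .nil) .nil))))))) (.node (.cons (.s .x3 .x4)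 (.cons (.ofNat 188) .e .nil) .nil) .nil .nil .nil .nil .nil .nil .nil .nil .nil .nil) .nil .nil (.node (.cons (.s .x0 .x4) (.cons (.ofNat 642) .e .nil) .nil) .nil .nil .nil .nil .nil .nil .nil .nil .nil .nil) (.node (.cons (.s .x0 .x3) (.cons (.ofNat 934) .e .nil) .nil) .nil .nil .nil .nil .nil .nil .nil .nil .nil .nil) (.node (.cons (.s .x3 .x4) (.cons (.ofNat 112) .e .nil) .nil) .nil .nil .nil .nil .nil .nil .nil .nil .nil .nil) .nil .nil (.node (.cons (.s .x0 .x4) (.cons (.ofNat 188) .e .nil) .nil) .nil .nil .nil .nil .nil .nil .nil .nil .nil .nil) (.node (.cons (.s .x0 .x3) (.cons (.ofNat 10) .e .nil) .nil) .nil .nil .nil .nil .nil .nil .nil .nil .nil .nil)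
def C50 : Cert := .node (.cons (.s .x2 .x4) (.cons (.ofNat 736) (.a5 .e) (.cons (.ofNat 884) (.a0 .e) .nil)) (.cons (.s .x0 .x4) (.cons (.negSucc 219) (.a7 .e) (.cons (.negSucc 633) (.a2 .e) .nil)) (.cons (.s .x0 .x2) (.cons (.ofNat 55) (.a9 .e) (.cons (.negSucc 316) (.a4 .e) .nil)) (.cons (.s T9 .x2) (.cons (.ofNat 124) .e .nil) (.cons (.s T40 .x2) (.cons (.negSucc 395) .e .nil) (.cons (.s T12 .x4) (.cons (.negSucc 359) .e .nil) (.cons (.rL .x4 .x0 .x2) (.cons (.ofNat 212) .e .nil) .nil))))))) (.node (.cons (.s .x2 .x4) (.cons (.ofNat 148) .e .nil) .nil) .nil .nil .nil .nil .nil .nil .nil .nil .nil .nil) .nil (.node (.cons (.s .x0 .x4) (.cons (.ofNat 412) .e .nil) .nil) .nil .nil .nil .nil .nil .nil .nil .nil .nil .nil) .nil (.node (.cons (.s .x0 .x2) (.cons (.ofNat 146) .e .nil) .nil) .nil .nil .nil .nil .nil .nil .nil .nil .nil .nil) (.node (.cons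 (.s .x2 .x4) (.cons (.ofNat 360) .e .nil) .nil) .nil .nil .nil .nil .nil .nil .nil .nil .nil .nil) .nil (.node (.cons (.s .x0 .x4) (.cons (.ofNat 332) .e .nil) .nil) .nil .nil .nil .nil .nil .nil .nil .nil .nil .nil) .nil (.node (.cons (.s .x0 .x2) (.cons (.ofNat 166) .e .nil) .nil) .nil .nil .nil .nil .nil .nil .nil .nil .nil .nil)
def C51 : Cert := .node (.cons (.s .x2 .x3) (.cons (.ofNat 746) (.a5 .e) (.cons (.ofNat 736) (.a0 .e) .nil)) (.cons (.s .x0 .x3) (.cons (.negSucc 51) (.a7 .e) (.cons (.negSucc 311) (.a2 .e) .nil)) (.cons (.s .x0 .x2) (.cons (.negSucc 15) (.a8 .e) (.cons (.negSucc 432) (.a3 .e) .nil)) (.cons (.s T26 .x2) (.cons (.ofNat 172) .e .nil) (.cons (.s T49 .x2) (.cons (.negSucc 299) .e .nil) (.cons (.s T12 .x3) (.cons (.negSucc 299) .e .nil) (.cons (.rL .x3 .x0 .x2) (.cons (.ofNat 218) .e .nil) .nil))))))) (.node (.cons (.s .x2 .x3)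 (.cons (.ofNat 160) .e .nil) .nil) .nil .nil .nil .nil .nil .nil .nil .nil .nil .nil) .nil (.node (.cons (.s .x0 .x3) (.cons (.ofNat 573) .e .nil) .nil) .nil .nil .nil .nil .nil .nil .nil .nil .nil .nil) (.node (.cons (.s .x0 .x2) (.cons (.ofNat 30) .e .nil) .nil) .nil .nil .nil .nil .nil .nil .nil .nil .nil .nil) .nil (.node (.cons (.s .x2 .x3) (.cons (.ofNat 284) .e .nil) .nil) .nil .nil .nil .nil .nil .nil .nil .nil .nil .nil) .nil (.node (.cons (.s .x0 .x3) (.cons (.ofNat 288) .e .nil) .nil) .nil .nil .nil .nil .nil .nil .nil .nil .nil .nil) (.node (.cons (.s .x0 .x2) (.cons (.ofNat 58) .e .nil) .nil) .nil .nil .nil .nil .nil .nil .nil .nil .nil .nil) .nil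
def C52 : Cert := .node (.cons (.s .x3 .x4) (.cons (.ofNat 164) (.a7 (.a5 .e)) (.cons (.ofNat 826) (.a7 (.a0 .e)) (.cons (.negSucc 469) (.a2 (.a5 .e)) (.cons (.ofNat 148) (.a2 (.a0 .e)) (.cons (.ofNat 14) (.a5 (.a7 .e)) (.cons (.ofNat 442) (.a5 (.a2 .e)) (.cons (.negSucc 23) (.a0 (.a7 .e)) (.cons (.ofNat 1036) (.a0 (.a2 .e)) .nil)))))))) (.cons (.s .x2 .x4) (.cons (.negSucc 267) (.a8 (.a5 .e)) (.cons (.negSucc 266) (.a8 (.a0 .e)) (.cons (.negSucc 806) (.a3 (.a5 .e)) (.cons (.negSucc 1277) (.a3 (.a0 .e)) (.cons (.negSucc 220) (.a5 (.a8 .e)) (.cons (.negSucc 464) (.a5 (.a3 .e)) (.cons (.ofNat 767) (.a0 (.a8 .e)) (.cons (.ofNat 1914) (.a0 (.a3 .e)) .nil)))))))) (.cons (.s .x2 .x3) (.cons (.negSucc 13) (.a9 (.a5 .e)) (.cons (.negSucc 95) (.a9 (.a0 .e)) (.cons (.ofNat 298) (.a4 (.a5 .e)) (.cons (.ofNat 162) (.a4 (.a0 .e)) (.cons (.negSucc 121) (.a5 (.a9 .e))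 (.cons (.negSucc 438) (.a5 (.a4 .e)) (.cons (.ofNat 470) (.a0 (.a9 .e)) (.cons (.ofNat 1274) (.a0 (.a4 .e)) .nil)))))))) (.cons (.s .x0 .x4) (.cons (.ofNat 48) (.a8 (.a7 .e)) (.cons (.negSucc 584) (.a8 (.a2 .e)) (.cons (.ofNat 219) (.a3 (.a7 .e)) (.cons (.ofNat 732) (.a3 (.a2 .e)) (.cons (.ofNat 192) (.a7 (.a8 .e)) (.cons (.ofNat 199) (.a7 (.a3 .e)) (.cons (.ofNat 656) (.a2 (.a8 .e)) (.cons (.ofNat 1836) (.a2 (.a3 .e)) .nil)))))))) (.cons (.s .x0 .x3) (.cons (.negSucc 79) (.a9 (.a7 .e)) (.cons (.negSucc 227) (.a9 (.a2 .e)) (.cons (.negSucc 459) (.a4 (.a7 .e)) (.cons (.ofNat 64) (.a4 (.a2 .e)) (.cons (.ofNat 284) (.a7 (.a9 .e)) (.cons (.ofNat 514) (.a7 (.a4 .e)) (.cons (.ofNat 476) (.a2 (.a9 .e)) (.cons (.ofNat 1299) (.a2 (.a4 .e)) .nil)))))))) (.cons (.s .x0 .x2) (.cons (.negSucc 279) (.a9 (.a8 .e)) (.cons (.negSucc 4) (.a9 (.a3 .e)) (.cons (.negSucc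 406) (.a4 (.a8 .e)) (.cons (.negSucc 119) (.a4 (.a3 .e)) (.cons (.negSucc 124) (.a8 (.a9 .e)) (.cons (.ofNat 225) (.a8 (.a4 .e)) (.cons (.negSucc 183) (.a3 (.a9 .e)) (.cons (.negSucc 56) (.a3 (.a4 .e)) .nil)))))))) (.cons (.s T5 .x3) (.cons (.negSucc 407) (.a5 .e) (.cons (.negSucc 787) (.a0 .e) .nil)) (.cons (.s T55 .x3) (.cons (.negSucc 711) (.a5 .e) (.cons (.negSucc 987) (.a0 .e) .nil)) (.cons (.s T7 .x4) (.cons (.negSucc 527) (.a5 .e) (.cons (.negSucc 1099) (.a0 .e) .nil)) (.cons (.s T9 .x3) (.cons (.negSucc 159) (.a7 .e) (.cons (.negSucc 671) (.a2 .e) .nil)) (.cons (.s T40 .x3) (.cons (.ofNat 224) (.a7 .e) (.cons (.ofNat 402) (.a2 .e) .nil)) (.cons (.s T26 .x4) (.cons (.ofNat 124) (.a7 .e) (.cons (.ofNat 282) (.a2 .e) .nil)) (.cons (.s T9 .x2) (.cons (.ofNat 212) (.a8 .e) (.cons (.negSucc 469) (.a3 .e) .nil)) (.cons (.s T40 .x2) (.cons (.ofNat 222)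 (.a8 .e) (.cons (.ofNat 1154) (.a3 .e) .nil)) (.cons (.s T12 .x4) (.cons (.negSucc 89) (.a8 .e) (.cons (.ofNat 1042) (.a3 .e) .nil)) (.cons (.s T26 .x2) (.cons (.ofNat 182) (.a9 .e) (.cons (.negSucc 337) (.a4 .e) .nil)) (.cons (.s T49 .x2) (.cons (.ofNat 124) (.a9 .e) (.cons (.ofNat 828) (.a4 .e) .nil)) (.cons (.s T12 .x3) (.cons (.negSucc 239) (.a9 .e) (.cons (.ofNat 808) (.a4 .e) .nil)) (.cons (.rL .x4 .x2 .x3) (.cons (.negSucc 89) (.a5 .e) (.cons (.ofNat 88) (.a0 .e) .nil)) (.cons (.rL .x4 .x0 .x3) (.cons (.negSucc 147) (.a7 .e) (.cons (.negSucc 369) (.a2 .e) .nil)) (.cons (.rL .x4 .x0 .x2) (.cons (.negSucc 135) (.a8 .e) (.cons (.negSucc 640) (.a3 .e) .nil)) (.cons (.rL .x3 .x0 .x2) (.cons (.negSucc 30) (.a9 .e) (.cons (.negSucc 462) (.a4 .e) .nil)) (.cons (.s T9 T7) (.cons (.ofNat 68) .e .nil) (.cons (.s T9 T59) (.cons (.negSucc 19) .e .nil) (.cons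 (.s T40 T7) (.cons (.ofNat 4) .e .nil) (.cons (.s T40 T59) (.cons (.ofNat 40) .e .nil) (.cons (.s T26 T5) (.cons (.ofNat 88) .e .nil) (.cons (.s T26 T55) (.cons (.negSucc 35) .e .nil) (.cons (.s T74 .x2) (.cons (.negSucc 47) .e .nil) (.cons (.s T71 .x2) (.cons (.negSucc 35) .e .nil) .nil)))))))))))))))))))))))))))))) C44 .nil C45 C46 C47 C48 .nil C49 C50 C51
def C53 : Cert := .node (.cons (.s .x3 .x4) (.cons (.negSucc 81) (.a6 .e) (.cons (.negSucc 172) (.a1 .e) .nil)) (.cons (.s .x1 .x4) (.cons (.negSucc 40) (.a8 .e) (.cons (.negSucc 971) (.a3 .e) .nil)) (.cons (.s .x1 .x3) (.cons (.negSucc 57) (.a9 .e) (.cons (.negSucc 410) (.a4 .e) .nil)) (.cons (.s T0 .x3) (.cons (.ofNat 75) .e .nil) (.cons (.s T31 .x3) (.cons (.ofNat 44) .e .nil) .nil))))) .nil (.node (.cons (.s .x3 .x4) (.cons (.negSucc 35) .e .nil) .nil) .nil .nil .nil .nil .nil .nil .nil .nil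 .nil .nil) .nil (.node (.cons (.s .x1 .x4) (.cons (.ofNat 88) .e .nil) .nil) .nil .nil .nil .nil .nil .nil .nil .nil .nil .nil) (.node (.cons (.s .x1 .x3) (.cons (.ofNat 198) .e .nil) .nil) .nil .nil .nil .nil .nil .nil .nil .nil .nil .nil) .nil .nil .nil .nil .nil
def C54 : Cert := .node (.cons (.s .x3 .x4) (.cons (.ofNat 356) (.a5 .e) (.cons (.ofNat 242) (.a0 .e) .nil)) (.cons (.s .x0 .x4) (.cons (.negSucc 340) (.a8 .e) (.cons (.negSucc 1363) (.a3 .e) .nil)) (.cons (.s .x0 .x3) (.cons (.negSucc 129) (.a9 .e) (.cons (.negSucc 790) (.a4 .e) .nil)) (.cons (.s T9 .x3) (.cons (.ofNat 6) .e .nil) (.cons (.s T40 .x3) (.cons (.negSucc 67) .e .nil) (.cons (.s T26 .x4) (.cons (.ofNat 192) .e .nil) .nil)))))) (.node (.cons (.s .x3 .x4) (.cons (.ofNat 180) .e .nil) .nil) .nil .nil .nil .nil .nil .nil .nil .nil .nil .nil) .nil .nil (.node (.cons (.s .x0 .x4) (.cons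 (.ofNat 476) .e .nil) .nil) .nil .nil .nil .nil .nil .nil .nil .nil .nil .nil) (.node (.cons (.s .x0 .x3) (.cons (.ofNat 862) .e .nil) .nil) .nil .nil .nil .nil .nil .nil .nil .nil .nil .nil) (.node (.cons (.s .x3 .x4) (.cons (.ofNat 160) .e .nil) .nil) .nil .nil .nil .nil .nil .nil .nil .nil .nil .nil) .nil .nil .nil .nil
def C55 : Cert := .node (.cons (.s .x1 .x4) (.cons (.ofNat 600) (.a5 .e) (.cons (.ofNat 126) (.a0 .e) .nil)) (.cons (.s .x0 .x4) (.cons (.negSucc 153) (.a6 .e) (.cons (.negSucc 1064) (.a1 .e) .nil)) (.cons (.s .x0 .x1) (.cons (.negSucc 167) (.a9 .e) (.cons (.negSucc 705) (.a4 .e) .nil)) (.cons (.s T9 .x1) (.cons (.negSucc 1) .e .nil) (.cons (.s T40 .x1) (.cons (.negSucc 321) .e .nil) (.cons (.s T80 .x4) (.cons (.negSucc 209) .e .nil) .nil)))))) (.node (.cons (.s .x1 .x4) (.cons (.negSucc 181) .e .nil) .nil) .nil .nil .nil .nil .nil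 .nil .nil .nil .nil .nil) (.node (.cons (.s .x0 .x4) (.cons (.ofNat 16) .e .nil) .nil) .nil .nil .nil .nil .nil .nil .nil .nil .nil .nil) .nil .nil (.node (.cons (.s .x0 .x1) (.cons (.negSucc 133) .e .nil) .nil) .nil .nil .nil .nil .nil .nil .nil .nil .nil .nil) (.node (.cons (.s .x1 .x4) (.cons (.negSucc 143) .e .nil) .nil) .nil .nil .nil .nil .nil .nil .nil .nil .nil .nil) (.node (.cons (.s .x0 .x4) (.cons (.negSucc 435) .e .nil) .nil) .nil .nil .nil .nil .nil .nil .nil .nil .nil .nil) .nil .nil .nil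
def C56 : Cert := .node (.cons (.s .x1 .x3) (.cons (.ofNat 472) (.a5 .e) (.cons (.ofNat 352) (.a0 .e) .nil)) (.cons (.s .x0 .x3) (.cons (.negSucc 69) (.a6 .e) (.cons (.negSucc 742) (.a1 .e) .nil)) (.cons (.s .x0 .x1) (.cons (.negSucc 335) (.a8 .e) (.cons (.negSucc 887) (.a3 .e) .nil)) (.cons (.s T26 .x1) (.cons (.ofNat 166) .e .nil) (.cons (.s T49 .x1) (.cons (.negSucc 301) .e .nil) (.cons (.s T80 .x3) (.cons (.negSucc 325) .e .nil) .nil)))))) (.node (.cons (.s .x1 .x3) (.cons (.negSucc 225) .e .nil) .nil) .nil .nil .nil .nil .nil .nil .nil .nil .nil .nil) (.node (.cons (.s .x0 .x3) (.cons (.negSucc 54) .e .nil) .nil) .nil .nil .nil .nil .nil .nil .nil .nil .nil .nil) .nil (.node (.cons (.s .x0 .x1) (.cons (.ofNat 70) .e .nil) .nil) .nil .nil .nil .nil .nil .nil .nil .nil .nil .nil) .nil (.node (.cons (.s .x1 .x3) (.cons (.negSucc 569) .e .nil) .nil)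 .nil .nil .nil .nil .nil .nil .nil .nil .nil .nil) (.node (.cons (.s .x0 .x3) (.cons (.negSucc 1131) .e .nil) .nil) .nil .nil .nil .nil .nil .nil .nil .nil .nil .nil) .nil (.node (.cons (.s .x0 .x1) (.cons (.negSucc 165) .e .nil) .nil) .nil .nil .nil .nil .nil .nil .nil .nil .nil .nil) .nil
def C57 : Cert := .node (.cons (.s .x3 .x4) (.cons (.ofNat 392) (.a6 .e) (.cons (.negSucc 493) (.a1 .e) .nil)) (.cons (.s .x1 .x4) (.cons (.ofNat 267) (.a8 .e) (.cons (.negSucc 1517) (.a3 .e) .nil)) (.cons (.s .x1 .x3) (.cons (.ofNat 178) (.a9 .e) (.cons (.negSucc 482) (.a4 .e) .nil)) (.cons (.s T0 .x3) (.cons (.ofNat 146) .e .nil) (.cons (.s T31 .x3) (.cons (.negSucc 453) .e .nil) (.cons (.s T3 .x4) (.cons (.negSucc 425) .e .nil) (.cons (.rL .x4 .x1 .x3) (.cons (.ofNat 184) .e .nil) .nil))))))) .nil (.node (.cons (.s .x3 .x4) (.cons (.ofNat 30) .e .nil) .nil) .nil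 .nil .nil .nil .nil .nil .nil .nil .nil .nil) .nil (.node (.cons (.s .x1 .x4) (.cons (.ofNat 492) .e .nil) .nil) .nil .nil .nil .nil .nil .nil .nil .nil .nil .nil) (.node (.cons (.s .x1 .x3) (.cons (.ofNat 498) .e .nil) .nil) .nil .nil .nil .nil .nil .nil .nil .nil .nil .nil) .nil (.node (.cons (.s .x3 .x4) (.cons (.ofNat 426) .e .nil) .nil) .nil .nil .nil .nil .nil .nil .nil .nil .nil .nil) .nil (.node (.cons (.s .x1 .x4) (.cons (.ofNat 382) .e .nil) .nil) .nil .nil .nil .nil .nil .nil .nil .nil .nil .nil) (.node (.cons (.s .x1 .x3) (.cons (.ofNat 232) .e .nil) .nil) .nil .nil .nil .nil .nil .nil .nil .nil .nil .nil)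
def C58 : Cert := .node (.cons (.s .x3 .x4) (.cons (.ofNat 416) (.a5 .e) (.cons (.ofNat 188) (.a0 .e) .nil)) (.cons (.s .x0 .x4) (.cons (.ofNat 59) (.a8 .e) (.cons (.negSucc 1377) (.a3 .e) .nil)) (.cons (.s .x0 .x3) (.cons (.ofNat 168) (.a9 .e) (.cons (.negSucc 482) (.a4 .e) .nil)) (.cons (.s T9 .x3) (.cons (.negSucc 171) .e .nil) (.cons (.s T40 .x3) (.cons (.negSucc 289) .e .nil) (.cons (.s T26 .x4) (.cons (.negSucc 297) .e .nil) (.cons (.rL .x4 .x0 .x3) (.cons (.ofNat 6) .e .nil) .nil))))))) (.node (.cons (.s .x3 .x4) (.cons (.ofNat 186) .e .nil) .nil) .nil .nil .nil .nil .nil .nil .nil .nil .nil .nil) .nil .nil (.node (.cons (.s .x0 .x4) (.cons (.ofNat 788) .e .nil) .nil) .nil .nil .nil .nil .nil .nil .nil .nil .nil .nil) (.node (.cons (.s .x0 .x3) (.cons (.ofNat 796) .e .nil) .nil) .nil .nil .nil .nil .nil .nil .nil .nil .nil .nil) (.node (.cons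 (.s .x3 .x4) (.cons (.ofNat 298) .e .nil) .nil) .nil .nil .nil .nil .nil .nil .nil .nil .nil .nil) .nil .nil (.node (.cons (.s .x0 .x4) (.cons (.ofNat 186) .e .nil) .nil) .nil .nil .nil .nil .nil .nil .nil .nil .nil .nil) (.node (.cons (.s .x0 .x3) (.cons (.ofNat 284) .e .nil) .nil) .nil .nil .nil .nil .nil .nil .nil .nil .nil .nil)
def C59 : Cert := .node (.cons (.s .x1 .x4) (.cons (.ofNat 452) (.a5 .e) (.cons (.negSucc 375) (.a0 .e) .nil)) (.cons (.s .x0 .x4) (.cons (.ofNat 40) (.a6 .e) (.cons (.negSucc 797) (.a1 .e) .nil)) (.cons (.s .x0 .x1) (.cons (.negSucc 158) (.a9 .e) (.cons (.negSucc 339) (.a4 .e) .nil)) (.cons (.s T9 .x1) (.cons (.ofNat 368) .e .nil) (.cons (.s T40 .x1) (.cons (.negSucc 437) .e .nil) (.cons (.s T80 .x4) (.cons (.negSucc 473) .e .nil) (.cons (.rL .x4 .x0 .x1) (.cons (.ofNat 352) .e .nil) .nil))))))) (.node (.cons (.s .x1 .x4)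 (.cons (.ofNat 394) .e .nil) .nil) .nil .nil .nil .nil .nil .nil .nil .nil .nil .nil) (.node (.cons (.s .x0 .x4) (.cons (.ofNat 642) .e .nil) .nil) .nil .nil .nil .nil .nil .nil .nil .nil .nil .nil) .nil .nil (.node (.cons (.s .x0 .x1) (.cons (.ofNat 264) .e .nil) .nil) .nil .nil .nil .nil .nil .nil .nil .nil .nil .nil) (.node (.cons (.s .x1 .x4) (.cons (.ofNat 474) .e .nil) .nil) .nil .nil .nil .nil .nil .nil .nil .nil .nil .nil) (.node (.cons (.s .x0 .x4) (.cons (.ofNat 430) .e .nil) .nil) .nil .nil .nil .nil .nil .nil .nil .nil .nil .nil) .nil .nil (.node (.cons (.s .x0 .x1) (.cons (.ofNat 104) .e .nil) .nil) .nil .nil .nil .nil .nil .nil .nil .nil .nil .nil)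
def C60 : Cert := .node (.cons (.s .x1 .x3) (.cons (.ofNat 583) (.a5 .e) (.cons (.ofNat 250) (.a0 .e) .nil)) (.cons (.s .x0 .x3) (.cons (.ofNat 261) (.a6 .e) (.cons (.negSucc 296) (.a1 .e) .nil)) (.cons (.s .x0 .x1) (.cons (.ofNat 169) (.a8 .e) (.cons (.negSucc 224) (.a3 .e) .nil)) (.cons (.s T26 .x1) (.cons (.negSucc 55) .e .nil) (.cons (.s T49 .x1) (.cons (.negSucc 159) .e .nil) (.cons (.s T80 .x3) (.cons (.negSucc 135) .e .nil) (.cons (.rL .x3 .x0 .x1) (.cons (.ofNat 88) .e .nil) .nil))))))) (.node (.cons (.s .x1 .x3) (.cons (.ofNat 80) .e .nil) .nil) .nil .nil .nil .nil .nil .nil .nil .nil .nil .nil) (.node (.cons (.s .x0 .x3) (.cons (.ofNat 232) .e .nil) .nil) .nil .nil .nil .nil .nil .nil .nil .nil .nil .nil) .nil (.node (.cons (.s .x0 .x1) (.cons (.negSucc 137) .e .nil) .nil) .nil .nil .nil .nil .nil .nil .nil .nil .nil .nil) .nil (.node (.cons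 (.s .x1 .x3) (.cons (.ofNat 152) .e .nil) .nil) .nil .nil .nil .nil .nil .nil .nil .nil .nil .nil) (.node (.cons (.s .x0 .x3) (.cons (.ofNat 136) .e .nil) .nil) .nil .nil .nil .nil .nil .nil .nil .nil .nil .nil) .nil (.node (.cons (.s .x0 .x1) (.cons (.ofNat 12) .e .nil) .nil) .nil .nil .nil .nil .nil .nil .nil .nil .nil .nil) .nil
def C61 : Cert := .node (.cons (.s .x3 .x4) (.cons (.ofNat 12) (.a6 (.a5 .e)) (.cons (.negSucc 259) (.a6 (.a0 .e)) (.cons (.negSucc 217) (.a1 (.a5 .e)) (.cons (.negSucc 585) (.a1 (.a0 .e)) (.cons (.ofNat 270) (.a5 (.a6 .e)) (.cons (.negSucc 178) (.a5 (.a1 .e)) (.cons (.ofNat 138) (.a0 (.a6 .e)) (.cons (.ofNat 576) (.a0 (.a1 .e)) .nil)))))))) (.cons (.s .x1 .x4) (.cons (.negSucc 255) (.a8 (.a5 .e)) (.cons (.ofNat 162) (.a8 (.a0 .e)) (.cons (.negSucc 717) (.a3 (.a5 .e)) (.cons (.negSucc 167) (.a3 (.a0 .e)) (.cons (.ofNat 72)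 (.a5 (.a8 .e)) (.cons (.negSucc 253) (.a5 (.a3 .e)) (.cons (.ofNat 287) (.a0 (.a8 .e)) (.cons (.ofNat 2464) (.a0 (.a3 .e)) .nil)))))))) (.cons (.s .x1 .x3) (.cons (.negSucc 74) (.a9 (.a5 .e)) (.cons (.negSucc 25) (.a9 (.a0 .e)) (.cons (.ofNat 290) (.a4 (.a5 .e)) (.cons (.ofNat 256) (.a4 (.a0 .e)) (.cons (.ofNat 74) (.a5 (.a9 .e)) (.cons (.negSucc 277) (.a5 (.a4 .e)) (.cons (.ofNat 262) (.a0 (.a9 .e)) (.cons (.ofNat 1007) (.a0 (.a4 .e)) .nil)))))))) (.cons (.s .x0 .x4) (.cons (.ofNat 268) (.a8 (.a6 .e)) (.cons (.negSucc 59) (.a8 (.a1 .e)) (.cons (.ofNat 122) (.a3 (.a6 .e)) (.cons (.ofNat 725) (.a3 (.a1 .e)) (.cons (.ofNat 344) (.a6 (.a8 .e)) (.cons (.negSucc 27) (.a6 (.a3 .e)) (.cons (.ofNat 163) (.a1 (.a8 .e)) (.cons (.ofNat 1682) (.a1 (.a3 .e)) .nil)))))))) (.cons (.s .x0 .x3) (.cons (.negSucc 124) (.a9 (.a6 .e)) (.cons (.negSucc 258) (.a9 (.a1 .e))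 (.cons (.negSucc 7) (.a4 (.a6 .e)) (.cons (.ofNat 247) (.a4 (.a1 .e)) (.cons (.ofNat 280) (.a6 (.a9 .e)) (.cons (.ofNat 346) (.a6 (.a4 .e)) (.cons (.ofNat 352) (.a1 (.a9 .e)) (.cons (.ofNat 935) (.a1 (.a4 .e)) .nil)))))))) (.cons (.s .x0 .x1) (.cons (.negSucc 37) (.a9 (.a8 .e)) (.cons (.ofNat 174) (.a9 (.a3 .e)) (.cons (.negSucc 381) (.a4 (.a8 .e)) (.cons (.ofNat 417) (.a4 (.a3 .e)) (.cons (.ofNat 225) (.a8 (.a9 .e)) (.cons (.ofNat 612) (.a8 (.a4 .e)) (.cons (.ofNat 30) (.a3 (.a9 .e)) (.cons (.ofNat 282) (.a3 (.a4 .e)) .nil)))))))) (.cons (.s T0 .x3) (.cons (.negSucc 155) (.a5 .e) (.cons (.negSucc 406) (.a0 .e) .nil)) (.cons (.s T31 .x3) (.cons (.negSucc 531) (.a5 .e) (.cons (.negSucc 81) (.a0 .e) .nil)) (.cons (.s T3 .x4) (.cons (.negSucc 415) (.a5 .e) (.cons (.negSucc 217) (.a0 .e) .nil)) (.cons (.s T9 .x3) (.cons (.negSucc 125) (.a6 .e) (.cons (.negSucc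 575) (.a1 .e) .nil)) (.cons (.s T40 .x3) (.cons (.negSucc 163) (.a6 .e) (.cons (.ofNat 388) (.a1 .e) .nil)) (.cons (.s T26 .x4) (.cons (.negSucc 391) (.a6 .e) (.cons (.ofNat 244) (.a1 .e) .nil)) (.cons (.s T9 .x1) (.cons (.ofNat 101) (.a8 .e) (.cons (.negSucc 953) (.a3 .e) .nil)) (.cons (.s T40 .x1) (.cons (.negSucc 54) (.a8 .e) (.cons (.ofNat 1128) (.a3 .e) .nil)) (.cons (.s T80 .x4) (.cons (.negSucc 294) (.a8 .e) (.cons (.ofNat 1064) (.a3 .e) .nil)) (.cons (.s T26 .x1) (.cons (.ofNat 18) (.a9 .e) (.cons (.negSucc 162) (.a4 .e) .nil)) (.cons (.s T49 .x1) (.cons (.ofNat 140) (.a9 .e) (.cons (.ofNat 503) (.a4 .e) .nil)) (.cons (.s T80 .x3) (.cons (.ofNat 64) (.a9 .e) (.cons (.ofNat 435) (.a4 .e) .nil)) (.cons (.rL .x4 .x1 .x3) (.cons (.negSucc 74) (.a5 .e) (.cons (.negSucc 183) (.a0 .e) .nil)) (.cons (.rL .x4 .x0 .x3) (.cons (.negSucc 84) (.a6 .e) (.cons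 (.negSucc 318) (.a1 .e) .nil)) (.cons (.rL .x4 .x0 .x1) (.cons (.ofNat 54) (.a8 .e) (.cons (.negSucc 814) (.a3 .e) .nil)) (.cons (.rL .x3 .x0 .x1) (.cons (.ofNat 141) (.a9 .e) (.cons (.negSucc 138) (.a4 .e) .nil)) (.cons (.s T9 T3) (.cons (.ofNat 202) .e .nil) (.cons (.s T9 T35) (.cons (.ofNat 74) .e .nil) (.cons (.s T40 T3) (.cons (.ofNat 104) .e .nil) (.cons (.s T40 T35) (.cons (.ofNat 8) .e .nil) (.cons (.s T26 T0) (.cons (.ofNat 104) .e .nil) (.cons (.s T26 T31) (.cons (.ofNat 72) .e .nil) (.cons (.s T74 .x1) (.cons (.negSucc 95) .e .nil) (.cons (.s T71 .x1) (.cons (.negSucc 113) .e .nil) (.cons (.s T67 .x3) (.cons (.negSucc 203) .e .nil) (.cons (.lR T0 .x3 .x0) (.cons (.negSucc 140) .e .nil) .nil)))))))))))))))))))))))))))))))) C53 C54 .nil C55 C56 C57 C58 .nil C59 C60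
def C62 : Cert := .node (.cons (.s .x2 .x4) (.cons (.negSucc 117) (.a6 .e) (.cons (.negSucc 408) (.a1 .e) .nil)) (.cons (.s .x1 .x4) (.cons (.negSucc 253) (.a7 .e) (.cons (.negSucc 895) (.a2 .e) .nil)) (.cons (.s .x1 .x2) (.cons (.negSucc 53) (.a9 .e) (.cons (.ofNat 213) (.a4 .e) .nil)) (.cons (.s T0 .x2) (.cons (.ofNat 35) .e .nil) (.cons (.s T31 .x2) (.cons (.ofNat 32) .e .nil) .nil))))) .nil .nil (.node (.cons (.s .x1 .x4) (.cons (.negSucc 31) .e .nil) .nil) .nil .nil .nil .nil .nil .nil .nil .nil .nil .nil) .nil (.node (.cons (.s .x1 .x2) (.cons (.ofNat 120) .e .nil) .nil) .nil .nil .nil .nil .nil .nil .nil .nil .nil .nil) .nil .nil .nil .nil .nil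
def C63 : Cert := .node (.cons (.s .x2 .x4) (.cons (.ofNat 480) (.a5 .e) (.cons (.negSucc 65) (.a0 .e) .nil)) (.cons (.s .x0 .x4) (.cons (.negSucc 605) (.a7 .e) (.cons (.negSucc 1279) (.a2 .e) .nil)) (.cons (.s .x0 .x2) (.cons (.ofNat 134) (.a9 .e) (.cons (.ofNat 17) (.a4 .e) .nil)) (.cons (.s T9 .x2) (.cons (.negSucc 125) .e .nil) (.cons (.s T40 .x2) (.cons (.negSucc 151) .e .nil) (.cons (.s T12 .x4) (.cons (.ofNat 160) .e .nil) .nil)))))) (.node (.cons (.s .x2 .x4) (.cons (.ofNat 228) .e .nil) .nil) .nil .nil .nil .nil .nil .nil .nil .nil .nil .nil) .nil (.node (.cons (.s .x0 .x4) (.cons (.ofNat 136) .e .nil) .nil) .nil .nil .nil .nil .nil .nil .nil .nil .nil .nil) .nil (.node (.cons (.s .x0 .x2) (.cons (.ofNat 372) .e .nil) .nil) .nil .nil .nil .nil .nil .nil .nil .nil .nil .nil) (.node (.cons (.s .x2 .x4) (.cons (.ofNat 236) .e .nil) .nil) .nil .nil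 .nil .nil .nil .nil .nil .nil .nil .nil) .nil .nil .nil .nil
def C64 : Cert := .node (.cons (.s .x1 .x4) (.cons (.ofNat 600) (.a5 .e) (.cons (.negSucc 57) (.a0 .e) .nil)) (.cons (.s .x0 .x4) (.cons (.negSucc 217) (.a6 .e) (.cons (.negSucc 1156) (.a1 .e) .nil)) (.cons (.s .x0 .x1) (.cons (.negSucc 11) (.a9 .e) (.cons (.negSucc 157) (.a4 .e) .nil)) (.cons (.s T9 .x1) (.cons (.negSucc 89) .e .nil) (.cons (.s T40 .x1) (.cons (.negSucc 281) .e .nil) (.cons (.s T80 .x4) (.cons (.negSucc 33) .e .nil) .nil)))))) (.node (.cons (.s .x1 .x4) (.cons (.ofNat 98) .e .nil) .nil) .nil .nil .nil .nil .nil .nil .nil .nil .nil .nil) (.node (.cons (.s .x0 .x4) (.cons (.ofNat 134) .e .nil) .nil) .nil .nil .nil .nil .nil .nil .nil .nil .nil .nil) .nil .nil (.node (.cons (.s .x0 .x1) (.cons (.negSucc 279) .e .nil) .nil) .nil .nil .nil .nil .nil .nil .nil .nil .nil .nil) (.node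 (.cons (.s .x1 .x4) (.cons (.ofNat 344) .e .nil) .nil) .nil .nil .nil .nil .nil .nil .nil .nil .nil .nil) (.node (.cons (.s .x0 .x4) (.cons (.ofNat 102) .e .nil) .nil) .nil .nil .nil .nil .nil .nil .nil .nil .nil .nil) .nil .nil .nil
def C65 : Cert := .node (.cons (.s .x1 .x2) (.cons (.ofNat 484) (.a5 .e) (.cons (.ofNat 734) (.a0 .e) .nil)) (.cons (.s .x0 .x2) (.cons (.ofNat 352) (.a6 .e) (.cons (.ofNat 180) (.a1 .e) .nil)) (.cons (.s .x0 .x1) (.cons (.negSucc 533) (.a7 .e) (.cons (.negSucc 159) (.a2 .e) .nil)) (.cons (.s T12 .x1) (.cons (.ofNat 370) .e .nil) (.cons (.s T81 .x1) (.cons (.ofNat 14) .e .nil) (.cons (.s T80 .x2) (.cons (.negSucc 137) .e .nil) .nil)))))) (.node (.cons (.s .x1 .x2) (.cons (.negSucc 25) .e .nil) .nil) .nil .nil .nil .nil .nil .nil .nil .nil .nil .nil) (.node (.cons (.s .x0 .x2) (.cons (.negSucc 79) .e .nil) .nil) .nil .nil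 .nil .nil .nil .nil .nil .nil .nil .nil) (.node (.cons (.s .x0 .x1) (.cons (.negSucc 17) .e .nil) .nil) .nil .nil .nil .nil .nil .nil .nil .nil .nil .nil) .nil .nil (.node (.cons (.s .x1 .x2) (.cons (.negSucc 615) .e .nil) .nil) .nil .nil .nil .nil .nil .nil .nil .nil .nil .nil) (.node (.cons (.s .x0 .x2) (.cons (.negSucc 1035) .e .nil) .nil) .nil .nil .nil .nil .nil .nil .nil .nil .nil .nil) (.node (.cons (.s .x0 .x1) (.cons (.negSucc 355) .e .nil) .nil) .nil .nil .nil .nil .nil .nil .nil .nil .nil .nil) .nil .nil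
def C66 : Cert := .node (.cons (.s .x2 .x4) (.cons (.ofNat 214) (.a6 .e) (.cons (.negSucc 1096) (.a1 .e) .nil)) (.cons (.s .x1 .x4) (.cons (.ofNat 150) (.a7 .e) (.cons (.negSucc 1725) (.a2 .e) .nil)) (.cons (.s .x1 .x2) (.cons (.ofNat 108) (.a9 .e) (.cons (.ofNat 141) (.a4 .e) .nil)) (.cons (.s T0 .x2) (.cons (.ofNat 346) .e .nil) (.cons (.s T31 .x2) (.cons (.negSucc 737) .e .nil) (.cons (.s T16 .x4) (.cons (.negSucc 777) .e .nil) (.cons (.rL .x4 .x1 .x2) (.cons (.ofNat 382) .e .nil) .nil))))))) .nil (.node (.cons (.s .x2 .x4) (.cons (.ofNat 234) .e .nil) .nil) .nil .nil .nil .nil .nil .nil .nil .nil .nil .nil) (.node (.cons (.s .x1 .x4) (.cons (.ofNat 428) .e .nil) .nil) .nil .nil .nil .nil .nil .nil .nil .nil .nil .nil) .nil (.node (.cons (.s .x1 .x2) (.cons (.ofNat 494) .e .nil) .nil) .nil .nil .nil .nil .nil .nil .nil .nil .nil .nil) .nil (.node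 (.cons (.s .x2 .x4) (.cons (.ofNat 778) .e .nil) .nil) .nil .nil .nil .nil .nil .nil .nil .nil .nil .nil) (.node (.cons (.s .x1 .x4) (.cons (.ofNat 630) .e .nil) .nil) .nil .nil .nil .nil .nil .nil .nil .nil .nil .nil) .nil (.node (.cons (.s .x1 .x2) (.cons (.ofNat 322) .e .nil) .nil) .nil .nil .nil .nil .nil .nil .nil .nil .nil .nil)
def C67 : Cert := .node (.cons (.s .x2 .x4) (.cons (.ofNat 500) (.a5 .e) (.cons (.negSucc 613) (.a0 .e) .nil)) (.cons (.s .x0 .x4) (.cons (.negSucc 125) (.a7 .e) (.cons (.negSucc 1481) (.a2 .e) .nil)) (.cons (.s .x0 .x2) (.cons (.ofNat 104) (.a9 .e) (.cons (.ofNat 93) (.a4 .e) .nil)) (.cons (.s T9 .x2) (.cons (.ofNat 168) .e .nil) (.cons (.s T40 .x2) (.cons (.negSucc 517) .e .nil) (.cons (.s T12 .x4) (.cons (.negSucc 473) .e .nil) (.cons (.rL .x4 .x0 .x2) (.cons (.ofNat 210) .e .nil) .nil))))))) (.node (.cons (.s .x2 .x4)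 (.cons (.ofNat 310) .e .nil) .nil) .nil .nil .nil .nil .nil .nil .nil .nil .nil .nil) .nil (.node (.cons (.s .x0 .x4) (.cons (.ofNat 634) .e .nil) .nil) .nil .nil .nil .nil .nil .nil .nil .nil .nil .nil) .nil (.node (.cons (.s .x0 .x2) (.cons (.ofNat 610) .e .nil) .nil) .nil .nil .nil .nil .nil .nil .nil .nil .nil .nil) (.node (.cons (.s .x2 .x4) (.cons (.ofNat 474) .e .nil) .nil) .nil .nil .nil .nil .nil .nil .nil .nil .nil .nil) .nil (.node (.cons (.s .x0 .x4) (.cons (.ofNat 370) .e .nil) .nil) .nil .nil .nil .nil .nil .nil .nil .nil .nil .nil) .nil (.node (.cons (.s .x0 .x2) (.cons (.ofNat 284) .e .nil) .nil) .nil .nil .nil .nil .nil .nil .nil .nil .nil .nil)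
def C68 : Cert := .node (.cons (.s .x1 .x4) (.cons (.ofNat 440) (.a5 .e) (.cons (.negSucc 917) (.a0 .e) .nil)) (.cons (.s .x0 .x4) (.cons (.negSucc 181) (.a6 .e) (.cons (.negSucc 1228) (.a1 .e) .nil)) (.cons (.s .x0 .x1) (.cons (.negSucc 236) (.a9 .e) (.cons (.negSucc 261) (.a4 .e) .nil)) (.cons (.s T9 .x1) (.cons (.ofNat 472) .e .nil) (.cons (.s T40 .x1) (.cons (.negSucc 525) .e .nil) (.cons (.s T80 .x4) (.cons (.negSucc 465) .e .nil) (.cons (.rL .x4 .x0 .x1) (.cons (.ofNat 358) .e .nil) .nil))))))) (.node (.cons (.s .x1 .x4) (.cons (.ofNat 510) .e .nil) .nil) .nil .nil .nil .nil .nil .nil .nil .nil .nil .nil) (.node (.cons (.s .x0 .x4) (.cons (.ofNat 670) .e .nil) .nil) .nil .nil .nil .nil .nil .nil .nil .nil .nil .nil) .nil .nil (.node (.cons (.s .x0 .x1) (.cons (.ofNat 650) .e .nil) .nil) .nil .nil .nil .nil .nil .nil .nil .nil .nil .nil) (.node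 (.cons (.s .x1 .x4) (.cons (.ofNat 466) .e .nil) .nil) .nil .nil .nil .nil .nil .nil .nil .nil .nil .nil) (.node (.cons (.s .x0 .x4) (.cons (.ofNat 534) .e .nil) .nil) .nil .nil .nil .nil .nil .nil .nil .nil .nil .nil) .nil .nil (.node (.cons (.s .x0 .x1) (.cons (.ofNat 108) .e .nil) .nil) .nil .nil .nil .nil .nil .nil .nil .nil .nil .nil)
def C69 : Cert := .node (.cons (.s .x1 .x2) (.cons (.ofNat 277) (.a5 .e) (.cons (.negSucc 99) (.a0 .e) .nil)) (.cons (.s .x0 .x2) (.cons (.ofNat 15) (.a6 .e) (.cons (.negSucc 607) (.a1 .e) .nil)) (.cons (.s .x0 .x1) (.cons (.ofNat 6) (.a7 .e) (.cons (.negSucc 279) (.a2 .e) .nil)) (.cons (.s T12 .x1) (.cons (.negSucc 235) .e .nil) (.cons (.s T81 .x1) (.cons (.ofNat 4) .e .nil) (.cons (.s T80 .x2) (.cons (.ofNat 28) .e .nil) (.cons (.rL .x2 .x0 .x1) (.cons (.negSucc 65) .e .nil) .nil))))))) (.node (.cons (.s .x1 .x2)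 (.cons (.negSucc 35) .e .nil) .nil) .nil .nil .nil .nil .nil .nil .nil .nil .nil .nil) (.node (.cons (.s .x0 .x2) (.cons (.ofNat 144) .e .nil) .nil) .nil .nil .nil .nil .nil .nil .nil .nil .nil .nil) (.node (.cons (.s .x0 .x1) (.cons (.ofNat 158) .e .nil) .nil) .nil .nil .nil .nil .nil .nil .nil .nil .nil .nil) .nil .nil (.node (.cons (.s .x1 .x2) (.cons (.negSucc 19) .e .nil) .nil) .nil .nil .nil .nil .nil .nil .nil .nil .nil .nil) (.node (.cons (.s .x0 .x2) (.cons (.negSucc 3) .e .nil) .nil) .nil .nil .nil .nil .nil .nil .nil .nil .nil .nil) (.node (.cons (.s .x0 .x1) (.cons (.ofNat 38) .e .nil) .nil) .nil .nil .nil .nil .nil .nil .nil .nil .nil .nil) .nil .nil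
def C70 : Cert := .node (.cons (.s .x2 .x4) (.cons (.negSucc 957) (.a6 (.a0 .e)) (.cons (.negSucc 393) (.a1 (.a5 .e)) (.cons (.negSucc 1107) (.a1 (.a0 .e)) (.cons (.negSucc 909) (.a5 (.a1 .e)) (.cons (.ofNat 364) (.a0 (.a6 .e)) (.cons (.ofNat 241) (.a0 (.a1 .e)) .nil)))))) (.cons (.s .x1 .x4) (.cons (.negSucc 19) (.a7 (.a5 .e)) (.cons (.negSucc 17) (.a7 (.a0 .e)) (.cons (.negSucc 773) (.a2 (.a5 .e)) (.cons (.ofNat 164) (.a2 (.a0 .e)) (.cons (.ofNat 108) (.a5 (.a7 .e)) (.cons (.negSucc 197) (.a5 (.a2 .e)) (.cons (.negSucc 7) (.a0 (.a7 .e)) (.cons (.ofNat 1394) (.a0 (.a2 .e)) .nil)))))))) (.cons (.s .x1 .x2) (.cons (.negSucc 672) (.a9 (.a5 .e)) (.cons (.negSucc 1161) (.a9 (.a0 .e)) (.cons (.ofNat 61) (.a4 (.a5 .e)) (.cons (.ofNat 18) (.a4 (.a0 .e)) (.cons (.ofNat 184) (.a5 (.a9 .e)) (.cons (.negSucc 333) (.a5 (.a4 .e)) (.cons (.negSucc 3) (.a0 (.a9 .e))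 (.cons (.negSucc 715) (.a0 (.a4 .e)) .nil)))))))) (.cons (.s .x0 .x4) (.cons (.ofNat 288) (.a7 (.a6 .e)) (.cons (.ofNat 162) (.a7 (.a1 .e)) (.cons (.ofNat 164) (.a2 (.a6 .e)) (.cons (.ofNat 1033) (.a2 (.a1 .e)) (.cons (.ofNat 380) (.a6 (.a7 .e)) (.cons (.negSucc 197) (.a6 (.a2 .e)) (.cons (.ofNat 184) (.a1 (.a7 .e)) (.cons (.ofNat 1166) (.a1 (.a2 .e)) .nil)))))))) (.cons (.s .x0 .x2) (.cons (.negSucc 774) (.a9 (.a6 .e)) (.cons (.negSucc 833) (.a9 (.a1 .e)) (.cons (.negSucc 507) (.a4 (.a6 .e)) (.cons (.ofNat 262) (.a4 (.a1 .e)) (.cons (.ofNat 356) (.a6 (.a9 .e)) (.cons (.ofNat 469) (.a6 (.a4 .e)) (.cons (.ofNat 196) (.a1 (.a9 .e)) (.cons (.ofNat 293) (.a1 (.a4 .e)) .nil)))))))) (.cons (.s .x0 .x1) (.cons (.negSucc 251) (.a9 (.a7 .e)) (.cons (.negSucc 574) (.a9 (.a2 .e)) (.cons (.negSucc 450) (.a4 (.a7 .e)) (.cons (.ofNat 286) (.a4 (.a2 .e)) (.cons (.ofNat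 217) (.a7 (.a9 .e)) (.cons (.ofNat 462) (.a7 (.a4 .e)) (.cons (.ofNat 250) (.a2 (.a9 .e)) (.cons (.ofNat 242) (.a2 (.a4 .e)) .nil)))))))) (.cons (.s T0 .x2) (.cons (.ofNat 576) (.a5 .e) (.cons (.ofNat 355) (.a0 .e) .nil)) (.cons (.s T31 .x2) (.cons (.negSucc 519) (.a5 .e) (.cons (.ofNat 360) (.a0 .e) .nil)) (.cons (.s T16 .x4) (.cons (.negSucc 499) (.a5 .e) (.cons (.ofNat 396) (.a0 .e) .nil)) (.cons (.s T9 .x2) (.cons (.ofNat 156) (.a6 .e) (.cons (.negSucc 84) (.a1 .e) .nil)) (.cons (.s T40 .x2) (.cons (.ofNat 34) (.a6 .e) (.cons (.ofNat 815) (.a1 .e) .nil)) (.cons (.s T12 .x4) (.cons (.negSucc 213) (.a6 .e) (.cons (.ofNat 735) (.a1 .e) .nil)) (.cons (.s T9 .x1) (.cons (.ofNat 268) (.a7 .e) (.cons (.negSucc 687) (.a2 .e) .nil)) (.cons (.s T40 .x1) (.cons (.ofNat 122) (.a7 .e) (.cons (.ofNat 996) (.a2 .e) .nil)) (.cons (.s T80 .x4) (.cons (.negSucc 109)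 (.a7 .e) (.cons (.ofNat 988) (.a2 .e) .nil)) (.cons (.s T12 .x1) (.cons (.ofNat 134) (.a9 .e) (.cons (.ofNat 681) (.a4 .e) .nil)) (.cons (.s T81 .x1) (.cons (.ofNat 160) (.a9 .e) (.cons (.negSucc 212) (.a4 .e) .nil)) (.cons (.s T80 .x2) (.cons (.ofNat 304) (.a9 .e) (.cons (.negSucc 96) (.a4 .e) .nil)) (.cons (.rL .x4 .x1 .x2) (.cons (.ofNat 219) (.a5 .e) (.cons (.negSucc 131) (.a0 .e) .nil)) (.cons (.rL .x4 .x0 .x2) (.cons (.negSucc 108) (.a6 .e) (.cons (.negSucc 314) (.a1 .e) .nil)) (.cons (.rL .x4 .x0 .x1) (.cons (.ofNat 42) (.a7 .e) (.cons (.negSucc 707) (.a2 .e) .nil)) (.cons (.rL .x2 .x0 .x1) (.cons (.ofNat 185) (.a9 .e) (.cons (.ofNat 403) (.a4 .e) .nil)) (.cons (.s T9 T16) (.cons (.ofNat 110) .e .nil) (.cons (.s T9 T79) (.cons (.ofNat 70) .e .nil) (.cons (.s T40 T16) (.cons (.ofNat 148) .e .nil) (.cons (.s T40 T79) (.cons (.ofNat 16) .e .nil)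 (.cons (.s T12 T0) (.cons (.ofNat 16) .e .nil) (.cons (.s T12 T31) (.cons (.ofNat 108) .e .nil) (.cons (.s T70 .x1) (.cons (.negSucc 203) .e .nil) (.cons (.s T68 .x1) (.cons (.negSucc 221) .e .nil) (.cons (.s T67 .x2) (.cons (.negSucc 359) .e .nil) (.cons (.lR T0 .x2 .x0) (.cons (.negSucc 140) .e .nil) (.cons (.lR T16 .x4 .x0) (.cons (.ofNat 60) .e .nil) .nil))))))))))))))))))))))))))))))))) C62 C63 C64 .nil C65 C66 C67 C68 .nil C69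
def C71 : Cert := .node (.cons (.s .x2 .x3) (.cons (.negSucc 341) (.a6 .e) (.cons (.negSucc 482) (.a1 .e) .nil)) (.cons (.s .x1 .x3) (.cons (.negSucc 205) (.a7 .e) (.cons (.negSucc 301) (.a2 .e) .nil)) (.cons (.s .x1 .x2) (.cons (.negSucc 146) (.a8 .e) (.cons (.ofNat 192) (.a3 .e) .nil)) (.cons (.s T3 .x2) (.cons (.ofNat 7) .e .nil) .nil)))) .nil .nil (.node (.cons (.s .x1 .x3) (.cons (.ofNat 32) .e .nil) .nil) .nil .nil .nil .nil .nil .nil .nil .nil .nil .nil) (.node (.cons (.s .x1 .x2) (.cons (.ofNat 56) .e .nil) .nil) .nil .nil .nil .nil .nil .nil .nil .nil .nil .nil) .nil .nil .nil .nil .nil .nil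
def C72 : Cert := .node (.cons (.s .x2 .x3) (.cons (.ofNat 28) (.a5 .e) (.cons (.negSucc 525) (.a0 .e) .nil)) (.cons (.s .x0 .x3) (.cons (.negSucc 313) (.a7 .e) (.cons (.negSucc 573) (.a2 .e) .nil)) (.cons (.s .x0 .x2) (.cons (.ofNat 13) (.a8 .e) (.cons (.ofNat 12) (.a3 .e) .nil)) (.cons (.s T26 .x2) (.cons (.ofNat 34) .e .nil) (.cons (.s T49 .x2) (.cons (.negSucc 143) .e .nil) (.cons (.s T12 .x3) (.cons (.ofNat 40) .e .nil) .nil)))))) (.node (.cons (.s .x2 .x3) (.cons (.ofNat 276) .e .nil) .nil) .nil .nil .nil .nil .nil .nil .nil .nil .nil .nil) .nil (.node (.cons (.s .x0 .x3) (.cons (.ofNat 212) .e .nil) .nil) .nil .nil .nil .nil .nil .nil .nil .nil .nil .nil) (.node (.cons (.s .x0 .x2) (.cons (.negSucc 27) .e .nil) .nil) .nil .nil .nil .nil .nil .nil .nil .nil .nil .nil) .nil (.node (.cons (.s .x2 .x3) (.cons (.ofNat 304) .e .nil) .nil) .nil .nil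 .nil .nil .nil .nil .nil .nil .nil .nil) .nil .nil .nil .nil
def C73 : Cert := .node (.cons (.s .x1 .x3) (.cons (.negSucc 11) (.a5 .e) (.cons (.negSucc 337) (.a0 .e) .nil)) (.cons (.s .x0 .x3) (.cons (.negSucc 321) (.a6 .e) (.cons (.negSucc 758) (.a1 .e) .nil)) (.cons (.s .x0 .x1) (.cons (.negSucc 179) (.a8 .e) (.cons (.negSucc 205) (.a3 .e) .nil)) (.cons (.s T26 .x1) (.cons (.ofNat 94) .e .nil) (.cons (.s T49 .x1) (.cons (.negSucc 129) .e .nil) (.cons (.s T80 .x3) (.cons (.negSucc 101) .e .nil) .nil)))))) (.node (.cons (.s .x1 .x3) (.cons (.ofNat 58) .e .nil) .nil) .nil .nil .nil .nil .nil .nil .nil .nil .nil .nil) (.node (.cons (.s .x0 .x3) (.cons (.ofNat 94) .e .nil) .nil) .nil .nil .nil .nil .nil .nil .nil .nil .nil .nil) .nil (.node (.cons (.s .x0 .x1) (.cons (.negSucc 19) .e .nil) .nil) .nil .nil .nil .nil .nil .nil .nil .nil .nil .nil) .nil (.node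 (.cons (.s .x1 .x3) (.cons (.ofNat 296) .e .nil) .nil) .nil .nil .nil .nil .nil .nil .nil .nil .nil .nil) (.node (.cons (.s .x0 .x3) (.cons (.ofNat 73) .e .nil) .nil) .nil .nil .nil .nil .nil .nil .nil .nil .nil .nil) .nil .nil .nil
def C74 : Cert := .node (.cons (.s .x1 .x2) (.cons (.ofNat 298) (.a0 .e) .nil) (.cons (.s .x0 .x2) (.cons (.ofNat 168) (.a6 .e) (.cons (.ofNat 254) (.a1 .e) .nil)) (.cons (.s .x0 .x1) (.cons (.negSucc 369) (.a7 .e) (.cons (.ofNat 110) (.a2 .e) .nil)) (.cons (.s T12 .x1) (.cons (.ofNat 306) .e .nil) (.cons (.s T81 .x1) (.cons (.ofNat 86) .e .nil) (.cons (.s T80 .x2) (.cons (.negSucc 81) .e .nil) .nil)))))) (.node (.cons (.s .x1 .x2) (.cons (.ofNat 122) .e .nil) .nil) .nil .nil .nil .nil .nil .nil .nil .nil .nil .nil) (.node (.cons (.s .x0 .x2) (.cons (.negSucc 81) .e .nil) .nil) .nil .nil .nil .nil .nil .nil .nil .nil .nil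 .nil) (.node (.cons (.s .x0 .x1) (.cons (.ofNat 44) .e .nil) .nil) .nil .nil .nil .nil .nil .nil .nil .nil .nil .nil) .nil .nil (.node (.cons (.s .x1 .x2) (.cons (.negSucc 115) .e .nil) .nil) .nil .nil .nil .nil .nil .nil .nil .nil .nil .nil) (.node (.cons (.s .x0 .x2) (.cons (.negSucc 285) .e .nil) .nil) .nil .nil .nil .nil .nil .nil .nil .nil .nil .nil) (.node (.cons (.s .x0 .x1) (.cons (.negSucc 289) .e .nil) .nil) .nil .nil .nil .nil .nil .nil .nil .nil .nil .nil) .nil .nil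
def C75 : Cert := .node (.cons (.s .x2 .x3) (.cons (.negSucc 169) (.a6 .e) (.cons (.negSucc 550) (.a1 .e) .nil)) (.cons (.s .x1 .x3) (.cons (.ofNat 22) (.a7 .e) (.cons (.negSucc 775) (.a2 .e) .nil)) (.cons (.s .x1 .x2) (.cons (.ofNat 61) (.a8 .e) (.cons (.ofNat 124) (.a3 .e) .nil)) (.cons (.s T3 .x2) (.cons (.negSucc 53) .e .nil) (.cons (.s T35 .x2) (.cons (.negSucc 429) .e .nil) (.cons (.s T16 .x3) (.cons (.negSucc 461) .e .nil) (.cons (.rL .x3 .x1 .x2) (.cons (.ofNat 108) .e .nil) .nil))))))) .nil (.node (.cons (.s .x2 .x3) (.cons (.ofNat 210) .e .nil) .nil) .nil .nil .nil .nil .nil .nil .nil .nil .nil .nil) (.node (.cons (.s .x1 .x3) (.cons (.ofNat 196) .e .nil) .nil) .nil .nil .nil .nil .nil .nil .nil .nil .nil .nil) (.node (.cons (.s .x1 .x2) (.cons (.ofNat 178) .e .nil) .nil) .nil .nil .nil .nil .nil .nil .nil .nil .nil .nil) .nil .nil (.node (.cons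 (.s .x2 .x3) (.cons (.ofNat 462) .e .nil) .nil) .nil .nil .nil .nil .nil .nil .nil .nil .nil .nil) (.node (.cons (.s .x1 .x3) (.cons (.ofNat 382) .e .nil) .nil) .nil .nil .nil .nil .nil .nil .nil .nil .nil .nil) (.node (.cons (.s .x1 .x2) (.cons (.ofNat 344) .e .nil) .nil) .nil .nil .nil .nil .nil .nil .nil .nil .nil .nil) .nil
def C76 : Cert := .node (.cons (.s .x2 .x3) (.cons (.ofNat 28) (.a5 .e) (.cons (.negSucc 701) (.a0 .e) .nil)) (.cons (.s .x0 .x3) (.cons (.negSucc 73) (.a7 .e) (.cons (.negSucc 691) (.a2 .e) .nil)) (.cons (.s .x0 .x2) (.cons (.ofNat 61) (.a8 .e) (.cons (.ofNat 16) (.a3 .e) .nil)) (.cons (.s T26 .x2) (.cons (.ofNat 100) .e .nil) (.cons (.s T49 .x2) (.cons (.negSucc 261) .e .nil) (.cons (.s T12 .x3) (.cons (.negSucc 293) .e .nil) (.cons (.rL .x3 .x0 .x2) (.cons (.ofNat 116) .e .nil) .nil))))))) (.node (.cons (.s .x2 .x3) (.cons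 (.ofNat 262) .e .nil) .nil) .nil .nil .nil .nil .nil .nil .nil .nil .nil .nil) .nil (.node (.cons (.s .x0 .x3) (.cons (.ofNat 295) .e .nil) .nil) .nil .nil .nil .nil .nil .nil .nil .nil .nil .nil) (.node (.cons (.s .x0 .x2) (.cons (.ofNat 272) .e .nil) .nil) .nil .nil .nil .nil .nil .nil .nil .nil .nil .nil) .nil (.node (.cons (.s .x2 .x3) (.cons (.ofNat 294) .e .nil) .nil) .nil .nil .nil .nil .nil .nil .nil .nil .nil .nil) .nil (.node (.cons (.s .x0 .x3) (.cons (.ofNat 266) .e .nil) .nil) .nil .nil .nil .nil .nil .nil .nil .nil .nil .nil) (.node (.cons (.s .x0 .x2) (.cons (.ofNat 146) .e .nil) .nil) .nil .nil .nil .nil .nil .nil .nil .nil .nil .nil) .nil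
def C77 : Cert := .node (.cons (.s .x1 .x3) (.cons (.ofNat 12) (.a5 .e) (.cons (.negSucc 777) (.a0 .e) .nil)) (.cons (.s .x0 .x3) (.cons (.negSucc 245) (.a6 .e) (.cons (.negSucc 698) (.a1 .e) .nil)) (.cons (.s .x0 .x1) (.cons (.negSucc 342) (.a8 .e) (.cons (.negSucc 274) (.a3 .e) .nil)) (.cons (.s T26 .x1) (.cons (.ofNat 308) .e .nil) (.cons (.s T49 .x1) (.cons (.negSucc 141) .e .nil) (.cons (.s T80 .x3) (.cons (.negSucc 165) .e .nil) (.cons (.rL .x3 .x0 .x1) (.cons (.ofNat 156) .e .nil) .nil))))))) (.node (.cons (.s .x1 .x3) (.cons (.ofNat 170) .e .nil) .nil) .nil .nil .nil .nil .nil .nil .nil .nil .nil .nil) (.node (.cons (.s .x0 .x3) (.cons (.ofNat 262) .e .nil) .nil) .nil .nil .nil .nil .nil .nil .nil .nil .nil .nil) .nil (.node (.cons (.s .x0 .x1) (.cons (.ofNat 276) .e .nil) .nil) .nil .nil .nil .nil .nil .nil .nil .nil .nil .nil) .nil (.node (.cons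 (.s .x1 .x3) (.cons (.ofNat 166) .e .nil) .nil) .nil .nil .nil .nil .nil .nil .nil .nil .nil .nil) (.node (.cons (.s .x0 .x3) (.cons (.ofNat 242) .e .nil) .nil) .nil .nil .nil .nil .nil .nil .nil .nil .nil .nil) .nil (.node (.cons (.s .x0 .x1) (.cons (.ofNat 10) .e .nil) .nil) .nil .nil .nil .nil .nil .nil .nil .nil .nil .nil) .nil
def C78 : Cert := .node (.cons (.s .x1 .x2) (.cons (.ofNat 87) (.a5 .e) (.cons (.ofNat 110) (.a0 .e) .nil)) (.cons (.s .x0 .x2) (.cons (.negSucc 106) (.a6 .e) (.cons (.negSucc 459) (.a1 .e) .nil)) (.cons (.s .x0 .x1) (.cons (.negSucc 263) (.a7 .e) (.cons (.negSucc 185) (.a2 .e) .nil)) (.cons (.s T12 .x1) (.cons (.negSucc 103) .e .nil) (.cons (.s T81 .x1) (.cons (.ofNat 96) .e .nil) (.cons (.s T80 .x2) (.cons (.ofNat 48) .e .nil) (.cons (.rL .x2 .x0 .x1) (.cons (.negSucc 51) .e .nil) .nil))))))) (.node (.cons (.s .x1 .x2) (.cons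 (.negSucc 95) .e .nil) .nil) .nil .nil .nil .nil .nil .nil .nil .nil .nil .nil) (.node (.cons (.s .x0 .x2) (.cons (.ofNat 100) .e .nil) .nil) .nil .nil .nil .nil .nil .nil .nil .nil .nil .nil) (.node (.cons (.s .x0 .x1) (.cons (.ofNat 134) .e .nil) .nil) .nil .nil .nil .nil .nil .nil .nil .nil .nil .nil) .nil .nil (.node (.cons (.s .x1 .x2) (.cons (.negSucc 19) .e .nil) .nil) .nil .nil .nil .nil .nil .nil .nil .nil .nil .nil) (.node (.cons (.s .x0 .x2) (.cons (.negSucc 23) .e .nil) .nil) .nil .nil .nil .nil .nil .nil .nil .nil .nil .nil) (.node (.cons (.s .x0 .x1) (.cons (.ofNat 4) .e .nil) .nil) .nil .nil .nil .nil .nil .nil .nil .nil .nil .nil) .nil .nil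
def C79 : Cert := .node (.cons (.s .x2 .x3) (.cons (.ofNat 278) (.a6 (.a5 .e)) (.cons (.negSucc 547) (.a6 (.a0 .e)) (.cons (.ofNat 336) (.a1 (.a5 .e)) (.cons (.ofNat 128) (.a1 (.a0 .e)) (.cons (.negSucc 169) (.a5 (.a6 .e)) (.cons (.negSucc 903) (.a5 (.a1 .e)) (.cons (.ofNat 298) (.a0 (.a6 .e)) (.cons (.negSucc 485) (.a0 (.a1 .e)) .nil)))))))) (.cons (.s .x1 .x3) (.cons (.ofNat 216) (.a7 (.a5 .e)) (.cons (.negSucc 135) (.a7 (.a0 .e)) (.cons (.negSucc 68) (.a2 (.a5 .e)) (.cons (.ofNat 262) (.a2 (.a0 .e)) (.cons (.negSucc 89) (.a5 (.a7 .e)) (.cons (.negSucc 729) (.a5 (.a2 .e)) (.cons (.negSucc 449) (.a0 (.a7 .e)) (.cons (.ofNat 30) (.a0 (.a2 .e)) .nil)))))))) (.cons (.s .x1 .x2) (.cons (.negSucc 394) (.a8 (.a5 .e)) (.cons (.negSucc 427) (.a8 (.a0 .e)) (.cons (.negSucc 198) (.a3 (.a5 .e)) (.cons (.ofNat 236) (.a3 (.a0 .e)) (.cons (.ofNat 102) (.a5 (.a8 .e))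 (.cons (.negSucc 203) (.a5 (.a3 .e)) (.cons (.negSucc 329) (.a0 (.a8 .e)) (.cons (.negSucc 595) (.a0 (.a3 .e)) .nil)))))))) (.cons (.s .x0 .x3) (.cons (.negSucc 3) (.a7 (.a6 .e)) (.cons (.ofNat 386) (.a7 (.a1 .e)) (.cons (.negSucc 20) (.a2 (.a6 .e)) (.cons (.ofNat 363) (.a2 (.a1 .e)) (.cons (.ofNat 294) (.a6 (.a7 .e)) (.cons (.negSucc 97) (.a6 (.a2 .e)) (.cons (.negSucc 191) (.a1 (.a7 .e)) (.cons (.ofNat 348) (.a1 (.a2 .e)) .nil)))))))) (.cons (.s .x0 .x2) (.cons (.negSucc 514) (.a8 (.a6 .e)) (.cons (.negSucc 417) (.a8 (.a1 .e)) (.cons (.negSucc 443) (.a3 (.a6 .e)) (.cons (.ofNat 222) (.a3 (.a1 .e)) (.cons (.ofNat 158) (.a6 (.a8 .e)) (.cons (.ofNat 281) (.a6 (.a3 .e)) (.cons (.negSucc 182) (.a1 (.a8 .e)) (.cons (.ofNat 345) (.a1 (.a3 .e)) .nil)))))))) (.cons (.s .x0 .x1) (.cons (.negSucc 245) (.a8 (.a7 .e)) (.cons (.negSucc 742) (.a8 (.a2 .e)) (.cons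 (.negSucc 150) (.a3 (.a7 .e)) (.cons (.ofNat 184) (.a3 (.a2 .e)) (.cons (.ofNat 90) (.a7 (.a8 .e)) (.cons (.ofNat 32) (.a7 (.a3 .e)) (.cons (.ofNat 206) (.a2 (.a8 .e)) (.cons (.ofNat 241) (.a2 (.a3 .e)) .nil)))))))) (.cons (.s T3 .x2) (.cons (.ofNat 4) (.a5 .e) (.cons (.negSucc 468) (.a0 .e) .nil)) (.cons (.s T35 .x2) (.cons (.ofNat 12) (.a5 .e) (.cons (.ofNat 516) (.a0 .e) .nil)) (.cons (.s T16 .x3) (.cons (.negSucc 107) (.a5 .e) (.cons (.ofNat 588) (.a0 .e) .nil)) (.cons (.s T26 .x2) (.cons (.ofNat 227) (.a1 .e) .nil) (.cons (.s T49 .x2) (.cons (.ofNat 270) (.a6 .e) (.cons (.ofNat 557) (.a1 .e) .nil)) (.cons (.s T12 .x3) (.cons (.ofNat 34) (.a6 .e) (.cons (.ofNat 445) (.a1 .e) .nil)) (.cons (.s T26 .x1) (.cons (.ofNat 468) (.a7 .e) (.cons (.ofNat 20) (.a2 .e) .nil)) (.cons (.s T49 .x1) (.cons (.ofNat 106) (.a7 .e) (.cons (.ofNat 382) (.a2 .e) .nil))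 (.cons (.s T80 .x3) (.cons (.ofNat 50) (.a7 .e) (.cons (.ofNat 378) (.a2 .e) .nil)) (.cons (.s T12 .x1) (.cons (.ofNat 305) (.a8 .e) (.cons (.ofNat 658) (.a3 .e) .nil)) (.cons (.s T81 .x1) (.cons (.ofNat 117) (.a8 .e) (.cons (.negSucc 159) (.a3 .e) .nil)) (.cons (.s T80 .x2) (.cons (.ofNat 289) (.a8 .e) (.cons (.negSucc 35) (.a3 .e) .nil)) (.cons (.rL .x3 .x1 .x2) (.cons (.negSucc 74) (.a5 .e) (.cons (.negSucc 545) (.a0 .e) .nil)) (.cons (.rL .x3 .x0 .x2) (.cons (.negSucc 114) (.a6 .e) (.cons (.negSucc 68) (.a1 .e) .nil)) (.cons (.rL .x3 .x0 .x1) (.cons (.ofNat 210) (.a7 .e) (.cons (.negSucc 239) (.a2 .e) .nil)) (.cons (.rL .x2 .x0 .x1) (.cons (.ofNat 236) (.a8 .e) (.cons (.ofNat 315) (.a3 .e) .nil)) (.cons (.s T26 T16) (.cons (.ofNat 94) .e .nil) (.cons (.s T26 T79) (.cons (.negSucc 45) .e .nil) (.cons (.s T49 T16) (.cons (.ofNat 20) .e .nil) (.cons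 (.s T49 T79) (.cons (.negSucc 27) .e .nil) (.cons (.s T12 T3) (.cons (.ofNat 116) .e .nil) (.cons (.s T12 T35) (.cons (.ofNat 24) .e .nil) (.cons (.s T66 .x1) (.cons (.negSucc 227) .e .nil) (.cons (.s T65 .x1) (.cons (.negSucc 83) .e .nil) (.cons (.s T64 .x1) (.cons (.negSucc 161) .e .nil) (.cons (.s T63 .x2) (.cons (.negSucc 191) .e .nil) (.cons (.lR T3 .x2 .x0) (.cons (.negSucc 8) .e .nil) (.cons (.lR T16 .x3 .x0) (.cons (.ofNat 96) .e .nil) .nil)))))))))))))))))))))))))))))))))) C71 C72 C73 C74 .nil C75 C76 C77 C78 .nil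
def C80 : Cert := .node (.cons (.s .x3 .x4) (.cons (.negSucc 231) (.a7 (.a6 (.a0 .e))) (.cons (.negSucc 345) (.a7 (.a1 (.a5 .e))) (.cons (.negSucc 1191) (.a7 (.a1 (.a0 .e))) (.cons (.ofNat 496) (.a2 (.a6 (.a5 .e))) (.cons (.ofNat 462) (.a2 (.a6 (.a0 .e))) (.cons (.ofNat 440) (.a2 (.a1 (.a5 .e))) (.cons (.negSucc 51) (.a2 (.a1 (.a0 .e))) (.cons (.negSucc 283) (.a7 (.a5 (.a1 .e))) (.cons (.ofNat 102) (.a7 (.a0 (.a6 .e))) (.cons (.negSucc 425) (.a7 (.a0 (.a1 .e))) (.cons (.negSucc 69) (.a2 (.a5 (.a6 .e))) (.cons (.negSucc 388) (.a2 (.a5 (.a1 .e))) (.cons (.ofNat 64) (.a2 (.a0 (.a6 .e))) (.cons (.negSucc 955) (.a2 (.a0 (.a1 .e))) (.cons (.ofNat 372) (.a6 (.a7 (.a0 .e))) (.cons (.negSucc 919) (.a6 (.a2 (.a5 .e))) (.cons (.negSucc 899) (.a6 (.a2 (.a0 .e))) (.cons (.ofNat 338) (.a1 (.a7 (.a5 .e))) (.cons (.ofNat 214) (.a1 (.a7 (.a0 .e))) (.cons (.ofNat 392)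 (.a1 (.a2 (.a5 .e))) (.cons (.negSucc 323) (.a1 (.a2 (.a0 .e))) (.cons (.ofNat 412) (.a6 (.a5 (.a2 .e))) (.cons (.negSucc 167) (.a6 (.a0 (.a7 .e))) (.cons (.ofNat 16) (.a6 (.a0 (.a2 .e))) (.cons (.negSucc 161) (.a1 (.a5 (.a7 .e))) (.cons (.negSucc 847) (.a1 (.a5 (.a2 .e))) (.cons (.ofNat 60) (.a1 (.a0 (.a7 .e))) (.cons (.negSucc 869) (.a1 (.a0 (.a2 .e))) (.cons (.ofNat 168) (.a5 (.a7 (.a1 .e))) (.cons (.negSucc 483) (.a5 (.a2 (.a6 .e))) (.cons (.negSucc 105) (.a5 (.a2 (.a1 .e))) (.cons (.negSucc 247) (.a0 (.a7 (.a6 .e))) (.cons (.ofNat 467) (.a0 (.a7 (.a1 .e))) (.cons (.negSucc 183) (.a0 (.a2 (.a6 .e))) (.cons (.negSucc 677) (.a0 (.a2 (.a1 .e))) (.cons (.ofNat 284) (.a5 (.a6 (.a2 .e))) (.cons (.negSucc 19) (.a5 (.a1 (.a7 .e))) (.cons (.ofNat 160) (.a5 (.a1 (.a2 .e))) (.cons (.ofNat 226) (.a0 (.a6 (.a7 .e))) (.cons (.ofNat 172) (.a0 (.a6 (.a2 .e))) (.cons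 (.negSucc 83) (.a0 (.a1 (.a7 .e))) (.cons (.negSucc 669) (.a0 (.a1 (.a2 .e))) .nil)))))))))))))))))))))))))))))))))))))))))) (.cons (.s .x2 .x4) (.cons (.ofNat 12) (.a8 (.a6 (.a5 .e))) (.cons (.ofNat 464) (.a8 (.a6 (.a0 .e))) (.cons (.negSucc 51) (.a8 (.a1 (.a5 .e))) (.cons (.ofNat 550) (.a8 (.a1 (.a0 .e))) (.cons (.ofNat 496) (.a3 (.a6 (.a5 .e))) (.cons (.ofNat 876) (.a3 (.a6 (.a0 .e))) (.cons (.ofNat 626) (.a3 (.a1 (.a5 .e))) (.cons (.ofNat 1064) (.a3 (.a1 (.a0 .e))) (.cons (.ofNat 270) (.a8 (.a5 (.a6 .e))) (.cons (.ofNat 573) (.a8 (.a5 (.a1 .e))) (.cons (.ofNat 250) (.a8 (.a0 (.a6 .e))) (.cons (.ofNat 1143) (.a8 (.a0 (.a1 .e))) (.cons (.negSucc 93) (.a3 (.a5 (.a6 .e))) (.cons (.negSucc 190) (.a3 (.a5 (.a1 .e))) (.cons (.negSucc 17) (.a3 (.a0 (.a6 .e))) (.cons (.negSucc 109) (.a3 (.a0 (.a1 .e))) (.cons (.negSucc 23) (.a6 (.a8 (.a5 .e))) (.cons (.ofNat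 438) (.a6 (.a8 (.a0 .e))) (.cons (.negSucc 1085) (.a6 (.a3 (.a5 .e))) (.cons (.negSucc 457) (.a6 (.a3 (.a0 .e))) (.cons (.negSucc 605) (.a1 (.a8 (.a5 .e))) (.cons (.negSucc 1200) (.a1 (.a8 (.a0 .e))) (.cons (.ofNat 711) (.a1 (.a3 (.a5 .e))) (.cons (.ofNat 754) (.a1 (.a3 (.a0 .e))) (.cons (.ofNat 590) (.a6 (.a5 (.a3 .e))) (.cons (.negSucc 373) (.a6 (.a0 (.a8 .e))) (.cons (.ofNat 986) (.a6 (.a0 (.a3 .e))) (.cons (.ofNat 119) (.a1 (.a5 (.a8 .e))) (.cons (.negSucc 954) (.a1 (.a5 (.a3 .e))) (.cons (.ofNat 15) (.a1 (.a0 (.a8 .e))) (.cons (.negSucc 1305) (.a1 (.a0 (.a3 .e))) (.cons (.ofNat 120) (.a5 (.a8 (.a6 .e))) (.cons (.ofNat 46) (.a5 (.a8 (.a1 .e))) (.cons (.negSucc 327) (.a5 (.a3 (.a6 .e))) (.cons (.ofNat 381) (.a5 (.a3 (.a1 .e))) (.cons (.negSucc 695) (.a0 (.a8 (.a6 .e))) (.cons (.negSucc 892) (.a0 (.a8 (.a1 .e))) (.cons (.negSucc 145) (.a0 (.a3 (.a6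 .e))) (.cons (.ofNat 83) (.a0 (.a3 (.a1 .e))) (.cons (.ofNat 422) (.a5 (.a6 (.a3 .e))) (.cons (.negSucc 15) (.a5 (.a1 (.a8 .e))) (.cons (.ofNat 912) (.a5 (.a1 (.a3 .e))) (.cons (.ofNat 327) (.a0 (.a6 (.a8 .e))) (.cons (.negSucc 163) (.a0 (.a6 (.a3 .e))) (.cons (.negSucc 11) (.a0 (.a1 (.a8 .e))) (.cons (.negSucc 339) (.a0 (.a1 (.a3 .e))) .nil)))))))))))))))))))))))))))))))))))))))))))))) (.cons (.s .x2 .x3) (.cons (.negSucc 185) (.a9 (.a6 (.a5 .e))) (.cons (.negSucc 35) (.a9 (.a6 (.a0 .e))) (.cons (.negSucc 239) (.a9 (.a1 (.a5 .e))) (.cons (.ofNat 50) (.a9 (.a1 (.a0 .e))) (.cons (.ofNat 68) (.a4 (.a6 (.a5 .e))) (.cons (.ofNat 412) (.a4 (.a6 (.a0 .e))) (.cons (.negSucc 5) (.a4 (.a1 (.a5 .e))) (.cons (.ofNat 124) (.a4 (.a1 (.a0 .e))) (.cons (.ofNat 24) (.a9 (.a5 (.a6 .e))) (.cons (.ofNat 123) (.a9 (.a5 (.a1 .e))) (.cons (.negSucc 5) (.a9 (.a0 (.a6 .e)))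 (.cons (.ofNat 788) (.a9 (.a0 (.a1 .e))) (.cons (.negSucc 205) (.a4 (.a5 (.a6 .e))) (.cons (.negSucc 244) (.a4 (.a5 (.a1 .e))) (.cons (.negSucc 257) (.a4 (.a0 (.a6 .e))) (.cons (.ofNat 38) (.a4 (.a0 (.a1 .e))) (.cons (.ofNat 56) (.a6 (.a9 (.a5 .e))) (.cons (.ofNat 140) (.a6 (.a9 (.a0 .e))) (.cons (.negSucc 327) (.a6 (.a4 (.a5 .e))) (.cons (.negSucc 29) (.a6 (.a4 (.a0 .e))) (.cons (.negSucc 273) (.a1 (.a9 (.a5 .e))) (.cons (.negSucc 723) (.a1 (.a9 (.a0 .e))) (.cons (.ofNat 138) (.a1 (.a4 (.a5 .e))) (.cons (.negSucc 269) (.a1 (.a4 (.a0 .e))) (.cons (.ofNat 212) (.a6 (.a5 (.a4 .e))) (.cons (.negSucc 317) (.a6 (.a0 (.a9 .e))) (.cons (.ofNat 638) (.a6 (.a0 (.a4 .e))) (.cons (.ofNat 134) (.a1 (.a5 (.a9 .e))) (.cons (.negSucc 854) (.a1 (.a5 (.a4 .e))) (.cons (.negSucc 5) (.a1 (.a0 (.a9 .e))) (.cons (.negSucc 1021) (.a1 (.a0 (.a4 .e))) (.cons (.ofNat 136) (.a5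 (.a9 (.a6 .e))) (.cons (.negSucc 109) (.a5 (.a9 (.a1 .e))) (.cons (.negSucc 109) (.a5 (.a4 (.a6 .e))) (.cons (.ofNat 355) (.a5 (.a4 (.a1 .e))) (.cons (.negSucc 483) (.a0 (.a9 (.a6 .e))) (.cons (.negSucc 1064) (.a0 (.a9 (.a1 .e))) (.cons (.negSucc 223) (.a0 (.a4 (.a6 .e))) (.cons (.ofNat 249) (.a0 (.a4 (.a1 .e))) (.cons (.ofNat 316) (.a5 (.a6 (.a4 .e))) (.cons (.ofNat 32) (.a5 (.a1 (.a9 .e))) (.cons (.ofNat 706) (.a5 (.a1 (.a4 .e))) (.cons (.ofNat 462) (.a0 (.a6 (.a9 .e))) (.cons (.negSucc 58) (.a0 (.a6 (.a4 .e))) (.cons (.negSucc 199) (.a0 (.a1 (.a4 .e))) .nil))))))))))))))))))))))))))))))))))))))))))))) (.cons (.s .x1 .x4) (.cons (.ofNat 244) (.a8 (.a7 (.a5 .e))) (.cons (.ofNat 888) (.a8 (.a7 (.a0 .e))) (.cons (.negSucc 73) (.a8 (.a2 (.a5 .e))) (.cons (.ofNat 882) (.a8 (.a2 (.a0 .e))) (.cons (.ofNat 468) (.a3 (.a7 (.a5 .e))) (.cons (.ofNat 178) (.a3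 (.a7 (.a0 .e))) (.cons (.ofNat 1036) (.a3 (.a2 (.a5 .e))) (.cons (.ofNat 572) (.a3 (.a2 (.a0 .e))) (.cons (.ofNat 14) (.a8 (.a5 (.a7 .e))) (.cons (.ofNat 802) (.a8 (.a5 (.a2 .e))) (.cons (.ofNat 16) (.a8 (.a0 (.a7 .e))) (.cons (.ofNat 1104) (.a8 (.a0 (.a2 .e))) (.cons (.negSucc 213) (.a3 (.a5 (.a7 .e))) (.cons (.negSucc 933) (.a3 (.a5 (.a2 .e))) (.cons (.ofNat 168) (.a3 (.a0 (.a7 .e))) (.cons (.negSucc 601) (.a3 (.a0 (.a2 .e))) (.cons (.ofNat 136) (.a7 (.a8 (.a5 .e))) (.cons (.ofNat 340) (.a7 (.a8 (.a0 .e))) (.cons (.negSucc 1023) (.a7 (.a3 (.a5 .e))) (.cons (.negSucc 813) (.a7 (.a3 (.a0 .e))) (.cons (.negSucc 523) (.a2 (.a8 (.a5 .e))) (.cons (.negSucc 1613) (.a2 (.a8 (.a0 .e))) (.cons (.ofNat 748) (.a2 (.a3 (.a5 .e))) (.cons (.ofNat 282) (.a2 (.a3 (.a0 .e))) (.cons (.negSucc 184) (.a7 (.a5 (.a8 .e))) (.cons (.ofNat 436) (.a7 (.a5 (.a3 .e))) (.cons (.negSucc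 182) (.a7 (.a0 (.a8 .e))) (.cons (.ofNat 718) (.a7 (.a0 (.a3 .e))) (.cons (.ofNat 67) (.a2 (.a5 (.a8 .e))) (.cons (.negSucc 1057) (.a2 (.a5 (.a3 .e))) (.cons (.ofNat 118) (.a2 (.a0 (.a8 .e))) (.cons (.negSucc 1685) (.a2 (.a0 (.a3 .e))) (.cons (.ofNat 60) (.a5 (.a8 (.a7 .e))) (.cons (.negSucc 326) (.a5 (.a8 (.a2 .e))) (.cons (.ofNat 65) (.a5 (.a3 (.a7 .e))) (.cons (.ofNat 430) (.a5 (.a3 (.a2 .e))) (.cons (.negSucc 249) (.a0 (.a8 (.a7 .e))) (.cons (.negSucc 934) (.a0 (.a8 (.a2 .e))) (.cons (.ofNat 45) (.a0 (.a3 (.a7 .e))) (.cons (.negSucc 321) (.a0 (.a3 (.a2 .e))) (.cons (.negSucc 35) (.a5 (.a7 (.a8 .e))) (.cons (.ofNat 53) (.a5 (.a7 (.a3 .e))) (.cons (.ofNat 152) (.a5 (.a2 (.a8 .e))) (.cons (.ofNat 830) (.a5 (.a2 (.a3 .e))) (.cons (.ofNat 151) (.a0 (.a7 (.a8 .e))) (.cons (.ofNat 125) (.a0 (.a7 (.a3 .e))) (.cons (.ofNat 36) (.a0 (.a2 (.a8 .e))) (.cons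 (.negSucc 899) (.a0 (.a2 (.a3 .e))) .nil)))))))))))))))))))))))))))))))))))))))))))))))) (.cons (.s .x1 .x3) (.cons (.negSucc 451) (.a9 (.a7 (.a5 .e))) (.cons (.negSucc 559) (.a9 (.a7 (.a0 .e))) (.cons (.ofNat 33) (.a9 (.a2 (.a5 .e))) (.cons (.ofNat 332) (.a9 (.a2 (.a0 .e))) (.cons (.negSucc 203) (.a4 (.a7 (.a5 .e))) (.cons (.negSucc 689) (.a4 (.a7 (.a0 .e))) (.cons (.ofNat 508) (.a4 (.a2 (.a5 .e))) (.cons (.ofNat 36) (.a4 (.a2 (.a0 .e))) (.cons (.ofNat 60) (.a9 (.a5 (.a7 .e))) (.cons (.ofNat 82) (.a9 (.a5 (.a2 .e))) (.cons (.ofNat 436) (.a9 (.a0 (.a7 .e))) (.cons (.ofNat 1004) (.a9 (.a0 (.a2 .e))) (.cons (.negSucc 77) (.a4 (.a5 (.a7 .e))) (.cons (.negSucc 751) (.a4 (.a5 (.a2 .e))) (.cons (.ofNat 596) (.a4 (.a0 (.a7 .e))) (.cons (.negSucc 49) (.a4 (.a0 (.a2 .e))) (.cons (.negSucc 51) (.a7 (.a9 (.a5 .e))) (.cons (.negSucc 179) (.a7 (.a9 (.a0 .e))) (.cons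 (.negSucc 283) (.a7 (.a4 (.a5 .e))) (.cons (.ofNat 90) (.a7 (.a4 (.a0 .e))) (.cons (.negSucc 267) (.a2 (.a9 (.a5 .e))) (.cons (.negSucc 1015) (.a2 (.a9 (.a0 .e))) (.cons (.negSucc 73) (.a2 (.a4 (.a5 .e))) (.cons (.negSucc 205) (.a2 (.a4 (.a0 .e))) (.cons (.negSucc 101) (.a7 (.a5 (.a9 .e))) (.cons (.ofNat 335) (.a7 (.a5 (.a4 .e))) (.cons (.negSucc 23) (.a7 (.a0 (.a9 .e))) (.cons (.ofNat 475) (.a7 (.a0 (.a4 .e))) (.cons (.ofNat 142) (.a2 (.a5 (.a9 .e))) (.cons (.negSucc 552) (.a2 (.a5 (.a4 .e))) (.cons (.ofNat 14) (.a2 (.a0 (.a9 .e))) (.cons (.negSucc 1151) (.a2 (.a0 (.a4 .e))) (.cons (.ofNat 56) (.a5 (.a9 (.a7 .e))) (.cons (.negSucc 251) (.a5 (.a9 (.a2 .e))) (.cons (.negSucc 287) (.a5 (.a4 (.a7 .e))) (.cons (.ofNat 244) (.a5 (.a4 (.a2 .e))) (.cons (.negSucc 409) (.a0 (.a9 (.a7 .e))) (.cons (.negSucc 1017) (.a0 (.a9 (.a2 .e))) (.cons (.ofNat 390) (.a0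 (.a4 (.a7 .e))) (.cons (.ofNat 296) (.a0 (.a4 (.a2 .e))) (.cons (.negSucc 11) (.a5 (.a7 (.a9 .e))) (.cons (.ofNat 294) (.a5 (.a7 (.a4 .e))) (.cons (.negSucc 11) (.a5 (.a2 (.a9 .e))) (.cons (.ofNat 615) (.a5 (.a2 (.a4 .e))) (.cons (.ofNat 74) (.a0 (.a7 (.a9 .e))) (.cons (.ofNat 267) (.a0 (.a7 (.a4 .e))) (.cons (.negSucc 59) (.a0 (.a2 (.a9 .e))) (.cons (.negSucc 518) (.a0 (.a2 (.a4 .e))) .nil)))))))))))))))))))))))))))))))))))))))))))))))) (.cons (.s .x1 .x2) (.cons (.negSucc 7) (.a9 (.a8 (.a5 .e))) (.cons (.negSucc 249) (.a9 (.a8 (.a0 .e))) (.cons (.negSucc 84) (.a9 (.a3 (.a5 .e))) (.cons (.negSucc 611) (.a9 (.a3 (.a0 .e))) (.cons (.negSucc 279) (.a4 (.a8 (.a5 .e))) (.cons (.negSucc 1114) (.a4 (.a8 (.a0 .e))) (.cons (.ofNat 837) (.a4 (.a3 (.a5 .e))) (.cons (.ofNat 72) (.a4 (.a3 (.a0 .e))) (.cons (.ofNat 41) (.a9 (.a5 (.a8 .e))) (.cons (.ofNat 48) (.a9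 (.a5 (.a3 .e))) (.cons (.ofNat 764) (.a9 (.a0 (.a8 .e))) (.cons (.ofNat 988) (.a9 (.a0 (.a3 .e))) (.cons (.ofNat 121) (.a4 (.a5 (.a8 .e))) (.cons (.negSucc 932) (.a4 (.a5 (.a3 .e))) (.cons (.ofNat 1059) (.a4 (.a0 (.a8 .e))) (.cons (.negSucc 105) (.a4 (.a0 (.a3 .e))) (.cons (.ofNat 396) (.a8 (.a9 (.a5 .e))) (.cons (.ofNat 322) (.a8 (.a9 (.a0 .e))) (.cons (.ofNat 327) (.a8 (.a4 (.a5 .e))) (.cons (.negSucc 21) (.a8 (.a4 (.a0 .e))) (.cons (.ofNat 324) (.a3 (.a9 (.a5 .e))) (.cons (.ofNat 138) (.a3 (.a9 (.a0 .e))) (.cons (.ofNat 360) (.a3 (.a4 (.a5 .e))) (.cons (.negSucc 27) (.a8 (.a5 (.a9 .e))) (.cons (.ofNat 79) (.a8 (.a5 (.a4 .e))) (.cons (.ofNat 578) (.a8 (.a0 (.a9 .e))) (.cons (.ofNat 628) (.a8 (.a0 (.a4 .e))) (.cons (.ofNat 78) (.a3 (.a5 (.a9 .e))) (.cons (.negSucc 470) (.a3 (.a5 (.a4 .e))) (.cons (.ofNat 584) (.a3 (.a0 (.a9 .e))) (.cons (.negSucc 151)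 (.a3 (.a0 (.a4 .e))) (.cons (.ofNat 22) (.a5 (.a9 (.a8 .e))) (.cons (.negSucc 255) (.a5 (.a9 (.a3 .e))) (.cons (.negSucc 98) (.a5 (.a4 (.a8 .e))) (.cons (.ofNat 96) (.a5 (.a4 (.a3 .e))) (.cons (.negSucc 558) (.a0 (.a9 (.a8 .e))) (.cons (.negSucc 437) (.a0 (.a9 (.a3 .e))) (.cons (.ofNat 263) (.a0 (.a4 (.a8 .e))) (.cons (.ofNat 650) (.a0 (.a4 (.a3 .e))) (.cons (.negSucc 15) (.a5 (.a8 (.a9 .e))) (.cons (.negSucc 113) (.a5 (.a8 (.a4 .e))) (.cons (.ofNat 60) (.a5 (.a3 (.a9 .e))) (.cons (.ofNat 111) (.a5 (.a3 (.a4 .e))) (.cons (.negSucc 373) (.a0 (.a8 (.a9 .e))) (.cons (.negSucc 60) (.a0 (.a8 (.a4 .e))) (.cons (.ofNat 44) (.a0 (.a3 (.a9 .e))) (.cons (.ofNat 481) (.a0 (.a3 (.a4 .e))) .nil))))))))))))))))))))))))))))))))))))))))))))))) (.cons (.s .x0 .x4) (.cons (.ofNat 390) (.a8 (.a7 (.a6 .e))) (.cons (.negSucc 4) (.a8 (.a7 (.a1 .e))) (.cons (.ofNat 374) (.a8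 (.a2 (.a6 .e))) (.cons (.ofNat 999) (.a8 (.a2 (.a1 .e))) (.cons (.negSucc 197) (.a3 (.a7 (.a6 .e))) (.cons (.negSucc 140) (.a3 (.a7 (.a1 .e))) (.cons (.ofNat 370) (.a3 (.a2 (.a6 .e))) (.cons (.negSucc 73) (.a3 (.a2 (.a1 .e))) (.cons (.negSucc 381) (.a8 (.a6 (.a7 .e))) (.cons (.ofNat 12) (.a8 (.a6 (.a2 .e))) (.cons (.ofNat 222) (.a8 (.a1 (.a7 .e))) (.cons (.ofNat 862) (.a8 (.a1 (.a2 .e))) (.cons (.negSucc 21) (.a3 (.a6 (.a7 .e))) (.cons (.negSucc 225) (.a3 (.a6 (.a2 .e))) (.cons (.ofNat 246) (.a3 (.a1 (.a7 .e))) (.cons (.negSucc 293) (.a3 (.a1 (.a2 .e))) (.cons (.ofNat 120) (.a7 (.a8 (.a6 .e))) (.cons (.negSucc 379) (.a7 (.a8 (.a1 .e))) (.cons (.negSucc 321) (.a7 (.a3 (.a6 .e))) (.cons (.negSucc 256) (.a7 (.a3 (.a1 .e))) (.cons (.negSucc 721) (.a2 (.a8 (.a6 .e))) (.cons (.negSucc 1174) (.a2 (.a8 (.a1 .e))) (.cons (.negSucc 61) (.a2 (.a3 (.a6 .e))) (.cons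 (.negSucc 368) (.a2 (.a3 (.a1 .e))) (.cons (.negSucc 402) (.a7 (.a6 (.a8 .e))) (.cons (.negSucc 241) (.a7 (.a6 (.a3 .e))) (.cons (.ofNat 81) (.a7 (.a1 (.a8 .e))) (.cons (.ofNat 16) (.a7 (.a1 (.a3 .e))) (.cons (.negSucc 84) (.a2 (.a6 (.a8 .e))) (.cons (.negSucc 557) (.a2 (.a6 (.a3 .e))) (.cons (.ofNat 86) (.a2 (.a1 (.a8 .e))) (.cons (.negSucc 777) (.a2 (.a1 (.a3 .e))) (.cons (.negSucc 323) (.a6 (.a8 (.a7 .e))) (.cons (.negSucc 478) (.a6 (.a8 (.a2 .e))) (.cons (.negSucc 246) (.a6 (.a3 (.a7 .e))) (.cons (.ofNat 152) (.a6 (.a3 (.a2 .e))) (.cons (.negSucc 461) (.a1 (.a8 (.a7 .e))) (.cons (.negSucc 684) (.a1 (.a8 (.a2 .e))) (.cons (.negSucc 118) (.a1 (.a3 (.a7 .e))) (.cons (.negSucc 381) (.a1 (.a3 (.a2 .e))) (.cons (.negSucc 193) (.a6 (.a7 (.a8 .e))) (.cons (.negSucc 468) (.a6 (.a7 (.a3 .e))) (.cons (.ofNat 64) (.a6 (.a2 (.a8 .e))) (.cons (.ofNat 526) (.a6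 (.a2 (.a3 .e))) (.cons (.negSucc 172) (.a1 (.a7 (.a8 .e))) (.cons (.negSucc 90) (.a1 (.a7 (.a3 .e))) (.cons (.negSucc 61) (.a1 (.a2 (.a8 .e))) (.cons (.negSucc 729) (.a1 (.a2 (.a3 .e))) .nil)))))))))))))))))))))))))))))))))))))))))))))))) (.cons (.s .x0 .x3) (.cons (.negSucc 113) (.a9 (.a7 (.a6 .e))) (.cons (.negSucc 14) (.a9 (.a7 (.a1 .e))) (.cons (.ofNat 313) (.a9 (.a2 (.a6 .e))) (.cons (.ofNat 631) (.a9 (.a2 (.a1 .e))) (.cons (.negSucc 369) (.a4 (.a7 (.a6 .e))) (.cons (.ofNat 223) (.a4 (.a7 (.a1 .e))) (.cons (.ofNat 178) (.a4 (.a2 (.a6 .e))) (.cons (.negSucc 23) (.a4 (.a2 (.a1 .e))) (.cons (.ofNat 268) (.a9 (.a6 (.a7 .e))) (.cons (.ofNat 226) (.a9 (.a6 (.a2 .e))) (.cons (.ofNat 286) (.a9 (.a1 (.a7 .e))) (.cons (.ofNat 926) (.a9 (.a1 (.a2 .e))) (.cons (.ofNat 386) (.a4 (.a6 (.a7 .e))) (.cons (.ofNat 186) (.a4 (.a6 (.a2 .e))) (.cons (.ofNat 326) (.a4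 (.a1 (.a7 .e))) (.cons (.ofNat 48) (.a4 (.a1 (.a2 .e))) (.cons (.ofNat 4) (.a7 (.a9 (.a6 .e))) (.cons (.negSucc 305) (.a7 (.a9 (.a1 .e))) (.cons (.negSucc 107) (.a7 (.a4 (.a6 .e))) (.cons (.negSucc 524) (.a7 (.a4 (.a1 .e))) (.cons (.negSucc 473) (.a2 (.a9 (.a6 .e))) (.cons (.negSucc 792) (.a2 (.a9 (.a1 .e))) (.cons (.negSucc 303) (.a2 (.a4 (.a6 .e))) (.cons (.negSucc 270) (.a2 (.a4 (.a1 .e))) (.cons (.negSucc 231) (.a7 (.a6 (.a9 .e))) (.cons (.negSucc 118) (.a7 (.a6 (.a4 .e))) (.cons (.negSucc 21) (.a7 (.a1 (.a9 .e))) (.cons (.negSucc 290) (.a7 (.a1 (.a4 .e))) (.cons (.ofNat 124) (.a2 (.a6 (.a9 .e))) (.cons (.negSucc 136) (.a2 (.a6 (.a4 .e))) (.cons (.negSucc 205) (.a2 (.a1 (.a9 .e))) (.cons (.negSucc 595) (.a2 (.a1 (.a4 .e))) (.cons (.negSucc 115) (.a6 (.a9 (.a7 .e))) (.cons (.negSucc 447) (.a6 (.a9 (.a2 .e))) (.cons (.negSucc 661) (.a6 (.a4 (.a7 .e)))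 (.cons (.negSucc 339) (.a6 (.a4 (.a2 .e))) (.cons (.negSucc 241) (.a1 (.a9 (.a7 .e))) (.cons (.negSucc 995) (.a1 (.a9 (.a2 .e))) (.cons (.ofNat 244) (.a1 (.a4 (.a7 .e))) (.cons (.negSucc 63) (.a1 (.a4 (.a2 .e))) (.cons (.negSucc 129) (.a6 (.a7 (.a9 .e))) (.cons (.negSucc 239) (.a6 (.a7 (.a4 .e))) (.cons (.ofNat 195) (.a6 (.a2 (.a4 .e))) (.cons (.negSucc 43) (.a1 (.a7 (.a9 .e))) (.cons (.ofNat 13) (.a1 (.a7 (.a4 .e))) (.cons (.negSucc 75) (.a1 (.a2 (.a9 .e))) (.cons (.negSucc 490) (.a1 (.a2 (.a4 .e))) .nil))))))))))))))))))))))))))))))))))))))))))))))) (.cons (.s .x0 .x2) (.cons (.ofNat 110) (.a9 (.a8 (.a6 .e))) (.cons (.ofNat 412) (.a9 (.a8 (.a1 .e))) (.cons (.ofNat 166) (.a9 (.a3 (.a6 .e))) (.cons (.negSucc 98) (.a9 (.a3 (.a1 .e))) (.cons (.negSucc 185) (.a4 (.a8 (.a6 .e))) (.cons (.ofNat 369) (.a4 (.a8 (.a1 .e))) (.cons (.ofNat 272) (.a4 (.a3 (.a6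 .e))) (.cons (.ofNat 245) (.a9 (.a6 (.a8 .e))) (.cons (.ofNat 617) (.a9 (.a6 (.a3 .e))) (.cons (.ofNat 187) (.a9 (.a1 (.a8 .e))) (.cons (.ofNat 547) (.a9 (.a1 (.a3 .e))) (.cons (.ofNat 371) (.a4 (.a6 (.a8 .e))) (.cons (.ofNat 490) (.a4 (.a6 (.a3 .e))) (.cons (.ofNat 252) (.a4 (.a1 (.a8 .e))) (.cons (.ofNat 48) (.a4 (.a1 (.a3 .e))) (.cons (.ofNat 236) (.a8 (.a9 (.a6 .e))) (.cons (.ofNat 332) (.a8 (.a9 (.a1 .e))) (.cons (.ofNat 254) (.a8 (.a4 (.a6 .e))) (.cons (.negSucc 310) (.a8 (.a4 (.a1 .e))) (.cons (.ofNat 66) (.a3 (.a9 (.a6 .e))) (.cons (.ofNat 309) (.a3 (.a9 (.a1 .e))) (.cons (.ofNat 90) (.a3 (.a4 (.a6 .e))) (.cons (.negSucc 23) (.a3 (.a4 (.a1 .e))) (.cons (.ofNat 88) (.a8 (.a6 (.a9 .e))) (.cons (.ofNat 504) (.a8 (.a6 (.a4 .e))) (.cons (.ofNat 206) (.a8 (.a1 (.a9 .e))) (.cons (.ofNat 171) (.a8 (.a1 (.a4 .e))) (.cons (.ofNat 232) (.a3 (.a6 (.a9 .e)))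 (.cons (.ofNat 507) (.a3 (.a6 (.a4 .e))) (.cons (.ofNat 48) (.a3 (.a1 (.a9 .e))) (.cons (.ofNat 206) (.a6 (.a9 (.a8 .e))) (.cons (.negSucc 493) (.a6 (.a9 (.a3 .e))) (.cons (.negSucc 266) (.a6 (.a4 (.a8 .e))) (.cons (.negSucc 713) (.a6 (.a4 (.a3 .e))) (.cons (.negSucc 64) (.a1 (.a9 (.a8 .e))) (.cons (.negSucc 345) (.a1 (.a9 (.a3 .e))) (.cons (.ofNat 107) (.a1 (.a4 (.a8 .e))) (.cons (.ofNat 120) (.a1 (.a4 (.a3 .e))) (.cons (.ofNat 20) (.a6 (.a8 (.a9 .e))) (.cons (.negSucc 423) (.a6 (.a8 (.a4 .e))) (.cons (.negSucc 572) (.a6 (.a3 (.a4 .e))) (.cons (.negSucc 155) (.a1 (.a8 (.a9 .e))) (.cons (.negSucc 26) (.a1 (.a8 (.a4 .e))) (.cons (.negSucc 23) (.a1 (.a3 (.a9 .e))) (.cons (.ofNat 129) (.a1 (.a3 (.a4 .e))) .nil))))))))))))))))))))))))))))))))))))))))))))) (.cons (.s .x0 .x1) (.cons (.ofNat 260) (.a9 (.a8 (.a7 .e))) (.cons (.ofNat 423) (.a9 (.a8 (.a2 .e)))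 (.cons (.ofNat 65) (.a9 (.a3 (.a7 .e))) (.cons (.ofNat 100) (.a9 (.a3 (.a2 .e))) (.cons (.ofNat 294) (.a4 (.a8 (.a7 .e))) (.cons (.ofNat 511) (.a4 (.a8 (.a2 .e))) (.cons (.ofNat 141) (.a4 (.a3 (.a7 .e))) (.cons (.negSucc 23) (.a4 (.a3 (.a2 .e))) (.cons (.ofNat 99) (.a9 (.a7 (.a8 .e))) (.cons (.ofNat 441) (.a9 (.a7 (.a3 .e))) (.cons (.ofNat 63) (.a9 (.a2 (.a8 .e))) (.cons (.ofNat 505) (.a9 (.a2 (.a3 .e))) (.cons (.ofNat 167) (.a4 (.a7 (.a8 .e))) (.cons (.ofNat 717) (.a4 (.a7 (.a3 .e))) (.cons (.negSucc 2) (.a4 (.a2 (.a8 .e))) (.cons (.negSucc 47) (.a4 (.a2 (.a3 .e))) (.cons (.ofNat 58) (.a8 (.a9 (.a7 .e))) (.cons (.ofNat 45) (.a8 (.a9 (.a2 .e))) (.cons (.ofNat 57) (.a8 (.a4 (.a7 .e))) (.cons (.negSucc 269) (.a8 (.a4 (.a2 .e))) (.cons (.ofNat 118) (.a3 (.a9 (.a7 .e))) (.cons (.negSucc 63) (.a3 (.a9 (.a2 .e))) (.cons (.ofNat 522) (.a3 (.a4 (.a7 .e))) (.cons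 (.negSucc 23) (.a3 (.a4 (.a2 .e))) (.cons (.ofNat 116) (.a8 (.a7 (.a9 .e))) (.cons (.ofNat 186) (.a8 (.a7 (.a4 .e))) (.cons (.ofNat 66) (.a8 (.a2 (.a9 .e))) (.cons (.ofNat 273) (.a8 (.a2 (.a4 .e))) (.cons (.ofNat 160) (.a3 (.a7 (.a9 .e))) (.cons (.ofNat 147) (.a3 (.a7 (.a4 .e))) (.cons (.ofNat 100) (.a3 (.a2 (.a9 .e))) (.cons (.negSucc 23) (.a3 (.a2 (.a4 .e))) (.cons (.negSucc 82) (.a7 (.a9 (.a8 .e))) (.cons (.negSucc 434) (.a7 (.a9 (.a3 .e))) (.cons (.ofNat 61) (.a7 (.a4 (.a8 .e))) (.cons (.negSucc 512) (.a7 (.a4 (.a3 .e))) (.cons (.negSucc 126) (.a2 (.a9 (.a8 .e))) (.cons (.negSucc 353) (.a2 (.a9 (.a3 .e))) (.cons (.ofNat 266) (.a2 (.a4 (.a8 .e))) (.cons (.negSucc 47) (.a2 (.a4 (.a3 .e))) (.cons (.ofNat 58) (.a7 (.a8 (.a9 .e))) (.cons (.negSucc 357) (.a7 (.a8 (.a4 .e))) (.cons (.negSucc 5) (.a7 (.a3 (.a9 .e))) (.cons (.negSucc 410) (.a7 (.a3 (.a4 .e)))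 (.cons (.negSucc 23) (.a2 (.a8 (.a9 .e))) (.cons (.negSucc 344) (.a2 (.a8 (.a4 .e))) (.cons (.negSucc 5) (.a2 (.a3 (.a9 .e))) (.cons (.negSucc 23) (.a2 (.a3 (.a4 .e))) .nil)))))))))))))))))))))))))))))))))))))))))))))))) (.cons (.s T5 .x3) (.cons (.ofNat 12) (.a6 (.a5 .e)) (.cons (.ofNat 464) (.a6 (.a0 .e)) (.cons (.negSucc 301) (.a1 (.a5 .e)) (.cons (.ofNat 292) (.a1 (.a0 .e)) (.cons (.ofNat 270) (.a5 (.a6 .e)) (.cons (.ofNat 549) (.a5 (.a1 .e)) (.cons (.ofNat 1088) (.a0 (.a1 .e)) .nil))))))) (.cons (.s T55 .x3) (.cons (.ofNat 232) (.a6 (.a0 .e)) (.cons (.ofNat 364) (.a1 (.a5 .e)) (.cons (.ofNat 944) (.a1 (.a0 .e)) (.cons (.ofNat 308) (.a5 (.a1 .e)) (.cons (.negSucc 157) (.a0 (.a1 .e)) .nil))))) (.cons (.s T7 .x4) (.cons (.negSucc 11) (.a6 (.a5 .e)) (.cons (.ofNat 28) (.a6 (.a0 .e)) (.cons (.ofNat 586) (.a1 (.a5 .e)) (.cons (.ofNat 1102) (.a1 (.a0 .e))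 (.cons (.negSucc 269) (.a5 (.a6 .e)) (.cons (.negSucc 108) (.a5 (.a1 .e)) (.cons (.ofNat 17) (.a0 (.a1 .e)) .nil))))))) (.cons (.s T0 .x3) (.cons (.ofNat 236) (.a7 (.a5 .e)) (.cons (.ofNat 860) (.a7 (.a0 .e)) (.cons (.negSucc 457) (.a2 (.a5 .e)) (.cons (.ofNat 396) (.a2 (.a0 .e)) (.cons (.ofNat 14) (.a5 (.a7 .e)) (.cons (.ofNat 802) (.a5 (.a2 .e)) (.cons (.ofNat 879) (.a0 (.a2 .e)) .nil))))))) (.cons (.s T31 .x3) (.cons (.negSucc 371) (.a7 (.a0 .e)) (.cons (.ofNat 864) (.a2 (.a5 .e)) (.cons (.ofNat 508) (.a2 (.a0 .e)) (.cons (.negSucc 411) (.a5 (.a2 .e)) (.cons (.negSucc 421) (.a0 (.a2 .e)) .nil))))) (.cons (.s T3 .x4) (.cons (.negSucc 163) (.a7 (.a5 .e)) (.cons (.negSucc 715) (.a7 (.a0 .e)) (.cons (.ofNat 884) (.a2 (.a5 .e)) (.cons (.ofNat 588) (.a2 (.a0 .e)) (.cons (.negSucc 13) (.a5 (.a7 .e)) (.cons (.negSucc 611) (.a5 (.a2 .e)) (.cons (.negSucc 233)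 (.a0 (.a2 .e)) .nil))))))) (.cons (.s T0 .x2) (.cons (.ofNat 204) (.a8 (.a5 .e)) (.cons (.ofNat 608) (.a8 (.a0 .e)) (.cons (.negSucc 959) (.a3 (.a5 .e)) (.cons (.negSucc 705) (.a3 (.a0 .e)) (.cons (.negSucc 184) (.a5 (.a8 .e)) (.cons (.ofNat 412) (.a5 (.a3 .e)) (.cons (.ofNat 1039) (.a0 (.a3 .e)) .nil))))))) (.cons (.s T31 .x2) (.cons (.ofNat 140) (.a8 (.a5 .e)) (.cons (.negSucc 529) (.a8 (.a0 .e)) (.cons (.ofNat 1006) (.a3 (.a5 .e)) (.cons (.ofNat 254) (.a3 (.a0 .e)) (.cons (.negSucc 565) (.a5 (.a3 .e)) (.cons (.negSucc 1277) (.a0 (.a3 .e)) .nil)))))) (.cons (.s T16 .x4) (.cons (.ofNat 84) (.a8 (.a5 .e)) (.cons (.negSucc 654) (.a8 (.a0 .e)) (.cons (.ofNat 1005) (.a3 (.a5 .e)) (.cons (.ofNat 302) (.a3 (.a0 .e)) (.cons (.ofNat 185) (.a5 (.a8 .e)) (.cons (.negSucc 444) (.a5 (.a3 .e)) (.cons (.negSucc 1357) (.a0 (.a3 .e)) .nil))))))) (.cons (.s T3 .x2)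 (.cons (.negSucc 35) (.a9 (.a5 .e)) (.cons (.ofNat 24) (.a9 (.a0 .e)) (.cons (.negSucc 283) (.a4 (.a5 .e)) (.cons (.ofNat 262) (.a4 (.a0 .e)) (.cons (.negSucc 101) (.a5 (.a9 .e)) (.cons (.ofNat 375) (.a5 (.a4 .e)) (.cons (.ofNat 719) (.a0 (.a4 .e)) .nil))))))) (.cons (.s T35 .x2) (.cons (.ofNat 284) (.a9 (.a5 .e)) (.cons (.negSucc 55) (.a9 (.a0 .e)) (.cons (.ofNat 208) (.a4 (.a5 .e)) (.cons (.negSucc 181) (.a4 (.a0 .e)) (.cons (.negSucc 219) (.a5 (.a4 .e)) (.cons (.negSucc 743) (.a0 (.a4 .e)) .nil)))))) (.cons (.s T16 .x3) (.cons (.ofNat 480) (.a9 (.a5 .e)) (.cons (.ofNat 330) (.a9 (.a0 .e)) (.cons (.ofNat 176) (.a4 (.a5 .e)) (.cons (.negSucc 181) (.a4 (.a0 .e)) (.cons (.ofNat 102) (.a5 (.a9 .e)) (.cons (.negSucc 34) (.a5 (.a4 .e)) (.cons (.negSucc 864) (.a0 (.a4 .e)) .nil))))))) (.cons (.s T9 .x3) (.cons (.ofNat 242) (.a7 (.a6 .e)) (.cons (.ofNat 41)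 (.a7 (.a1 .e)) (.cons (.ofNat 8) (.a2 (.a6 .e)) (.cons (.ofNat 786) (.a2 (.a1 .e)) (.cons (.negSucc 473) (.a6 (.a7 .e)) (.cons (.ofNat 98) (.a6 (.a2 .e)) (.cons (.ofNat 718) (.a1 (.a2 .e)) .nil))))))) (.cons (.s T40 .x3) (.cons (.negSucc 23) (.a7 (.a6 .e)) (.cons (.negSucc 159) (.a7 (.a1 .e)) (.cons (.ofNat 364) (.a2 (.a6 .e)) (.cons (.negSucc 33) (.a2 (.a1 .e)) (.cons (.negSucc 287) (.a6 (.a2 .e)) (.cons (.negSucc 225) (.a1 (.a2 .e)) .nil)))))) (.cons (.s T26 .x4) (.cons (.negSucc 325) (.a7 (.a6 .e)) (.cons (.negSucc 38) (.a7 (.a1 .e)) (.cons (.ofNat 294) (.a2 (.a6 .e)) (.cons (.negSucc 5) (.a2 (.a1 .e)) (.cons (.ofNat 342) (.a6 (.a7 .e)) (.cons (.negSucc 33) (.a6 (.a2 .e)) (.cons (.negSucc 121) (.a1 (.a2 .e)) .nil))))))) (.cons (.s T9 .x2) (.cons (.ofNat 16) (.a8 (.a6 .e)) (.cons (.negSucc 275) (.a8 (.a1 .e)) (.cons (.negSucc 361) (.a3 (.a6 .e)) (.cons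 (.negSucc 100) (.a3 (.a1 .e)) (.cons (.negSucc 328) (.a6 (.a8 .e)) (.cons (.negSucc 135) (.a6 (.a3 .e)) (.cons (.ofNat 340) (.a1 (.a3 .e)) .nil))))))) (.cons (.s T40 .x2) (.cons (.negSucc 31) (.a8 (.a6 .e)) (.cons (.negSucc 117) (.a8 (.a1 .e)) (.cons (.ofNat 212) (.a3 (.a6 .e)) (.cons (.negSucc 268) (.a3 (.a1 .e)) (.cons (.negSucc 405) (.a6 (.a3 .e)) (.cons (.negSucc 641) (.a1 (.a3 .e)) .nil)))))) (.cons (.s T12 .x4) (.cons (.ofNat 8) (.a8 (.a6 .e)) (.cons (.ofNat 314) (.a8 (.a1 .e)) (.cons (.ofNat 302) (.a3 (.a6 .e)) (.cons (.negSucc 316) (.a3 (.a1 .e)) (.cons (.ofNat 407) (.a6 (.a8 .e)) (.cons (.ofNat 178) (.a6 (.a3 .e)) (.cons (.negSucc 565) (.a1 (.a3 .e)) .nil))))))) (.cons (.s T26 .x2) (.cons (.negSucc 59) (.a9 (.a6 .e)) (.cons (.negSucc 149) (.a9 (.a1 .e)) (.cons (.negSucc 119) (.a4 (.a6 .e)) (.cons (.negSucc 312) (.a4 (.a1 .e)) (.cons (.negSucc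 155) (.a6 (.a9 .e)) (.cons (.negSucc 54) (.a6 (.a4 .e)) (.cons (.ofNat 140) (.a1 (.a4 .e)) .nil))))))) (.cons (.s T49 .x2) (.cons (.ofNat 148) (.a9 (.a6 .e)) (.cons (.negSucc 53) (.a9 (.a1 .e)) (.cons (.ofNat 46) (.a4 (.a6 .e)) (.cons (.negSucc 222) (.a4 (.a1 .e)) (.cons (.negSucc 315) (.a6 (.a4 .e)) (.cons (.negSucc 455) (.a1 (.a4 .e)) .nil)))))) (.cons (.s T12 .x3) (.cons (.ofNat 204) (.a9 (.a6 .e)) (.cons (.ofNat 306) (.a9 (.a1 .e)) (.cons (.ofNat 4) (.a4 (.a6 .e)) (.cons (.negSucc 246) (.a4 (.a1 .e)) (.cons (.ofNat 216) (.a6 (.a9 .e)) (.cons (.ofNat 231) (.a6 (.a4 .e)) (.cons (.negSucc 363) (.a1 (.a4 .e)) .nil))))))) (.cons (.s T9 .x1) (.cons (.negSucc 411) (.a8 (.a7 .e)) (.cons (.negSucc 256) (.a8 (.a2 .e)) (.cons (.negSucc 298) (.a3 (.a7 .e)) (.cons (.ofNat 232) (.a3 (.a2 .e)) (.cons (.negSucc 177) (.a7 (.a8 .e)) (.cons (.negSucc 494) (.a7 (.a3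 .e)) (.cons (.ofNat 558) (.a2 (.a3 .e)) .nil))))))) (.cons (.s T40 .x1) (.cons (.ofNat 92) (.a8 (.a7 .e)) (.cons (.ofNat 159) (.a8 (.a2 .e)) (.cons (.ofNat 39) (.a3 (.a7 .e)) (.cons (.negSucc 373) (.a3 (.a2 .e)) (.cons (.ofNat 124) (.a7 (.a8 .e)) (.cons (.negSucc 144) (.a7 (.a3 .e)) (.cons (.negSucc 689) (.a2 (.a3 .e)) .nil))))))) (.cons (.s T80 .x4) (.cons (.ofNat 376) (.a8 (.a7 .e)) (.cons (.ofNat 519) (.a8 (.a2 .e)) (.cons (.ofNat 79) (.a3 (.a7 .e)) (.cons (.negSucc 433) (.a3 (.a2 .e)) (.cons (.ofNat 298) (.a7 (.a8 .e)) (.cons (.ofNat 345) (.a7 (.a3 .e)) (.cons (.negSucc 701) (.a2 (.a3 .e)) .nil))))))) (.cons (.s T26 .x1) (.cons (.negSucc 183) (.a9 (.a7 .e)) (.cons (.negSucc 73) (.a9 (.a2 .e)) (.cons (.negSucc 657) (.a4 (.a7 .e)) (.cons (.negSucc 303) (.a4 (.a2 .e)) (.cons (.negSucc 145) (.a7 (.a9 .e)) (.cons (.negSucc 361) (.a7 (.a4 .e)) (.cons (.ofNat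 195) (.a2 (.a4 .e)) .nil))))))) (.cons (.s T49 .x1) (.cons (.ofNat 44) (.a9 (.a7 .e)) (.cons (.negSucc 99) (.a9 (.a2 .e)) (.cons (.ofNat 352) (.a4 (.a7 .e)) (.cons (.negSucc 63) (.a4 (.a2 .e)) (.cons (.ofNat 104) (.a7 (.a9 .e)) (.cons (.negSucc 385) (.a7 (.a4 .e)) (.cons (.negSucc 398) (.a2 (.a4 .e)) .nil))))))) (.cons (.s T80 .x3) (.cons (.ofNat 148) (.a9 (.a7 .e)) (.cons (.negSucc 39) (.a9 (.a2 .e)) (.cons (.ofNat 456) (.a4 (.a7 .e)) (.cons (.negSucc 87) (.a4 (.a2 .e)) (.cons (.ofNat 218) (.a7 (.a9 .e)) (.cons (.negSucc 137) (.a7 (.a4 .e)) (.cons (.negSucc 422) (.a2 (.a4 .e)) .nil))))))) (.cons (.s T12 .x1) (.cons (.ofNat 190) (.a9 (.a8 .e)) (.cons (.negSucc 207) (.a9 (.a3 .e)) (.cons (.negSucc 298) (.a4 (.a8 .e)) (.cons (.negSucc 713) (.a4 (.a3 .e)) (.cons (.ofNat 30) (.a8 (.a9 .e)) (.cons (.negSucc 241) (.a8 (.a4 .e)) (.cons (.negSucc 572) (.a3 (.a4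 .e)) .nil))))))) (.cons (.s T81 .x1) (.cons (.ofNat 46) (.a9 (.a8 .e)) (.cons (.negSucc 303) (.a9 (.a3 .e)) (.cons (.ofNat 163) (.a4 (.a8 .e)) (.cons (.ofNat 120) (.a4 (.a3 .e)) (.cons (.ofNat 20) (.a8 (.a9 .e)) (.cons (.negSucc 393) (.a8 (.a4 .e)) (.cons (.ofNat 153) (.a3 (.a4 .e)) .nil))))))) (.cons (.s T80 .x2) (.cons (.negSucc 99) (.a9 (.a8 .e)) (.cons (.negSucc 473) (.a9 (.a3 .e)) (.cons (.ofNat 239) (.a4 (.a8 .e)) (.cons (.ofNat 72) (.a4 (.a3 .e)) (.cons (.negSucc 29) (.a8 (.a9 .e)) (.cons (.negSucc 497) (.a8 (.a4 .e)) (.cons (.ofNat 129) (.a3 (.a4 .e)) .nil))))))) (.cons (.rL .x4 .x2 .x3) (.cons (.negSucc 253) (.a6 (.a5 .e)) (.cons (.negSucc 55) (.a6 (.a0 .e)) (.cons (.negSucc 451) (.a1 (.a5 .e)) (.cons (.negSucc 419) (.a1 (.a0 .e)) (.cons (.ofNat 170) (.a5 (.a6 .e)) (.cons (.ofNat 368) (.a5 (.a1 .e)) (.cons (.ofNat 549) (.a0 (.a1 .e)) .nil)))))))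 (.cons (.rL .x4 .x1 .x3) (.cons (.negSucc 95) (.a7 (.a5 .e)) (.cons (.ofNat 360) (.a7 (.a0 .e)) (.cons (.negSucc 590) (.a2 (.a5 .e)) (.cons (.negSucc 17) (.a2 (.a0 .e)) (.cons (.ofNat 114) (.a5 (.a7 .e)) (.cons (.ofNat 870) (.a5 (.a2 .e)) (.cons (.ofNat 606) (.a0 (.a2 .e)) .nil))))))) (.cons (.rL .x4 .x1 .x2) (.cons (.ofNat 148) (.a8 (.a5 .e)) (.cons (.ofNat 817) (.a8 (.a0 .e)) (.cons (.negSucc 781) (.a3 (.a5 .e)) (.cons (.negSucc 467) (.a3 (.a0 .e)) (.cons (.negSucc 147) (.a5 (.a8 .e)) (.cons (.ofNat 665) (.a5 (.a3 .e)) (.cons (.ofNat 1284) (.a0 (.a3 .e)) .nil))))))) (.cons (.rL .x3 .x1 .x2) (.cons (.ofNat 168) (.a9 (.a5 .e)) (.cons (.ofNat 576) (.a9 (.a0 .e)) (.cons (.negSucc 104) (.a4 (.a5 .e)) (.cons (.ofNat 234) (.a4 (.a0 .e)) (.cons (.negSucc 113) (.a5 (.a9 .e)) (.cons (.ofNat 390) (.a5 (.a4 .e)) (.cons (.ofNat 867) (.a0 (.a4 .e)) .nil))))))) (.cons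 (.rL .x4 .x0 .x3) (.cons (.ofNat 212) (.a7 (.a6 .e)) (.cons (.ofNat 84) (.a7 (.a1 .e)) (.cons (.negSucc 30) (.a2 (.a6 .e)) (.cons (.ofNat 372) (.a2 (.a1 .e)) (.cons (.negSucc 217) (.a6 (.a7 .e)) (.cons (.ofNat 188) (.a6 (.a2 .e)) (.cons (.ofNat 324) (.a1 (.a2 .e)) .nil))))))) (.cons (.rL .x4 .x0 .x2) (.cons (.ofNat 246) (.a8 (.a6 .e)) (.cons (.ofNat 280) (.a8 (.a1 .e)) (.cons (.negSucc 65) (.a3 (.a6 .e)) (.cons (.ofNat 111) (.a3 (.a1 .e)) (.cons (.negSucc 137) (.a6 (.a8 .e)) (.cons (.ofNat 211) (.a6 (.a3 .e)) (.cons (.ofNat 297) (.a1 (.a3 .e)) .nil))))))) (.cons (.rL .x3 .x0 .x2) (.cons (.ofNat 212) (.a9 (.a6 .e)) (.cons (.ofNat 264) (.a9 (.a1 .e)) (.cons (.ofNat 152) (.a4 (.a6 .e)) (.cons (.negSucc 38) (.a4 (.a1 .e)) (.cons (.negSucc 139) (.a6 (.a9 .e)) (.cons (.ofNat 41) (.a6 (.a4 .e)) (.cons (.ofNat 114) (.a1 (.a4 .e)) .nil))))))) (.cons (.rL .x4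 .x0 .x1) (.cons (.negSucc 19) (.a8 (.a7 .e)) (.cons (.ofNat 160) (.a8 (.a2 .e)) (.cons (.negSucc 67) (.a3 (.a7 .e)) (.cons (.ofNat 246) (.a3 (.a2 .e)) (.cons (.negSucc 54) (.a7 (.a8 .e)) (.cons (.negSucc 33) (.a7 (.a3 .e)) (.cons (.ofNat 585) (.a2 (.a3 .e)) .nil))))))) (.cons (.rL .x3 .x0 .x1) (.cons (.negSucc 29) (.a9 (.a7 .e)) (.cons (.ofNat 201) (.a9 (.a2 .e)) (.cons (.negSucc 404) (.a4 (.a7 .e)) (.cons (.negSucc 173) (.a4 (.a2 .e)) (.cons (.negSucc 41) (.a7 (.a9 .e)) (.cons (.ofNat 42) (.a7 (.a4 .e)) (.cons (.ofNat 297) (.a2 (.a4 .e)) .nil))))))) (.cons (.rL .x2 .x0 .x1) (.cons (.ofNat 59) (.a9 (.a8 .e)) (.cons (.negSucc 176) (.a9 (.a3 .e)) (.cons (.negSucc 204) (.a4 (.a8 .e)) (.cons (.negSucc 464) (.a4 (.a3 .e)) (.cons (.ofNat 34) (.a8 (.a9 .e)) (.cons (.negSucc 165) (.a8 (.a4 .e)) (.cons (.negSucc 386) (.a3 (.a4 .e)) .nil))))))) (.cons (.s T0 T7)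 (.cons (.ofNat 220) (.a5 .e) (.cons (.ofNat 32) (.a0 .e) .nil)) (.cons (.s T0 T59) (.cons (.ofNat 56) (.a5 .e) (.cons (.ofNat 52) (.a0 .e) .nil)) (.cons (.s T31 T7) (.cons (.ofNat 80) (.a5 .e) (.cons (.ofNat 16) (.a0 .e) .nil)) (.cons (.s T31 T59) (.cons (.ofNat 80) (.a5 .e) (.cons (.ofNat 16) (.a0 .e) .nil)) (.cons (.s T3 T5) (.cons (.ofNat 116) (.a5 .e) (.cons (.negSucc 43) (.a0 .e) .nil)) (.cons (.s T3 T55) (.cons (.negSucc 23) (.a5 .e) .nil) (.cons (.s T9 T7) (.cons (.ofNat 212) (.a6 .e) (.cons (.negSucc 97) (.a1 .e) .nil)) (.cons (.s T9 T59) (.cons (.ofNat 136) (.a6 .e) (.cons (.negSucc 45) (.a1 .e) .nil)) (.cons (.s T40 T7) (.cons (.ofNat 160) (.a6 .e) (.cons (.negSucc 75) (.a1 .e) .nil)) (.cons (.s T40 T59) (.cons (.ofNat 88) (.a6 .e) (.cons (.negSucc 63) (.a1 .e) .nil)) (.cons (.s T26 T5) (.cons (.ofNat 112) (.a6 .e) (.cons (.negSucc 75) (.a1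 .e) .nil)) (.cons (.s T26 T55) (.cons (.ofNat 120) (.a6 .e) (.cons (.negSucc 35) (.a1 .e) .nil)) (.cons (.s T9 T3) (.cons (.ofNat 124) (.a7 .e) (.cons (.negSucc 213) (.a2 .e) .nil)) (.cons (.s T9 T35) (.cons (.ofNat 44) (.a7 .e) (.cons (.negSucc 121) (.a2 .e) .nil)) (.cons (.s T40 T3) (.cons (.negSucc 39) (.a7 .e) (.cons (.negSucc 139) (.a2 .e) .nil)) (.cons (.s T40 T35) (.cons (.negSucc 39) (.a7 .e) (.cons (.negSucc 31) (.a2 .e) .nil)) (.cons (.s T26 T0) (.cons (.ofNat 152) (.a7 .e) (.cons (.negSucc 55) (.a2 .e) .nil)) (.cons (.s T26 T31) (.cons (.ofNat 60) (.a7 .e) (.cons (.negSucc 107) (.a2 .e) .nil)) (.cons (.s T9 T16) (.cons (.ofNat 38) (.a8 .e) (.cons (.negSucc 181) (.a3 .e) .nil)) (.cons (.s T9 T79) (.cons (.negSucc 61) (.a8 .e) (.cons (.negSucc 117) (.a3 .e) .nil)) (.cons (.s T40 T16) (.cons (.negSucc 19) (.a8 .e) (.cons (.negSucc 207) (.a3 .e)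 .nil)) (.cons (.s T40 T79) (.cons (.ofNat 4) (.a8 .e) (.cons (.negSucc 87) (.a3 .e) .nil)) (.cons (.s T12 T0) (.cons (.ofNat 88) (.a8 .e) (.cons (.negSucc 27) (.a3 .e) .nil)) (.cons (.s T12 T31) (.cons (.negSucc 35) (.a8 .e) (.cons (.negSucc 95) (.a3 .e) .nil)) (.cons (.s T26 T16) (.cons (.ofNat 4) (.a9 .e) (.cons (.negSucc 183) (.a4 .e) .nil)) (.cons (.s T26 T79) (.cons (.negSucc 75) (.a9 .e) (.cons (.negSucc 91) (.a4 .e) .nil)) (.cons (.s T49 T16) (.cons (.negSucc 39) (.a9 .e) (.cons (.negSucc 163) (.a4 .e) .nil)) (.cons (.s T49 T79) (.cons (.negSucc 15) (.a9 .e) (.cons (.negSucc 91) (.a4 .e) .nil)) (.cons (.s T12 T3) (.cons (.ofNat 80) (.a9 .e) (.cons (.negSucc 91) (.a4 .e) .nil)) (.cons (.s T12 T35) (.cons (.negSucc 23) (.a9 .e) (.cons (.negSucc 71) (.a4 .e) .nil)) (.cons (.s T78 .x2) (.cons (.negSucc 167) (.a5 .e) (.cons (.negSucc 119) (.a0 .e)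 .nil)) (.cons (.s T77 .x2) (.cons (.negSucc 47) (.a5 .e) (.cons (.negSucc 23) (.a0 .e) .nil)) (.cons (.s T76 .x2) (.cons (.negSucc 119) (.a5 .e) (.cons (.negSucc 107) (.a0 .e) .nil)) (.cons (.s T75 .x3) (.cons (.negSucc 143) (.a5 .e) (.cons (.negSucc 119) (.a0 .e) .nil)) (.cons (.s T74 .x2) (.cons (.negSucc 47) (.a6 .e) (.cons (.ofNat 48) (.a1 .e) .nil)) (.cons (.s T73 .x2) (.cons (.ofNat 12) (.a6 .e) .nil) (.cons (.s T71 .x2) (.cons (.negSucc 59) (.a6 .e) (.cons (.ofNat 42) (.a1 .e) .nil)) (.cons (.s T70 .x3) (.cons (.negSucc 71) (.a6 .e) (.cons (.ofNat 24) (.a1 .e) .nil)) (.cons (.s T74 .x1) (.cons (.ofNat 108) (.a7 .e) (.cons (.ofNat 204) (.a2 .e) .nil)) (.cons (.s T73 .x1) (.cons (.ofNat 48) (.a7 .e) (.cons (.ofNat 36) (.a2 .e) .nil)) (.cons (.s T71 .x1) (.cons (.ofNat 48) (.a7 .e) (.cons (.ofNat 150) (.a2 .e) .nil)) (.cons (.s T67 .x3) (.cons (.ofNat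 60) (.a7 .e) (.cons (.ofNat 264) (.a2 .e) .nil)) (.cons (.s T70 .x1) (.cons (.ofNat 12) (.a8 .e) (.cons (.ofNat 324) (.a3 .e) .nil)) (.cons (.s T69 .x1) (.cons (.negSucc 11) (.a8 .e) (.cons (.ofNat 12) (.a3 .e) .nil)) (.cons (.s T68 .x1) (.cons (.ofNat 78) (.a8 .e) (.cons (.ofNat 342) (.a3 .e) .nil)) (.cons (.s T67 .x2) (.cons (.ofNat 12) (.a8 .e) (.cons (.ofNat 432) (.a3 .e) .nil)) (.cons (.s T66 .x1) (.cons (.ofNat 36) (.a9 .e) (.cons (.ofNat 336) (.a4 .e) .nil)) (.cons (.s T65 .x1) (.cons (.ofNat 60) (.a4 .e) .nil) (.cons (.s T64 .x1) (.cons (.ofNat 108) (.a9 .e) (.cons (.ofNat 324) (.a4 .e) .nil)) (.cons (.s T63 .x2) (.cons (.ofNat 84) (.a9 .e) (.cons (.ofNat 348) (.a4 .e) .nil)) (.cons (.lR T5 .x3 .x1) (.cons (.ofNat 48) (.a5 .e) (.cons (.ofNat 24) (.a0 .e) .nil)) (.cons (.lR T7 .x4 .x1) (.cons (.ofNat 144) (.a5 .e) (.cons (.ofNat 126) (.a0 .e)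 .nil)) (.cons (.lR T5 .x3 .x0) (.cons (.ofNat 18) (.a6 .e) (.cons (.ofNat 36) (.a1 .e) .nil)) (.cons (.lR T7 .x4 .x0) (.cons (.ofNat 66) (.a6 .e) (.cons (.ofNat 27) (.a1 .e) .nil)) (.cons (.lR T0 .x3 .x0) (.cons (.ofNat 54) (.a7 .e) (.cons (.ofNat 177) (.a2 .e) .nil)) (.cons (.lR T3 .x4 .x0) (.cons (.ofNat 30) (.a7 .e) .nil) (.cons (.lR T0 .x2 .x0) (.cons (.ofNat 48) (.a8 .e) (.cons (.ofNat 129) (.a3 .e) .nil)) (.cons (.lR T16 .x4 .x0) (.cons (.ofNat 27) (.a8 .e) (.cons (.negSucc 119) (.a3 .e) .nil)) (.cons (.lR T3 .x2 .x0) (.cons (.ofNat 72) (.a9 .e) (.cons (.ofNat 45) (.a4 .e) .nil)) (.cons (.lR T16 .x3 .x0) (.cons (.negSucc 5) (.a9 .e) (.cons (.negSucc 152) (.a4 .e) .nil)) (.cons (.s T62 .x1) (.cons (.negSucc 47) .e .nil) (.cons (.s T61 .x1) (.cons (.negSucc 11) .e .nil) (.cons (.s T58 .x1) (.cons (.negSucc 35) .e .nil) (.cons (.s T57 .x1) (.cons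 (.ofNat 24) .e .nil) (.cons (.s T54 .x1) (.cons (.negSucc 71) .e .nil) (.cons (.s T52 .x1) (.cons (.negSucc 107) .e .nil) (.cons (.s T51 .x1) (.cons (.negSucc 23) .e .nil) (.cons (.s T48 .x1) (.cons (.negSucc 107) .e .nil) (.cons (.s T47 .x1) (.cons (.negSucc 23) .e .nil) (.cons (.s T45 .x1) (.cons (.negSucc 35) .e .nil) (.cons (.s T44 .x1) (.cons (.negSucc 11) .e .nil) (.cons (.s T43 .x1) (.cons (.negSucc 23) .e .nil) (.cons (.s T42 .x1) (.cons (.negSucc 23) .e .nil) (.cons (.s T39 .x1) (.cons (.ofNat 36) .e .nil) (.cons (.s T37 .x2) (.cons (.ofNat 36) .e .nil) (.cons (.s T34 .x2) (.cons (.negSucc 47) .e .nil) (.cons (.s T33 .x2) (.cons (.ofNat 24) .e .nil) (.cons (.s T30 .x2) (.cons (.negSucc 23) .e .nil) (.cons (.s T28 .x2) (.cons (.negSucc 59) .e .nil) (.cons (.s T25 .x2) (.cons (.negSucc 83) .e .nil) (.cons (.s T23 .x2) (.cons (.negSucc 23) .e .nil)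 (.cons (.s T20 .x2) (.cons (.negSucc 35) .e .nil) (.cons (.s T18 .x3) (.cons (.negSucc 23) .e .nil) (.cons (.s T15 .x3) (.cons (.negSucc 59) .e .nil) (.cons (.s T14 .x3) (.cons (.negSucc 11) .e .nil) (.cons (.s T11 .x3) (.cons (.negSucc 11) .e .nil) (.cons (.rL T8 .x0 .x1) (.cons (.ofNat 42) .e .nil) (.cons (.rL T6 .x0 .x1) (.cons (.ofNat 36) .e .nil) (.cons (.rL T4 .x0 .x2) (.cons (.ofNat 54) .e .nil) (.cons (.rL T2 .x0 .x2) (.cons (.ofNat 24) .e .nil) (.cons (.rL T1 .x0 .x3) (.cons (.negSucc 11) .e .nil) .nil))))))))))))))))))))))))))))))))))))))))))))))))))))))))))))))))))))))))))))))))))))))))))))))))))))))))))))))))))))))))))))))))))))))))))))) C4 C10 C17 C25 C34 C43 C52 C61 C70 C79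

/-- the certificate -/
def cert : Cert := C80

/-- the element of degree six -/
def tgt : PC := (.cons (.ofNat 1) (.l .x0 (.l T166 .m)) (.cons (.negSucc 0) (.l .x0 (.l T164 .m)) (.cons (.ofNat 1) (.l .x0 (.l T162 .m)) (.cons (.negSucc 0) (.l .x0 (.l T161 .m)) (.cons (.ofNat 1) (.l .x0 (.l T160 .m)) (.cons (.negSucc 0) (.l .x0 (.l T159 .m)) (.cons (.ofNat 1) (.l .x0 (.l T157 .m)) (.cons (.ofNat 1) (.l .x0 (.l T156 .m)) (.cons (.negSucc 0) (.l .x0 (.l T155 .m)) (.cons (.negSucc 0) (.l .x0 (.l T154 .m)) (.cons (.ofNat 1) (.l .x0 (.l T153 .m)) (.cons (.negSucc 0) (.l .x0 (.l T151 .m)) (.cons (.negSucc 0) (.r (.l .x0 (.l T149 .m)) .x1) (.cons (.ofNat 1) (.r (.l .x0 (.l T148 .m)) .x1) (.cons (.negSucc 0) (.r (.r (.l .x0 (.l T72 .m)) .x2) .x1) (.cons (.ofNat 1) (.r (.r (.l T126 .m) .x2) .x1) (.cons (.negSucc 0) (.r (.r (.l .x0 (.l T55 .m)) .x3) .x1) (.cons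 (.ofNat 1) (.r (.r (.r (.l .x0 (.l .x4 .m)) .x2) .x3) .x1) (.cons (.negSucc 0) (.r (.r (.r (.l T40 .m) .x2) .x3) .x1) (.cons (.ofNat 1) (.r (.r (.l T106 .m) .x3) .x1) (.cons (.ofNat 1) (.r (.r (.r (.l .x0 (.l .x3 .m)) .x2) .x4) .x1) (.cons (.negSucc 0) (.r (.r (.r (.l T49 .m) .x2) .x4) .x1) (.cons (.ofNat 1) (.r (.l T147 .m) .x1) (.cons (.negSucc 0) (.r (.l T146 .m) .x1) (.cons (.negSucc 0) (.r (.l .x0 (.l T78 .m)) .x2) (.cons (.negSucc 0) (.r (.l .x0 (.l T76 .m)) .x2) (.cons (.ofNat 1) (.r (.l .x0 (.l T145 .m)) .x2) (.cons (.ofNat 1) (.r (.l .x0 (.l T144 .m)) .x2) (.cons (.ofNat 1) (.r (.r (.l .x0 (.l T21 .m)) .x1) .x2) (.cons (.negSucc 0) (.r (.r (.r (.l .x0 (.l .x3 .m)) .x4) .x1) .x2) (.cons (.ofNat 1) (.r (.r (.r (.l T49 .m) .x4) .x1) .x2) (.cons (.negSucc 0) (.r (.r (.l T142 .m) .x1) .x2) (.cons (.ofNat 1) (.r (.r (.l .x0 (.l T0 .m)) .x3) .x2) (.cons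 (.negSucc 0) (.r (.r (.l .x0 (.l T31 .m)) .x3) .x2) (.cons (.negSucc 0) (.r (.r (.l T123 .m) .x3) .x2) (.cons (.ofNat 1) (.r (.r (.l T120 .m) .x3) .x2) (.cons (.negSucc 0) (.r (.r (.l .x0 (.r (.l .x1 .m) .x3)) .x4) .x2) (.cons (.ofNat 1) (.r (.r (.l .x0 (.l T3 .m)) .x4) .x2) (.cons (.negSucc 0) (.r (.r (.l .x0 (.l T35 .m)) .x4) .x2) (.cons (.ofNat 1) (.r (.r (.r (.l T82 .m) .x3) .x4) .x2) (.cons (.negSucc 0) (.r (.r (.l T114 .m) .x4) .x2) (.cons (.ofNat 1) (.r (.r (.l T89 .m) .x4) .x2) (.cons (.ofNat 1) (.r (.l T143 .m) .x2) (.cons (.ofNat 1) (.r (.l T124 .m) .x2) (.cons (.negSucc 0) (.r (.l T121 .m) .x2) (.cons (.ofNat 1) (.r (.l T118 .m) .x2) (.cons (.negSucc 1) (.r (.l T112 .m) .x2) (.cons (.negSucc 0) (.r (.l .x0 (.l T75 .m)) .x3) (.cons (.negSucc 0) (.r (.l .x0 (.l T141 .m)) .x3) (.cons (.ofNat 1) (.r (.l .x0 (.l T140 .m)) .x3) (.cons (.ofNat 1)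 (.r (.l .x0 (.l T139 .m)) .x3) (.cons (.ofNat 1) (.r (.r (.l .x0 (.l T5 .m)) .x1) .x3) (.cons (.negSucc 0) (.r (.r (.l T109 .m) .x1) .x3) (.cons (.ofNat 1) (.r (.r (.l .x0 (.l T0 .m)) .x2) .x3) (.cons (.negSucc 0) (.r (.r (.l .x0 (.l T31 .m)) .x2) .x3) (.cons (.negSucc 0) (.r (.r (.r (.l .x0 (.l .x4 .m)) .x1) .x2) .x3) (.cons (.ofNat 1) (.r (.r (.r (.l T40 .m) .x1) .x2) .x3) (.cons (.ofNat 1) (.r (.r (.r (.l .x0 (.l .x1 .m)) .x4) .x2) .x3) (.cons (.negSucc 0) (.r (.r (.r (.l T82 .m) .x4) .x2) .x3) (.cons (.negSucc 0) (.r (.r (.l T123 .m) .x2) .x3) (.cons (.ofNat 1) (.r (.r (.l T120 .m) .x2) .x3) (.cons (.negSucc 0) (.r (.r (.l .x0 (.r (.l .x1 .m) .x2)) .x4) .x3) (.cons (.ofNat 1) (.r (.r (.l .x0 (.l T16 .m)) .x4) .x3) (.cons (.negSucc 0) (.r (.r (.l .x0 (.l T79 .m)) .x4) .x3) (.cons (.negSucc 0) (.r (.r (.r (.l .x0 (.l .x2 .m)) .x1) .x4) .x3) (.cons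 (.ofNat 1) (.r (.r (.r (.l T81 .m) .x1) .x4) .x3) (.cons (.ofNat 1) (.r (.r (.r (.l T82 .m) .x2) .x4) .x3) (.cons (.negSucc 0) (.r (.r (.l T86 .m) .x4) .x3) (.cons (.ofNat 1) (.r (.r (.l T83 .m) .x4) .x3) (.cons (.ofNat 1) (.r (.l T110 .m) .x3) (.cons (.ofNat 1) (.r (.l T107 .m) .x3) (.cons (.ofNat 1) (.r (.l T104 .m) .x3) (.cons (.negSucc 0) (.r (.l T101 .m) .x3) (.cons (.negSucc 1) (.r (.l T138 .m) .x3) (.cons (.negSucc 0) (.r (.l .x0 (.l T137 .m)) .x4) (.cons (.ofNat 1) (.r (.l .x0 (.l T95 .m)) .x4) (.cons (.ofNat 1) (.r (.r (.r (.l .x0 (.l .x2 .m)) .x3) .x1) .x4) (.cons (.negSucc 0) (.r (.r (.r (.l T81 .m) .x3) .x1) .x4) (.cons (.ofNat 1) (.r (.r (.l .x0 (.r (.l .x1 .m) .x3)) .x2) .x4) (.cons (.negSucc 0) (.r (.r (.r (.l T82 .m) .x3) .x2) .x4) (.cons (.negSucc 0) (.r (.r (.l T117 .m) .x2) .x4) (.cons (.ofNat 1) (.r (.r (.l T89 .m) .x2) .x4) (.cons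 (.ofNat 1) (.r (.r (.l .x0 (.r (.l .x1 .m) .x2)) .x3) .x4) (.cons (.negSucc 0) (.r (.r (.r (.l .x0 (.l .x1 .m)) .x2) .x3) .x4) (.cons (.negSucc 0) (.r (.r (.l T103 .m) .x3) .x4) (.cons (.ofNat 1) (.r (.r (.l T83 .m) .x3) .x4) (.cons (.ofNat 1) (.r (.l T99 .m) .x4) (.cons (.ofNat 1) (.r (.l T96 .m) .x4) (.cons (.ofNat 1) (.r (.l T136 .m) .x4) (.cons (.negSucc 0) (.r (.l T134 .m) .x4) (.cons (.negSucc 0) (.r (.l T133 .m) .x4) (.cons (.negSucc 0) (.r (.l T84 .m) .x4) (.cons (.negSucc 0) (.l T132 .m) (.cons (.ofNat 1) (.l T130 .m) (.cons (.negSucc 0) (.l T128 .m) (.cons (.ofNat 1) (.l T125 .m) (.cons (.negSucc 0) (.l T122 .m) (.cons (.ofNat 1) (.l T119 .m) (.cons (.ofNat 1) (.l T116 .m) (.cons (.negSucc 0) (.l T113 .m) (.cons (.negSucc 0) (.l T111 .m) (.cons (.negSucc 0) (.l T108 .m) (.cons (.ofNat 1) (.l T105 .m) (.cons (.ofNat 1) (.l T102 .m) (.cons (.negSucc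 0) (.l T100 .m) (.cons (.negSucc 0) (.l T97 .m) (.cons (.negSucc 0) (.l T94 .m) (.cons (.ofNat 1) (.l T91 .m) (.cons (.ofNat 1) (.l T88 .m) (.cons (.ofNat 1) (.l T85 .m) .nil))))))))))))))))))))))))))))))))))))))))))))))))))))))))))))))))))))))))))))))))))))))))))))))))))))))))))))))

end Pool.Agent.W414.AT
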