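import Pool.Agent.W414.AT.Wit
import Pool.Agent.W414.AT.Check
import Pool.Agent.Helper928.Nuc.Free
set_option autoImplicit false

/-! The element of degree six in the free alternative algebra. -/

namespace Pool.Agent.W414.AT
open Pool.Agent.Helper928.Nuc.Free

section map
variable {A B : Type} [NonUnitalNonAssocRing A] [NonUnitalNonAssocRing B]
  {F : Type} [FunLike F A B] [MulHomClass F A B] [AddMonoidHomClass F A B] (g : F)

omit [AddMonoidHomClass F A B] in
theorem Tr.map_val (x : Fin 5 → A) (t : Tr) : g (t.val x) = t.val (fun i => g (x i)) := by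
  induction t with
  | x0 => rfl
  | x1 => rfl
  | x2 => rfl
  | x3 => rfl
  | x4 => rfl
  | m a b iha ihb => rw [Tr.val, Tr.val, map_mul, iha, ihb]

omit [AddMonoidHomClass F A B] in
theorem PT.map_val (x : Fin 5 → A) (y : A) (t : PT) : g (t.val x y) = t.val (fun i => g (x i)) (g y) := by
  induction t with
  | m => rfl
  | l t p ih => rw [PT.val, PT.val, map_mul, Tr.map_val, ih]
  | r p t ih => rw [PT.val, PT.val, map_mul, Tr.map_val, ih]

theorem PC.map_val (x : Fin 5 → A) (y : A) (t : PC) : g (t.val x y) = t.val (fun i => g (x i)) (g y) := by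
  induction t with
  | nil => rw [PC.val, PC.val, map_zero]
  | cons k p l ih => rw [PC.val, PC.val, map_add, map_zsmul, PT.map_val, ih]

end map

variable (Φ : Type) [CommRing Φ]

/-- the ring of coefficients of the witness -/
abbrev KK : Type := Φ ⧸ (Ideal.span {(3 : Φ)})

theorem KK_three : (3 : KK Φ) = 0 := by
  have h : (Ideal.Quotient.mk (Ideal.span {(3 : Φ)})) 3 = 0 :=
    Ideal.Quotient.eq_zero_iff_mem.mpr (Ideal.subset_span rfl)
  rw [map_ofNat] at h
  exact h

noncomputable instance : Module Φ (W (KK Φ)) := inferInstanceAs (Module Φ (Fin 49 → KK Φ))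

theorem smul_eq (r : Φ) (u : W (KK Φ)) : r • u = (Ideal.Quotient.mk (Ideal.span {(3 : Φ)}) r) • u := by
  funext k
  show r • (u k) = (Ideal.Quotient.mk (Ideal.span {(3 : Φ)}) r) • (u k)
  rw [Algebra.smul_def]; rfl

instance : IsScalarTower Φ (W (KK Φ)) (W (KK Φ)) := ⟨by
  intro r u v
  rw [smul_eq, smul_eq, smul_eq_mul, smul_eq_mul, W_mul, W_mul]
  exact (congrFun (congrArg DFunLike.coe (map_smul (mulB (KK Φ) tab) _ u)) v)⟩

instance : SMulCommClass Φ (W (KK Φ)) (W (KK Φ)) := ⟨by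
  intro r u v
  rw [smul_eq, smul_eq, smul_eq_mul, smul_eq_mul, W_mul, W_mul]
  exact (map_smul _ _ _).symm⟩

/-- the last coordinate as a `Φ`-linear map -/
noncomputable def lastΦ : W (KK Φ) →ₗ[Φ] KK Φ := (LinearMap.proj 48 : (Fin 49 → KK Φ) →ₗ[Φ] KK Φ)

variable {Φ} {X : Type} (ι : Fin 6 ↪ X)

/-- the element of degree six in the free alternative algebra -/
noncomputable def elt (Φ : Type) [CommRing Φ] (ι : Fin 6 ↪ X) : FreeAlt Φ X :=
  tgt.val (fun i : Fin 5 => FreeAlt.gen (ι i.castSucc)) (FreeAlt.gen (ι 5))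

theorem elt_torsion : (24 : ℤ) • elt Φ ι = 0 :=
  cert_sound _ ⟨fun a b => (FreeAlt.alternative a b).1, fun a b => (FreeAlt.alternative a b).2⟩ cert tgt 24 check _

open Classical in
/-- a linear functional with value one on the element -/
theorem exists_functional (Φ : Type) [CommRing Φ] : ∃ g : FreeAlt Φ X →ₗ[Φ] KK Φ, g (elt Φ ι) = 1 := by
  have h3 := KK_three Φ
  let f : X → W (KK Φ) := fun x => if h : ∃ i, ι i = x then wb (KK Φ) (h.choose : Fin 6) else 0
  have hf : ∀ i : Fin 6, f (ι i) = wb (KK Φ) i := by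
    intro i
    have h : ∃ j, ι j = ι i := ⟨i, rfl⟩
    have : h.choose = i := ι.injective h.choose_spec
    show (if h : ∃ j, ι j = ι i then wb (KK Φ) (h.choose : Fin 6) else 0) = _
    rw [dif_pos h, this]
  let F : FreeAlt Φ X →ₙₐ[Φ] W (KK Φ) :=
    FreeAlt.lift (fun a b => ⟨(W_alt h3).left a b, (W_alt h3).right a b⟩) f
  have hF : ∀ x, F (FreeAlt.gen x) = f x := FreeAlt.lift_gen _ f
  let G : FreeAlt Φ X →ₗ[Φ] KK Φ :=
    (lastΦ Φ).comp ({ toFun := F, map_add' := map_add F, map_smul' := map_smul F } : FreeAlt Φ X →ₗ[Φ] W (KK Φ))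
  have key : ∀ a, G a = lastc (KK Φ) (F a) := fun a => rfl
  refine ⟨G, ?_⟩
  rw [key, elt, PC.map_val, hF, hf]
  have h5 : (fun i : Fin 5 => F (FreeAlt.gen (ι i.castSucc))) = wx (KK Φ) := by
    funext i
    rw [hF, hf]; rfl
  have h6 : ((5 : Fin 6) : ℕ) = 5 := rfl
  rw [h5, h6]
  exact tgt_val h3

end Pool.Agent.W414.AT
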