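import Pool.Agent.W414.AT.Word
set_option autoImplicit false

/-! Soundness of the operator words in alternative rings. -/

namespace Pool.Agent.W414.AT
open Po

/-- alternative rings -/
structure IsAlt (R : Type) [NonUnitalNonAssocRing R] : Prop where
  left : ∀ a b : R, (a * a) * b = a * (a * b)
  right : ∀ a b : R, (b * a) * a = b * (a * a)

variable {R : Type} [NonUnitalNonAssocRing R]

/-- the associator -/
def as (a b c : R) : R := (a * b) * c - a * (b * c)

theorem IsAlt.as_left (h : IsAlt R) (a b c : R) : as a b c + as b a c = 0 := by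
  have h1 := h.left (a + b) c
  have h2 := h.left a c
  have h3 := h.left b c
  simp only [add_mul, mul_add] at h1
  rw [h2, h3] at h1
  have h4 : a * b * c + b * a * c = a * (b * c) + b * (a * c) := by
    linear_combination (norm := abel) h1
  unfold as
  linear_combination (norm := abel) h4

theorem IsAlt.as_right (h : IsAlt R) (a b c : R) : as a b c + as a c b = 0 := by
  have h1 := h.right (b + c) a
  have h2 := h.right b a
  have h3 := h.right c a
  simp only [add_mul, mul_add] at h1
  rw [h2, h3] at h1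
  have h4 : a * b * c + a * c * b = a * (b * c) + a * (c * b) := by
    linear_combination (norm := abel) h1
  unfold as
  linear_combination (norm := abel) h4

/-- right multiplication -/
def rx (a : R) : AddMonoid.End R := AddMonoidHom.mulRight a
/-- left multiplication -/
def lx (a : R) : AddMonoid.End R := AddMonoidHom.mulLeft a

@[simp] theorem rx_apply (a m : R) : rx a m = m * a := rfl
@[simp] theorem lx_apply (a m : R) : lx a m = a * m := rfl

/-- the ten operators -/
def ops (x : Fin 5 → R) : Fin 10 → AddMonoid.End R :=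
  ![rx (x 0), rx (x 1), rx (x 2), rx (x 3), rx (x 4), lx (x 0), lx (x 1), lx (x 2), lx (x 3), lx (x 4)]

variable (x : Fin 5 → R)

theorem ev_l0 : ev (ops x) l0 = rx (x 0) := by simp [l0, ev, ops]
theorem ev_l1 : ev (ops x) l1 = rx (x 1) := by simp [l1, ev, ops]
theorem ev_l2 : ev (ops x) l2 = rx (x 2) := by simp [l2, ev, ops]
theorem ev_l3 : ev (ops x) l3 = rx (x 3) := by simp [l3, ev, ops]
theorem ev_l4 : ev (ops x) l4 = rx (x 4) := by simp [l4, ev, ops]
theorem ev_l5 : ev (ops x) l5 = lx (x 0) := by simp [l5, ev, ops]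
theorem ev_l6 : ev (ops x) l6 = lx (x 1) := by simp [l6, ev, ops]
theorem ev_l7 : ev (ops x) l7 = lx (x 2) := by simp [l7, ev, ops]
theorem ev_l8 : ev (ops x) l8 = lx (x 3) := by simp [l8, ev, ops]
theorem ev_l9 : ev (ops x) l9 = lx (x 4) := by simp [l9, ev, ops]

theorem ev_neg (s : Po) : ev (ops x) (smul (.negSucc 0) s) = - ev (ops x) s := by
  rw [ev_smul]; show (-1 : ℤ) • _ = _; rw [neg_smul, one_smul]

/-- the operator `m ↦ (a, m, b)` -/
def ax (a b : R) : AddMonoid.End R := rx b * lx a - lx a * rx b

theorem ax_apply (a b m : R) : ax a b m = as a m b := rfl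

theorem Aop_sound {la rb : Po} {a b : R} (ha : ev (ops x) la = lx a) (hb : ev (ops x) rb = rx b) :
    ev (ops x) (Aop la rb) = ax a b := by
  unfold Aop ax
  rw [ev_add, ev_neg, ev_mul, ev_mul, ha, hb]; abel

variable (hR : IsAlt R)
include hR

theorem rx_mul (a b : R) : rx (a * b) = rx b * rx a + ax a b := by
  ext m
  show m * (a * b) = (m * a) * b + as a m b
  have h := hR.as_left a m b
  unfold as at *
  linear_combination (norm := abel) -h

theorem lx_mul (a b : R) : lx (a * b) = lx a * lx b - ax a b := by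
  ext m
  show (a * b) * m = a * (b * m) - as a m b
  have h := hR.as_right a m b
  unfold as at *
  linear_combination (norm := abel) h

theorem ax_skew (a b : R) : ax a b + ax b a = 0 := by
  ext m
  show as a m b + as b m a = 0
  have h1 := hR.as_left a m b
  have h2 := hR.as_right m a b
  have h3 := hR.as_left m b a
  linear_combination (norm := abel) h1 + h3 - h2

theorem RL_sound (t : Tr) : ev (ops x) (Rp t) = rx (t.val x) ∧ ev (ops x) (Lp t) = lx (t.val x) := by
  induction t with
  | x0 => exact ⟨ev_l0 x, ev_l5 x⟩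
  | x1 => exact ⟨ev_l1 x, ev_l6 x⟩
  | x2 => exact ⟨ev_l2 x, ev_l7 x⟩
  | x3 => exact ⟨ev_l3 x, ev_l8 x⟩
  | x4 => exact ⟨ev_l4 x, ev_l9 x⟩
  | m a b iha ihb =>
    obtain ⟨ra, la⟩ := iha
    obtain ⟨rb, lb⟩ := ihb
    have A := Aop_sound x la rb
    constructor
    · rw [Rp_m, ev_add, ev_mul, ra, rb, A, Tr.val, rx_mul hR]
    · rw [Lp_m, ev_add, ev_neg, ev_mul, la, lb, A, Tr.val, lx_mul hR, sub_eq_add_neg]

theorem asR_sound (a b c : Tr) : ev (ops x) (asR a b c) = rx (as (a.val x) (b.val x) (c.val x)) := by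
  unfold asR
  rw [ev_add, ev_neg, (RL_sound x hR _).1, (RL_sound x hR _).1]
  ext m
  show m * _ + -(m * _) = m * _
  rw [as, mul_sub, sub_eq_add_neg]; rfl

theorem asL_sound (a b c : Tr) : ev (ops x) (asL a b c) = lx (as (a.val x) (b.val x) (c.val x)) := by
  unfold asL
  rw [ev_add, ev_neg, (RL_sound x hR _).2, (RL_sound x hR _).2]
  ext m
  show _ * m + -(_ * m) = _ * m
  rw [as, sub_mul, sub_eq_add_neg]; rfl

theorem core_sound (c : Core) : ev (ops x) c.po = 0 := by
  cases c with
  | s a b =>
    show ev (ops x) (add (Aop (Lp a) (Rp b)) (Aop (Lp b) (Rp a))) = 0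
    rw [ev_add, Aop_sound x (RL_sound x hR a).2 (RL_sound x hR b).1,
      Aop_sound x (RL_sound x hR b).2 (RL_sound x hR a).1, ax_skew hR]
  | lR a b c =>
    show ev (ops x) (add (asR a b c) (asR b a c)) = 0
    rw [ev_add, asR_sound x hR, asR_sound x hR]
    ext m
    show m * _ + m * _ = 0
    rw [← mul_add, hR.as_left, mul_zero]
  | lL a b c =>
    show ev (ops x) (add (asL a b c) (asL b a c)) = 0
    rw [ev_add, asL_sound x hR, asL_sound x hR]
    ext m
    show _ * m + _ * m = 0
    rw [← add_mul, hR.as_left, zero_mul]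
  | rR a b c =>
    show ev (ops x) (add (asR a b c) (asR a c b)) = 0
    rw [ev_add, asR_sound x hR, asR_sound x hR]
    ext m
    show m * _ + m * _ = 0
    rw [← mul_add, hR.as_right, mul_zero]
  | rL a b c =>
    show ev (ops x) (add (asL a b c) (asL a c b)) = 0
    rw [ev_add, asL_sound x hR, asL_sound x hR]
    ext m
    show _ * m + _ * m = 0
    rw [← add_mul, hR.as_right, zero_mul]

end Pool.Agent.W414.AT
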