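import Pool.Agent.W414.AT.WitDef
import Pool.Agent.W414.AT.Data
set_option autoImplicit false
set_option maxRecDepth 100000

/-! The multiplication table of the witness algebra, and the kernel checks. -/

namespace Pool.Agent.W414.AT

def R0 : AL := (.cons 3 (.cons 6 1 .nil) (.cons 4 (.cons 9 1 .nil) (.cons 5 (.cons 13 1 .nil) (.cons 8 (.cons 17 2 .nil) (.cons 10 (.cons 18 2 .nil) (.cons 12 (.cons 20 2 .nil) (.cons 15 (.cons 24 2 .nil) (.cons 16 (.cons 28 2 .nil) (.cons 21 (.cons 33 1 .nil) (.cons 23 (.cons 34 1 .nil) (.cons 26 (.cons 36 1 .nil) (.cons 27 (.cons 37 1 .nil) (.cons 30 (.cons 39 2 .nil) (.cons 31 (.cons 40 2 .nil) (.cons 32 (.cons 42 1 .nil) (.cons 43 (.cons 45 1 .nil) (.cons 44 (.cons 46 2 .nil) (.cons 47 (.cons 48 2 .nil) .nil))))))))))))))))))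
def R1 : AL := (.cons 3 (.cons 7 1 .nil) (.cons 4 (.cons 10 1 .nil) (.cons 5 (.cons 14 1 .nil) (.cons 9 (.cons 18 1 .nil) (.cons 11 (.cons 19 2 .nil) (.cons 12 (.cons 21 2 (.cons 22 2 .nil)) (.cons 16 (.cons 29 2 (.cons 30 2 .nil)) (.cons 20 (.cons 33 2 .nil) (.cons 23 (.cons 35 1 .nil) (.cons 25 (.cons 36 2 .nil) (.cons 27 (.cons 38 1 .nil) (.cons 28 (.cons 39 1 .nil) (.cons 31 (.cons 41 2 .nil) (.cons 32 (.cons 43 2 .nil) (.cons 42 (.cons 45 1 .nil) (.cons 44 (.cons 47 1 .nil) (.cons 46 (.cons 48 2 .nil) .nil)))))))))))))))))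
def R2 : AL := (.cons 3 (.cons 8 1 .nil) (.cons 4 (.cons 11 1 .nil) (.cons 5 (.cons 15 1 .nil) (.cons 6 (.cons 17 1 .nil) (.cons 10 (.cons 19 1 .nil) (.cons 12 (.cons 23 2 .nil) (.cons 13 (.cons 24 1 .nil) (.cons 16 (.cons 31 2 .nil) (.cons 20 (.cons 34 2 .nil) (.cons 21 (.cons 35 2 .nil) (.cons 25 (.cons 37 2 .nil) (.cons 26 (.cons 38 2 .nil) (.cons 28 (.cons 40 1 .nil) (.cons 30 (.cons 41 1 .nil) (.cons 32 (.cons 44 1 .nil) (.cons 42 (.cons 46 1 .nil) (.cons 43 (.cons 47 1 .nil) (.cons 45 (.cons 48 1 .nil) .nil))))))))))))))))))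
def R3 : AL := (.cons 0 (.cons 6 1 .nil) (.cons 1 (.cons 7 1 .nil) (.cons 2 (.cons 8 1 .nil) (.cons 4 (.cons 12 1 .nil) (.cons 9 (.cons 20 1 .nil) (.cons 10 (.cons 21 1 .nil) (.cons 11 (.cons 23 1 .nil) (.cons 13 (.cons 25 1 .nil) (.cons 14 (.cons 26 1 .nil) (.cons 15 (.cons 27 1 .nil) (.cons 16 (.cons 32 2 .nil) (.cons 18 (.cons 33 1 .nil) (.cons 19 (.cons 35 1 .nil) (.cons 24 (.cons 37 1 .nil) (.cons 29 (.cons 43 2 .nil) (.cons 30 (.cons 43 1 .nil) (.cons 39 (.cons 45 1 .nil) (.cons 40 (.cons 46 1 .nil) (.cons 41 (.cons 47 2 .nil) .nil)))))))))))))))))))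
def R4 : AL := (.cons 0 (.cons 9 1 .nil) (.cons 1 (.cons 10 1 .nil) (.cons 2 (.cons 11 1 .nil) (.cons 3 (.cons 12 1 .nil) (.cons 5 (.cons 16 1 .nil) (.cons 7 (.cons 22 1 .nil) (.cons 14 (.cons 29 1 .nil) (.cons 17 (.cons 34 1 .nil) (.cons 24 (.cons 40 2 .nil) (.cons 25 (.cons 42 1 .nil) (.cons 27 (.cons 44 1 .nil) (.cons 36 (.cons 45 1 .nil) (.cons 37 (.cons 46 1 .nil) (.cons 38 (.cons 47 2 .nil) .nil))))))))))))))
def R5 : AL := (.cons 0 (.cons 13 1 .nil) (.cons 1 (.cons 14 1 .nil) (.cons 2 (.cons 15 1 .nil) (.cons 4 (.cons 16 1 .nil) (.cons 6 (.cons 25 2 .nil) (.cons 7 (.cons 26 2 .nil) (.cons 8 (.cons 27 2 .nil) (.cons 9 (.cons 28 1 .nil) (.cons 10 (.cons 30 1 .nil) (.cons 11 (.cons 31 1 .nil) (.cons 12 (.cons 32 1 .nil) (.cons 17 (.cons 37 2 .nil) (.cons 18 (.cons 39 2 .nil) (.cons 19 (.cons 41 2 .nil) (.cons 21 (.cons 43 2 .nil) (.cons 22 (.cons 43 1 .nil)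 (.cons 33 (.cons 45 1 .nil) (.cons 34 (.cons 46 1 .nil) (.cons 35 (.cons 47 2 .nil) .nil)))))))))))))))))))
def R6 : AL := (.cons 2 (.cons 17 1 .nil) (.cons 5 (.cons 25 2 .nil) (.cons 11 (.cons 34 2 .nil) (.cons 14 (.cons 36 2 .nil) (.cons 16 (.cons 42 1 .nil) (.cons 29 (.cons 45 1 .nil) (.cons 31 (.cons 46 1 .nil) (.cons 41 (.cons 48 2 .nil) .nil))))))))
def R7 : AL := (.cons 4 (.cons 22 1 .nil) (.cons 5 (.cons 26 2 .nil) (.cons 13 (.cons 36 1 .nil) (.cons 15 (.cons 38 2 .nil) (.cons 16 (.cons 43 2 .nil) (.cons 28 (.cons 45 2 .nil) (.cons 31 (.cons 47 2 .nil) (.cons 40 (.cons 48 1 .nil) .nil))))))))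
def R8 : AL := (.cons 0 (.cons 17 2 .nil) (.cons 5 (.cons 27 2 .nil) (.cons 9 (.cons 34 1 .nil) (.cons 14 (.cons 38 1 .nil) (.cons 16 (.cons 44 1 .nil) (.cons 28 (.cons 46 2 .nil) (.cons 29 (.cons 47 1 .nil) (.cons 39 (.cons 48 2 .nil) .nil))))))))
def R9 : AL := (.cons 1 (.cons 18 1 .nil) (.cons 3 (.cons 20 1 .nil) (.cons 5 (.cons 28 1 .nil) (.cons 8 (.cons 34 1 .nil) (.cons 15 (.cons 40 2 .nil) (.cons 26 (.cons 45 2 .nil) (.cons 38 (.cons 48 2 .nil) .nil)))))))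
def R10 : AL := (.cons 0 (.cons 18 2 .nil) (.cons 2 (.cons 19 1 .nil) (.cons 3 (.cons 21 1 .nil) (.cons 5 (.cons 30 1 .nil) (.cons 37 (.cons 48 1 .nil) .nil)))))
def R11 : AL := (.cons 1 (.cons 19 2 .nil) (.cons 3 (.cons 23 1 .nil) (.cons 5 (.cons 31 1 .nil) (.cons 6 (.cons 34 2 .nil) (.cons 13 (.cons 40 1 .nil) (.cons 26 (.cons 47 2 .nil) (.cons 36 (.cons 48 2 .nil) .nil)))))))
def R12 : AL := (.cons 0 (.cons 20 2 .nil) (.cons 1 (.cons 21 2 (.cons 22 2 .nil)) (.cons 2 (.cons 23 2 .nil) (.cons 5 (.cons 32 1 .nil) (.cons 13 (.cons 42 2 .nil) (.cons 14 (.cons 43 1 .nil) (.cons 15 (.cons 44 2 .nil) .nil)))))))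
def R13 : AL := (.cons 2 (.cons 24 1 .nil) (.cons 3 (.cons 25 1 .nil) (.cons 7 (.cons 36 1 .nil) (.cons 11 (.cons 40 1 .nil) (.cons 12 (.cons 42 2 .nil) (.cons 22 (.cons 45 2 .nil) (.cons 23 (.cons 46 2 .nil) (.cons 35 (.cons 48 2 .nil) .nil))))))))
def R14 : AL := (.cons 3 (.cons 26 1 .nil) (.cons 4 (.cons 29 1 .nil) (.cons 6 (.cons 36 2 .nil) (.cons 8 (.cons 38 1 .nil) (.cons 12 (.cons 43 1 .nil) (.cons 20 (.cons 45 1 .nil) (.cons 23 (.cons 47 1 .nil) (.cons 34 (.cons 48 1 .nil) .nil))))))))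
def R15 : AL := (.cons 0 (.cons 24 2 .nil) (.cons 3 (.cons 27 1 .nil) (.cons 7 (.cons 38 2 .nil) (.cons 9 (.cons 40 2 .nil) (.cons 12 (.cons 44 2 .nil) (.cons 20 (.cons 46 1 .nil) (.cons 22 (.cons 47 2 .nil) (.cons 33 (.cons 48 2 .nil) .nil))))))))
def R16 : AL := (.cons 0 (.cons 28 2 .nil) (.cons 1 (.cons 29 2 (.cons 30 2 .nil)) (.cons 2 (.cons 31 2 .nil) (.cons 3 (.cons 32 2 .nil) (.cons 6 (.cons 42 1 .nil) (.cons 7 (.cons 43 2 .nil) (.cons 8 (.cons 44 1 .nil) .nil)))))))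
def R17 : AL := (.cons 4 (.cons 34 1 .nil) (.cons 5 (.cons 37 2 .nil) (.cons 29 (.cons 48 2 .nil) (.cons 30 (.cons 48 1 .nil) .nil))))
def R18 : AL := (.cons 3 (.cons 33 1 .nil) (.cons 5 (.cons 39 2 .nil) (.cons 27 (.cons 48 1 .nil) .nil)))
def R19 : AL := (.cons 3 (.cons 35 1 .nil) (.cons 5 (.cons 41 2 .nil) (.cons 25 (.cons 48 1 .nil) .nil)))
def R20 : AL := (.cons 1 (.cons 33 2 .nil) (.cons 2 (.cons 34 2 .nil) (.cons 14 (.cons 45 1 .nil) (.cons 15 (.cons 46 1 .nil) .nil))))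
def R21 : AL := (.cons 0 (.cons 33 1 .nil) (.cons 2 (.cons 35 2 .nil) (.cons 5 (.cons 43 2 .nil) (.cons 24 (.cons 48 2 .nil) .nil))))
def R22 : AL := (.cons 5 (.cons 43 1 .nil) (.cons 13 (.cons 45 2 .nil) (.cons 15 (.cons 47 2 .nil) (.cons 24 (.cons 48 1 .nil) .nil))))
def R23 : AL := (.cons 0 (.cons 34 1 .nil) (.cons 1 (.cons 35 1 .nil) (.cons 13 (.cons 46 2 .nil) (.cons 14 (.cons 47 1 .nil) .nil))))
def R24 : AL := (.cons 3 (.cons 37 1 .nil) (.cons 4 (.cons 40 2 .nil) (.cons 21 (.cons 48 2 .nil) (.cons 22 (.cons 48 1 .nil) .nil))))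
def R25 : AL := (.cons 1 (.cons 36 2 .nil) (.cons 2 (.cons 37 2 .nil) (.cons 4 (.cons 42 1 .nil) (.cons 19 (.cons 48 1 .nil) .nil))))
def R26 : AL := (.cons 0 (.cons 36 1 .nil) (.cons 2 (.cons 38 2 .nil) (.cons 9 (.cons 45 2 .nil) (.cons 11 (.cons 47 2 .nil) .nil))))
def R27 : AL := (.cons 0 (.cons 37 1 .nil) (.cons 1 (.cons 38 1 .nil) (.cons 4 (.cons 44 1 .nil) (.cons 18 (.cons 48 1 .nil) .nil))))
def R28 : AL := (.cons 1 (.cons 39 1 .nil) (.cons 2 (.cons 40 1 .nil) (.cons 7 (.cons 45 2 .nil) (.cons 8 (.cons 46 2 .nil) .nil))))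
def R29 : AL := (.cons 3 (.cons 43 2 .nil) (.cons 6 (.cons 45 1 .nil) (.cons 8 (.cons 47 1 .nil) (.cons 17 (.cons 48 2 .nil) .nil))))
def R30 : AL := (.cons 0 (.cons 39 2 .nil) (.cons 2 (.cons 41 1 .nil) (.cons 3 (.cons 43 1 .nil) (.cons 17 (.cons 48 1 .nil) .nil))))
def R31 : AL := (.cons 0 (.cons 40 2 .nil) (.cons 1 (.cons 41 2 .nil) (.cons 6 (.cons 46 1 .nil) (.cons 7 (.cons 47 2 .nil) .nil))))
def R32 : AL := (.cons 0 (.cons 42 1 .nil) (.cons 1 (.cons 43 2 .nil) (.cons 2 (.cons 44 1 .nil) .nil)))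
def R33 : AL := (.cons 5 (.cons 45 1 .nil) (.cons 15 (.cons 48 2 .nil) .nil))
def R34 : AL := (.cons 5 (.cons 46 1 .nil) (.cons 14 (.cons 48 1 .nil) .nil))
def R35 : AL := (.cons 5 (.cons 47 2 .nil) (.cons 13 (.cons 48 2 .nil) .nil))
def R36 : AL := (.cons 4 (.cons 45 1 .nil) (.cons 11 (.cons 48 2 .nil) .nil))
def R37 : AL := (.cons 4 (.cons 46 1 .nil) (.cons 10 (.cons 48 1 .nil) .nil))
def R38 : AL := (.cons 4 (.cons 47 2 .nil) (.cons 9 (.cons 48 2 .nil) .nil))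
def R39 : AL := (.cons 3 (.cons 45 1 .nil) (.cons 8 (.cons 48 2 .nil) .nil))
def R40 : AL := (.cons 3 (.cons 46 1 .nil) (.cons 7 (.cons 48 1 .nil) .nil))
def R41 : AL := (.cons 3 (.cons 47 2 .nil) (.cons 6 (.cons 48 2 .nil) .nil))
def R42 : AL := (.cons 1 (.cons 45 1 .nil) (.cons 2 (.cons 46 1 .nil) .nil))
def R43 : AL := (.cons 0 (.cons 45 1 .nil) (.cons 2 (.cons 47 1 .nil) .nil))
def R44 : AL := (.cons 0 (.cons 46 2 .nil) (.cons 1 (.cons 47 1 .nil) .nil))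
def R45 : AL := (.cons 2 (.cons 48 1 .nil) .nil)
def R46 : AL := (.cons 1 (.cons 48 2 .nil) .nil)
def R47 : AL := (.cons 0 (.cons 48 2 .nil) .nil)
def R48 : AL := .nil

/-- the multiplication table -/
def tab : RW := (.cons R0 (.cons R1 (.cons R2 (.cons R3 (.cons R4 (.cons R5 (.cons R6 (.cons R7 (.cons R8 (.cons R9 (.cons R10 (.cons R11 (.cons R12 (.cons R13 (.cons R14 (.cons R15 (.cons R16 (.cons R17 (.cons R18 (.cons R19 (.cons R20 (.cons R21 (.cons R22 (.cons R23 (.cons R24 (.cons R25 (.cons R26 (.cons R27 (.cons R28 (.cons R29 (.cons R30 (.cons R31 (.cons R32 (.cons R33 (.cons R34 (.cons R35 (.cons R36 (.cons R37 (.cons R38 (.cons R39 (.cons R40 (.cons R41 (.cons R42 (.cons R43 (.cons R44 (.cons R45 (.cons R46 (.cons R47 (.cons R48 .nil)))))))))))))))))))))))))))))))))))))))))))))))))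

theorem tab_C : chkC tab = true := by decide +kernel

theorem tab_J : chkJ tab = true := by decide +kernel

end Pool.Agent.W414.AT
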