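import Pool.Agent.W414.AT.Tab
set_option autoImplicit false

/-! The witness algebra and the value of the element of degree six in it. -/

namespace Pool.Agent.W414.AT

/-- the witness algebra -/
def W (K : Type) [CommRing K] : Type := Fin 49 → K

section
variable (K : Type) [CommRing K]

noncomputable instance : AddCommGroup (W K) := inferInstanceAs (AddCommGroup (Fin 49 → K))
noncomputable instance : Module K (W K) := inferInstanceAs (Module K (Fin 49 → K))
noncomputable instance : Mul (W K) := ⟨fun u v => mulB K tab u v⟩

theorem W_mul (u v : W K) : u * v = mulB K tab u v := rfl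

noncomputable instance : NonUnitalNonAssocRing (W K) where
  left_distrib u v w := by rw [W_mul, W_mul, W_mul]; exact map_add _ _ _
  right_distrib u v w := by
    rw [W_mul, W_mul, W_mul]
    exact (congrFun (congrArg DFunLike.coe (map_add (mulB K tab) u v)) w)
  zero_mul u := by
    rw [W_mul]
    exact (congrFun (congrArg DFunLike.coe (map_zero (mulB K tab))) u)
  mul_zero u := by rw [W_mul]; exact map_zero _

/-- basis vectors of the witness algebra -/
def wb (k : ℕ) : W K := bv K k

/-- residue of an integer modulo three, as a natural number -/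
def zc : ℤ → ℕ
  | .ofNat n => n
  | .negSucc n => Nat.mul 2 (Nat.succ n)

/-- value of a monomial as a sparse vector -/
noncomputable def Tr.lv (t : Tr) : SL :=
  Tr.rec (motive := fun _ => SL) (sg 0) (sg 1) (sg 2) (sg 3) (sg 4) (fun _ _ a b => mulL tab a b) t

/-- value of a monomial as a sparse vector -/
noncomputable def PT.lv (t : PT) : SL :=
  PT.rec (motive := fun _ => SL) (sg 5) (fun t _ b => mulL tab t.lv b) (fun _ t a => mulL tab a t.lv) t

/-- value of a combination of monomials as a sparse vector -/
noncomputable def PC.lv (t : PC) : SL :=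
  PC.rec (motive := fun _ => SL) SL.nil (fun k p _ ih => SL.app (SL.sc (zc k) p.lv) ih) t

/-- the first five basis vectors -/
def wx : Fin 5 → W K := fun i => wb K i

theorem Tr.lv_sound (t : Tr) : (vec K t.lv : W K) = t.val (wx K) := by
  induction t with
  | x0 => exact vec_sg K 0
  | x1 => exact vec_sg K 1
  | x2 => exact vec_sg K 2
  | x3 => exact vec_sg K 3
  | x4 => exact vec_sg K 4
  | m a b iha ihb =>
    rw [Tr.val, ← iha, ← ihb]
    exact vec_mulL K tab _ _

theorem PT.lv_sound (t : PT) : (vec K t.lv : W K) = t.val (wx K) (wb K 5) := by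
  induction t with
  | m => exact vec_sg K 5
  | l t p ih =>
    rw [PT.val, ← ih, ← Tr.lv_sound]
    exact vec_mulL K tab _ _
  | r p t ih =>
    rw [PT.val, ← ih, ← Tr.lv_sound]
    exact vec_mulL K tab _ _

variable {K}
variable (h3 : (3 : K) = 0)
include h3

theorem zc_cast (k : ℤ) : ((zc k : ℕ) : K) = (k : K) := by
  cases k with
  | ofNat n => simp [zc]
  | negSucc n =>
    show ((2 * (n + 1) : ℕ) : K) = _
    rw [Int.cast_negSucc]; push_cast
    linear_combination ((n : K) + 1) * h3

theorem PC.lv_sound (t : PC) : (vec K t.lv : W K) = t.val (wx K) (wb K 5) := by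
  induction t with
  | nil => exact vec_nil K
  | cons k p l ih =>
    rw [PC.val, ← ih, ← PT.lv_sound]
    show vec K (SL.app (SL.sc (zc k) p.lv) l.lv) = _
    rw [vec_app, vec_sc, zc_cast h3, Int.cast_smul_eq_zsmul]
    rfl

omit h3 in
theorem tgt_cf : Nat.beq (Nat.mod (tgt.lv.cf 48) 3) 1 = true := by decide +kernel

variable (K) in
omit h3 in
/-- the last coordinate -/
noncomputable def lastc : W K →ₗ[K] K := (LinearMap.proj 48 : (Fin 49 → K) →ₗ[K] K)

/-- the value of the element of degree six in the witness algebra has last coordinate one -/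
theorem tgt_val : lastc K (tgt.val (wx K) (wb K 5)) = 1 := by
  rw [← PC.lv_sound h3 tgt]
  show ((tgt.lv.cf 48 : ℕ) : K) = 1
  have h : tgt.lv.cf 48 % 3 = 1 := Nat.eq_of_beq_eq_true tgt_cf
  rw [← Nat.div_add_mod (tgt.lv.cf 48) 3, h]
  push_cast; rw [h3]; ring

/-- the witness algebra is alternative -/
theorem W_alt : IsAlt (W K) where
  left a b := mulB_left tab h3 tab_C tab_J a b
  right a b := by
    have hc := mulB_comm tab h3 tab_C
    show mulB K tab (mulB K tab b a) a = mulB K tab b (mulB K tab a a)
    have h := mulB_left tab h3 tab_C tab_J a b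
    rw [hc b a, hc (mulB K tab a b) a, ← h, hc b (mulB K tab a a)]

end
end Pool.Agent.W414.AT
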