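import Pool.Agent.W414.AT.Cert
set_option autoImplicit false

/-!
A commutative alternative algebra of dimension `49` over every commutative ring in which `3 = 0`:
sparse vectors, bilinear multiplication from a table, the soundness of the checks.
-/

namespace Pool.Agent.W414.AT

/-- sparse vectors: pairs (index, coefficient) -/
inductive SL
  | nil : SL
  | cons : ℕ → ℕ → SL → SL

/-- association lists: index, vector -/
inductive AL
  | nil : AL
  | cons : ℕ → SL → AL → AL

/-- lists of rows -/
inductive RW
  | nil : RW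
  | cons : AL → RW → RW

/-- total coefficient of an index -/
noncomputable def SL.cf (l : SL) (k : ℕ) : ℕ :=
  SL.rec (motive := fun _ => ℕ) 0
    (fun k' c _ ih => Nat.add (Bool.rec (motive := fun _ => ℕ) 0 c (Nat.beq k' k)) ih) l

/-- concatenation -/
noncomputable def SL.app (l l' : SL) : SL :=
  SL.rec (motive := fun _ => SL) l' (fun k c _ ih => SL.cons k c ih) l

/-- multiplication by a number -/
noncomputable def SL.sc (d : ℕ) (l : SL) : SL :=
  SL.rec (motive := fun _ => SL) SL.nil (fun k c _ ih => SL.cons k (Nat.mul d c) ih) l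

/-- look up an index -/
noncomputable def AL.look (a : AL) (j : ℕ) : SL :=
  AL.rec (motive := fun _ => SL) SL.nil
    (fun j' v _ ih => Bool.rec (motive := fun _ => SL) ih v (Nat.beq j' j)) a

/-- the row with a given number -/
noncomputable def RW.nth (r : RW) : ℕ → AL :=
  RW.rec (motive := fun _ => ℕ → AL) (fun _ => AL.nil)
    (fun a _ ih n => Nat.rec (motive := fun _ => AL) a (fun m _ => ih m) n) r

/-- the product of two basis vectors, from a table -/
noncomputable def Pt (T : RW) (i j : ℕ) : SL :=
  Bool.rec (motive := fun _ => SL) SL.nil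
    (Bool.rec (motive := fun _ => SL) SL.nil ((T.nth i).look j) (Nat.ble (Nat.succ j) 49))
    (Nat.ble (Nat.succ i) 49)

/-- a basis vector times a sparse vector -/
noncomputable def mul1 (T : RW) (i c : ℕ) (l : SL) : SL :=
  SL.rec (motive := fun _ => SL) SL.nil
    (fun j d _ ih => SL.app (SL.sc (Nat.mul c d) (Pt T i j)) ih) l

/-- product of sparse vectors -/
noncomputable def mulL (T : RW) (l l' : SL) : SL :=
  SL.rec (motive := fun _ => SL) SL.nil (fun i c _ ih => SL.app (mul1 T i c l') ih) l

/-- a basis vector -/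
def sg (k : ℕ) : SL := SL.cons k 1 SL.nil

/-- are all total coefficients (of the indices in `l`) divisible by three? -/
noncomputable def z3 (L l : SL) : Bool :=
  SL.rec (motive := fun _ => Bool) true
    (fun k _ _ ih => and (Nat.beq (Nat.mod (L.cf k) 3) 0) ih) l

/-- cyclic sum of products of three basis vectors -/
noncomputable def cyc (T : RW) (i j k : ℕ) : SL :=
  SL.app (mulL T (Pt T i j) (sg k)) (SL.app (mulL T (Pt T j k) (sg i)) (mulL T (Pt T k i) (sg j)))

/-- commutator of two basis vectors modulo three -/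
noncomputable def cmt (T : RW) (i j : ℕ) : SL :=
  SL.app (Pt T i j) (SL.sc 2 (Pt T j i))

/-- does `f` hold below `n`? -/
noncomputable def allB (f : ℕ → Bool) (n : ℕ) : Bool :=
  Nat.rec (motive := fun _ => Bool) true (fun k ih => and (f k) ih) n

theorem allB_succ (f : ℕ → Bool) (n : ℕ) : allB f (n + 1) = and (f n) (allB f n) := rfl

theorem allB_spec {f : ℕ → Bool} {n : ℕ} (h : allB f n = true) : ∀ k, k < n → f k = true := by
  induction n with
  | zero => intro k hk; omega
  | succ n ih =>
    rw [allB_succ, Bool.and_eq_true] at h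
    intro k hk
    rcases Nat.lt_succ_iff_lt_or_eq.mp hk with h1 | h1
    · exact ih h.2 k h1
    · subst h1; exact h.1

/-- the check of commutativity -/
noncomputable def chkC (T : RW) : Bool :=
  allB (fun i => allB (fun j => z3 (cmt T i j) (cmt T i j)) 49) 49

/-- the check of the cyclic identity -/
noncomputable def chkJ (T : RW) : Bool :=
  allB (fun i => allB (fun j => allB (fun k => z3 (cyc T i j k) (cyc T i j k)) 49) 49) 49

section
variable (K : Type) [CommRing K]

/-- the vector with the given coefficients -/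
noncomputable def vec (l : SL) : Fin 49 → K := fun k => (l.cf k : K)

/-- basis vectors -/
def bv (k : ℕ) : Fin 49 → K := fun m => if (m : ℕ) = k then 1 else 0

theorem vec_nil : vec K .nil = 0 := by
  funext k; show ((0 : ℕ) : K) = 0; simp

theorem vec_cons (k c : ℕ) (l : SL) : vec K (.cons k c l) = (c : K) • bv K k + vec K l := by
  funext m
  show ((Bool.rec (motive := fun _ => ℕ) 0 c (Nat.beq k m) + l.cf m : ℕ) : K) =
    (c : K) • (if (m : ℕ) = k then 1 else 0) + ((l.cf m : ℕ) : K)
  by_cases h : (m : ℕ) = k
  · have : Nat.beq k m = true := by rw [h]; exact Nat.beq_refl k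
    rw [this, if_pos h]; simp
  · have : Nat.beq k m = false := by
      rw [Bool.eq_false_iff]; intro h'; exact h (Nat.eq_of_beq_eq_true h').symm
    rw [this, if_neg h]; simp

theorem vec_sg (k : ℕ) : vec K (sg k) = bv K k := by
  rw [sg, vec_cons, vec_nil]; simp

theorem vec_app (l l' : SL) : vec K (l.app l') = vec K l + vec K l' := by
  induction l with
  | nil => rw [vec_nil, zero_add]; rfl
  | cons k c l ih =>
    show vec K (.cons k c (l.app l')) = _
    rw [vec_cons, vec_cons, ih, add_assoc]

theorem vec_sc (d : ℕ) (l : SL) : vec K (l.sc d) = (d : K) • vec K l := by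
  induction l with
  | nil =>
    show vec K .nil = (d : K) • vec K .nil
    rw [vec_nil, smul_zero]
  | cons k c l ih =>
    show vec K (.cons k (d * c) (l.sc d)) = _
    rw [vec_cons, vec_cons, ih, smul_add, smul_smul]; push_cast; rfl

theorem cf_eq_zero_or (L l : SL) (h : z3 L l = true) (k : ℕ) : l.cf k = 0 ∨ L.cf k % 3 = 0 := by
  induction l with
  | nil => left; rfl
  | cons k' c l ih =>
    have h' : (and (Nat.beq (Nat.mod (L.cf k') 3) 0) (z3 L l)) = true := h
    rw [Bool.and_eq_true] at h'
    by_cases hk : k' = k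
    · right; subst hk; exact Nat.eq_of_beq_eq_true h'.1
    · rcases ih h'.2 with h1 | h1
      · left
        show Bool.rec (motive := fun _ => ℕ) 0 c (Nat.beq k' k) + l.cf k = 0
        have : Nat.beq k' k = false := by
          rw [Bool.eq_false_iff]; intro h''; exact hk (Nat.eq_of_beq_eq_true h'')
        rw [this, h1]
      · right; exact h1

variable {K}

theorem cast_mod (h3 : (3 : K) = 0) {n : ℕ} (h : n % 3 = 0) : (n : K) = 0 := by
  obtain ⟨m, rfl⟩ := Nat.dvd_of_mod_eq_zero h
  push_cast; rw [h3, zero_mul]

theorem vec_z3 (h3 : (3 : K) = 0) (l : SL) (h : z3 l l = true) : vec K l = 0 := by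
  funext k
  show (l.cf k : K) = 0
  rcases cf_eq_zero_or l l h k with h1 | h1
  · rw [h1]; simp
  · exact cast_mod h3 h1

variable (K) (T : RW)

/-- the bilinear product on `K ^ 49` -/
noncomputable def mulB : (Fin 49 → K) →ₗ[K] (Fin 49 → K) →ₗ[K] (Fin 49 → K) :=
  (Pi.basisFun K (Fin 49)).constr K
    (fun i => (Pi.basisFun K (Fin 49)).constr K (fun j => vec K (Pt T i j)))

theorem bv_eq (i : Fin 49) : bv K i = Pi.basisFun K (Fin 49) i := by
  funext m
  rw [Pi.basisFun_apply, Pi.single_apply, bv]
  simp only [Fin.ext_iff]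

theorem bv_zero {i : ℕ} (h : ¬ i < 49) : bv K i = 0 := by
  funext m
  have : (m : ℕ) ≠ i := by have := m.isLt; omega
  rw [bv, if_neg this]; rfl

theorem mulB_bv (i j : ℕ) : mulB K T (bv K i) (bv K j) = vec K (Pt T i j) := by
  by_cases hi : i < 49
  · by_cases hj : j < 49
    · have h1 := bv_eq K ⟨i, hi⟩
      have h2 := bv_eq K ⟨j, hj⟩
      simp only at h1 h2
      rw [h1, h2, mulB, Module.Basis.constr_basis, Module.Basis.constr_basis]
    · rw [bv_zero K hj, map_zero, Pt]
      have : Nat.ble (Nat.succ j) 49 = false := by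
        rw [Bool.eq_false_iff]; intro h; exact hj (Nat.le_of_ble_eq_true h)
      rw [this]
      cases Nat.ble (Nat.succ i) 49
      · exact (vec_nil K).symm
      · exact (vec_nil K).symm
  · rw [bv_zero K hi, map_zero, LinearMap.zero_apply, Pt]
    have : Nat.ble (Nat.succ i) 49 = false := by
      rw [Bool.eq_false_iff]; intro h; exact hi (Nat.le_of_ble_eq_true h)
    rw [this]
    exact (vec_nil K).symm

theorem vec_mul1 (i c : ℕ) (l : SL) : vec K (mul1 T i c l) = (c : K) • mulB K T (bv K i) (vec K l) := by
  induction l with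
  | nil =>
    show vec K .nil = (c : K) • mulB K T (bv K i) (vec K .nil)
    rw [vec_nil, map_zero, smul_zero]
  | cons j d l ih =>
    show vec K (SL.app (SL.sc (c * d) (Pt T i j)) (mul1 T i c l)) = _
    rw [vec_app, vec_sc, ih, vec_cons, map_add, map_smul, smul_add, smul_smul, mulB_bv]
    push_cast; rfl

theorem vec_mulL (l l' : SL) : vec K (mulL T l l') = mulB K T (vec K l) (vec K l') := by
  induction l with
  | nil =>
    show vec K .nil = mulB K T (vec K .nil) (vec K l')
    rw [vec_nil, map_zero, LinearMap.zero_apply]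
  | cons i c l ih =>
    show vec K (SL.app (mul1 T i c l') (mulL T l l')) = _
    rw [vec_app, vec_mul1, ih, vec_cons, map_add, map_smul]
    rfl

variable {K}
variable (h3 : (3 : K) = 0)
include h3

theorem mulB_comm_bv (hC : chkC T = true) (i j : Fin 49) :
    mulB K T (bv K i) (bv K j) = mulB K T (bv K j) (bv K i) := by
  have h := allB_spec (allB_spec hC i i.isLt) j j.isLt
  have h1 := vec_z3 h3 _ h
  rw [cmt, vec_app, vec_sc, ← mulB_bv, ← mulB_bv] at h1
  have h4 : ((2 : ℕ) : K) = -1 := by
    push_cast; linear_combination h3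
  rw [h4, neg_smul, one_smul] at h1
  exact add_neg_eq_zero.mp h1

theorem mulB_comm (hC : chkC T = true) (u v : Fin 49 → K) : mulB K T u v = mulB K T v u := by
  have hu : u ∈ Submodule.span K (Set.range (Pi.basisFun K (Fin 49))) := (Pi.basisFun K (Fin 49)).mem_span u
  have hv : v ∈ Submodule.span K (Set.range (Pi.basisFun K (Fin 49))) := (Pi.basisFun K (Fin 49)).mem_span v
  induction hu using Submodule.span_induction with
  | mem x hx =>
    obtain ⟨i, rfl⟩ := hx
    induction hv using Submodule.span_induction with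
    | mem y hy =>
      obtain ⟨j, rfl⟩ := hy
      rw [← bv_eq, ← bv_eq]; exact mulB_comm_bv T h3 hC i j
    | zero => simp
    | add y z _ _ h1 h2 => simp only [map_add, LinearMap.add_apply, h1, h2]
    | smul a y _ h1 => simp only [map_smul, LinearMap.smul_apply, h1]
  | zero => simp
  | add y z _ _ h1 h2 => simp only [map_add, LinearMap.add_apply, h1, h2]
  | smul a y _ h1 => simp only [map_smul, LinearMap.smul_apply, h1]

/-- the cyclic sum -/
noncomputable def cycM (u v w : Fin 49 → K) : Fin 49 → K :=
  mulB K T (mulB K T u v) w + (mulB K T (mulB K T v w) u + mulB K T (mulB K T w u) v)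

theorem cycM_bv (hJ : chkJ T = true) (i j k : Fin 49) : cycM T (bv K i) (bv K j) (bv K k) = 0 := by
  have h := allB_spec (allB_spec (allB_spec hJ i i.isLt) j j.isLt) k k.isLt
  have h1 := vec_z3 h3 _ h
  rw [cyc, vec_app, vec_app, vec_mulL, vec_mulL, vec_mulL, vec_sg, vec_sg, vec_sg,
    ← mulB_bv, ← mulB_bv, ← mulB_bv] at h1
  exact h1

theorem cycM_zero (hJ : chkJ T = true) (u v w : Fin 49 → K) : cycM T u v w = 0 := by
  have hu : u ∈ Submodule.span K (Set.range (Pi.basisFun K (Fin 49))) := (Pi.basisFun K (Fin 49)).mem_span u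
  have hv : v ∈ Submodule.span K (Set.range (Pi.basisFun K (Fin 49))) := (Pi.basisFun K (Fin 49)).mem_span v
  have hw : w ∈ Submodule.span K (Set.range (Pi.basisFun K (Fin 49))) := (Pi.basisFun K (Fin 49)).mem_span w
  have add4 : ∀ a b c a' b' c' : Fin 49 → K, a + (b + c) = 0 → a' + (b' + c') = 0 →
      (a + a') + ((b + b') + (c + c')) = 0 := by
    intro a b c a' b' c' h h'
    have : (a + a') + ((b + b') + (c + c')) = (a + (b + c)) + (a' + (b' + c')) := by abel
    rw [this, h, h', add_zero]
  induction hu using Submodule.span_induction with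
  | mem x hx =>
    obtain ⟨i, rfl⟩ := hx
    induction hv using Submodule.span_induction with
    | mem y hy =>
      obtain ⟨j, rfl⟩ := hy
      induction hw using Submodule.span_induction with
      | mem z hz =>
        obtain ⟨k, rfl⟩ := hz
        rw [← bv_eq, ← bv_eq, ← bv_eq]; exact cycM_bv T h3 hJ i j k
      | zero => simp [cycM]
      | add y z _ _ h1 h2 =>
        simp only [cycM, map_add, LinearMap.add_apply] at h1 h2 ⊢
        exact add4 _ _ _ _ _ _ h1 h2
      | smul a y _ h1 =>
        simp only [cycM, map_smul, LinearMap.smul_apply] at h1 ⊢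
        rw [← smul_add, ← smul_add, h1, smul_zero]
    | zero => simp [cycM]
    | add y z _ _ h1 h2 =>
      simp only [cycM, map_add, LinearMap.add_apply] at h1 h2 ⊢
      exact add4 _ _ _ _ _ _ h1 h2
    | smul a y _ h1 =>
      simp only [cycM, map_smul, LinearMap.smul_apply] at h1 ⊢
      rw [← smul_add, ← smul_add, h1, smul_zero]
  | zero => simp [cycM]
  | add y z _ _ h1 h2 =>
    simp only [cycM, map_add, LinearMap.add_apply] at h1 h2 ⊢
    exact add4 _ _ _ _ _ _ h1 h2
  | smul a y _ h1 =>
    simp only [cycM, map_smul, LinearMap.smul_apply] at h1 ⊢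
    rw [← smul_add, ← smul_add, h1, smul_zero]

theorem mulB_left (hC : chkC T = true) (hJ : chkJ T = true) (u v : Fin 49 → K) :
    mulB K T (mulB K T u u) v = mulB K T u (mulB K T u v) := by
  have h := cycM_zero T h3 hJ u u v
  rw [cycM, mulB_comm T h3 hC v u, mulB_comm T h3 hC (mulB K T u v) u] at h
  have h4 : mulB K T (mulB K T u u) v - mulB K T u (mulB K T u v) =
      (mulB K T (mulB K T u u) v + (mulB K T u (mulB K T u v) + mulB K T u (mulB K T u v))) -
        (3 : K) • mulB K T u (mulB K T u v) := by
    have : (3 : K) = 1 + 1 + 1 := by norm_num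
    rw [this, add_smul, add_smul, one_smul]; abel
  rw [h, h3, zero_smul, sub_zero] at h4
  exact sub_eq_zero.mp h4

end
end Pool.Agent.W414.AT
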