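import Mathlib
set_option autoImplicit false

/-!
Operator words in alternative rings.

`Po` is the type of polynomials in ten non-commuting letters (with integer coefficients), stored as
tries; `Tr` is the type of non-associative monomials in five letters.  In an alternative ring, left
and right multiplication by a monomial are polynomials in the left and right multiplications by the
letters; these polynomials are `Lp` and `Rp`.
-/

namespace Pool.Agent.W414.AT

/-- polynomials in ten non-commuting letters: the coefficient of the empty word, and the ten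
polynomials following each first letter -/
inductive Po
  | nil : Po
  | node : ℤ → Po → Po → Po → Po → Po → Po → Po → Po → Po → Po → Po

namespace Po

/-- sum -/
noncomputable def add (s : Po) : Po → Po :=
  Po.rec (motive := fun _ => Po → Po) (fun t => t)
    (fun k c0 c1 c2 c3 c4 c5 c6 c7 c8 c9 i0 i1 i2 i3 i4 i5 i6 i7 i8 i9 t =>
      Po.casesOn (motive := fun _ => Po) t (node k c0 c1 c2 c3 c4 c5 c6 c7 c8 c9)
        (fun k' d0 d1 d2 d3 d4 d5 d6 d7 d8 d9 =>
          node (Int.add k k') (i0 d0) (i1 d1) (i2 d2) (i3 d3) (i4 d4) (i5 d5) (i6 d6) (i7 d7) (i8 d8) (i9 d9))) s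

theorem nil_add (t : Po) : add nil t = t := rfl
theorem node_add_nil (k : ℤ) (c0 c1 c2 c3 c4 c5 c6 c7 c8 c9 : Po) :
    add (node k c0 c1 c2 c3 c4 c5 c6 c7 c8 c9) nil = node k c0 c1 c2 c3 c4 c5 c6 c7 c8 c9 := rfl
theorem node_add_node (k : ℤ) (c0 c1 c2 c3 c4 c5 c6 c7 c8 c9 : Po)
    (k' : ℤ) (d0 d1 d2 d3 d4 d5 d6 d7 d8 d9 : Po) :
    add (node k c0 c1 c2 c3 c4 c5 c6 c7 c8 c9) (node k' d0 d1 d2 d3 d4 d5 d6 d7 d8 d9) =
      node (k + k') (add c0 d0) (add c1 d1) (add c2 d2) (add c3 d3) (add c4 d4)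
        (add c5 d5) (add c6 d6) (add c7 d7) (add c8 d8) (add c9 d9) := rfl

/-- multiplication by an integer -/
noncomputable def smul (z : ℤ) (s : Po) : Po :=
  Po.rec (motive := fun _ => Po) nil
    (fun k _ _ _ _ _ _ _ _ _ _ i0 i1 i2 i3 i4 i5 i6 i7 i8 i9 =>
      node (Int.mul z k) i0 i1 i2 i3 i4 i5 i6 i7 i8 i9) s

theorem smul_nil (z : ℤ) : smul z nil = nil := rfl
theorem smul_node (z k : ℤ) (c0 c1 c2 c3 c4 c5 c6 c7 c8 c9 : Po) :
    smul z (node k c0 c1 c2 c3 c4 c5 c6 c7 c8 c9) =
      node (z * k) (smul z c0) (smul z c1) (smul z c2) (smul z c3) (smul z c4)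
        (smul z c5) (smul z c6) (smul z c7) (smul z c8) (smul z c9) := rfl

/-- is this integer `0`? -/
def isz : ℤ → Bool
  | .ofNat n => Nat.beq n 0
  | .negSucc _ => false

theorem isz_eq {k : ℤ} (h : isz k = true) : k = 0 := by
  cases k with
  | ofNat n =>
    simp only [isz] at h
    have := Nat.eq_of_beq_eq_true h
    subst this; rfl
  | negSucc n => simp [isz] at h

/-- `mul v s` is the product `s * v` -/
noncomputable def mul (v s : Po) : Po :=
  Po.rec (motive := fun _ => Po) nil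
    (fun k _ _ _ _ _ _ _ _ _ _ i0 i1 i2 i3 i4 i5 i6 i7 i8 i9 =>
      Bool.rec (motive := fun _ => Po)
        (add (smul k v) (node (.ofNat 0) i0 i1 i2 i3 i4 i5 i6 i7 i8 i9))
        (node (.ofNat 0) i0 i1 i2 i3 i4 i5 i6 i7 i8 i9) (isz k)) s

theorem mul_nil (v : Po) : mul v nil = nil := rfl
theorem mul_node (v : Po) (k : ℤ) (c0 c1 c2 c3 c4 c5 c6 c7 c8 c9 : Po) :
    mul v (node k c0 c1 c2 c3 c4 c5 c6 c7 c8 c9) =
      Bool.rec (motive := fun _ => Po)
        (add (smul k v) (node 0 (mul v c0) (mul v c1) (mul v c2) (mul v c3) (mul v c4)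
          (mul v c5) (mul v c6) (mul v c7) (mul v c8) (mul v c9)))
        (node 0 (mul v c0) (mul v c1) (mul v c2) (mul v c3) (mul v c4)
          (mul v c5) (mul v c6) (mul v c7) (mul v c8) (mul v c9)) (isz k) := rfl

/-- is this the zero polynomial? -/
noncomputable def isZ (s : Po) : Bool :=
  Po.rec (motive := fun _ => Bool) true
    (fun k _ _ _ _ _ _ _ _ _ _ i0 i1 i2 i3 i4 i5 i6 i7 i8 i9 =>
      isz k && (i0 && (i1 && (i2 && (i3 && (i4 && (i5 && (i6 && (i7 && (i8 && i9)))))))))) s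

theorem isZ_node (k : ℤ) (c0 c1 c2 c3 c4 c5 c6 c7 c8 c9 : Po) :
    isZ (node k c0 c1 c2 c3 c4 c5 c6 c7 c8 c9) =
      (isz k && (isZ c0 && (isZ c1 && (isZ c2 && (isZ c3 && (isZ c4 && (isZ c5 && (isZ c6 &&
        (isZ c7 && (isZ c8 && isZ c9)))))))))) := rfl

end Po
open Po

section eval
variable {E : Type} [Ring E] (X : Fin 10 → E)

/-- evaluation of a polynomial; the first letter of a word is the rightmost factor -/
noncomputable def ev : Po → E
  | nil => 0
  | node k c0 c1 c2 c3 c4 c5 c6 c7 c8 c9 =>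
    k • (1 : E) + ev c0 * X 0 + ev c1 * X 1 + ev c2 * X 2 + ev c3 * X 3 + ev c4 * X 4 +
      ev c5 * X 5 + ev c6 * X 6 + ev c7 * X 7 + ev c8 * X 8 + ev c9 * X 9

theorem ev_add (s : Po) : ∀ t : Po, ev X (add s t) = ev X s + ev X t := by
  induction s with
  | nil => intro t; rw [nil_add, ev, zero_add]
  | node k c0 c1 c2 c3 c4 c5 c6 c7 c8 c9 i0 i1 i2 i3 i4 i5 i6 i7 i8 i9 =>
    intro t
    cases t with
    | nil => rw [node_add_nil, ev, ev, add_zero]
    | node k' d0 d1 d2 d3 d4 d5 d6 d7 d8 d9 =>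
      rw [node_add_node]
      simp only [ev, i0, i1, i2, i3, i4, i5, i6, i7, i8, i9, add_smul, add_mul]
      abel

theorem ev_smul (z : ℤ) (s : Po) : ev X (smul z s) = z • ev X s := by
  induction s with
  | nil => rw [smul_nil, ev, smul_zero]
  | node k c0 c1 c2 c3 c4 c5 c6 c7 c8 c9 i0 i1 i2 i3 i4 i5 i6 i7 i8 i9 =>
    rw [smul_node]
    simp only [ev, i0, i1, i2, i3, i4, i5, i6, i7, i8, i9, smul_add, mul_smul, smul_mul_assoc]

theorem ev_mul (v s : Po) : ev X (mul v s) = ev X v * ev X s := by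
  induction s with
  | nil => rw [mul_nil, ev, mul_zero]
  | node k c0 c1 c2 c3 c4 c5 c6 c7 c8 c9 i0 i1 i2 i3 i4 i5 i6 i7 i8 i9 =>
    rw [mul_node]
    cases hk : isz k with
    | false =>
      simp only [ev_add, ev_smul, ev, i0, i1, i2, i3, i4, i5, i6, i7, i8, i9, zero_smul, zero_add,
        mul_add, mul_smul_comm, mul_one, mul_assoc]
      abel
    | true =>
      have := isz_eq hk
      subst this
      simp only [ev, i0, i1, i2, i3, i4, i5, i6, i7, i8, i9, zero_smul, zero_add,
        mul_add, mul_assoc]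

theorem ev_isZ (s : Po) : isZ s = true → ev X s = 0 := by
  induction s with
  | nil => intro _; rw [ev]
  | node k c0 c1 c2 c3 c4 c5 c6 c7 c8 c9 i0 i1 i2 i3 i4 i5 i6 i7 i8 i9 =>
    intro h
    rw [isZ_node] at h
    simp only [Bool.and_eq_true] at h
    obtain ⟨hk, h0, h1, h2, h3, h4, h5, h6, h7, h8, h9⟩ := h
    rw [ev, i0 h0, i1 h1, i2 h2, i3 h3, i4 h4, i5 h5, i6 h6, i7 h7, i8 h8, i9 h9, isz_eq hk]
    simp

end eval

/-- non-associative monomials in five letters -/
inductive Tr
  | x0 : Tr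
  | x1 : Tr
  | x2 : Tr
  | x3 : Tr
  | x4 : Tr
  | m : Tr → Tr → Tr

/-- value of a monomial -/
def Tr.val {R : Type} [Mul R] (x : Fin 5 → R) : Tr → R
  | x0 => x 0
  | x1 => x 1
  | x2 => x 2
  | x3 => x 3
  | x4 => x 4
  | m a b => a.val x * b.val x

/-- the ten letters -/
def l0 : Po := .node (.ofNat 0) (.node (.ofNat 1) .nil .nil .nil .nil .nil .nil .nil .nil .nil .nil)
  .nil .nil .nil .nil .nil .nil .nil .nil .nil
def l1 : Po := .node (.ofNat 0) .nil (.node (.ofNat 1) .nil .nil .nil .nil .nil .nil .nil .nil .nil .nil)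
  .nil .nil .nil .nil .nil .nil .nil .nil
def l2 : Po := .node (.ofNat 0) .nil .nil (.node (.ofNat 1) .nil .nil .nil .nil .nil .nil .nil .nil .nil .nil)
  .nil .nil .nil .nil .nil .nil .nil
def l3 : Po := .node (.ofNat 0) .nil .nil .nil (.node (.ofNat 1) .nil .nil .nil .nil .nil .nil .nil .nil .nil .nil)
  .nil .nil .nil .nil .nil .nil
def l4 : Po := .node (.ofNat 0) .nil .nil .nil .nil (.node (.ofNat 1) .nil .nil .nil .nil .nil .nil .nil .nil .nil .nil)
  .nil .nil .nil .nil .nil
def l5 : Po := .node (.ofNat 0) .nil .nil .nil .nil .nil (.node (.ofNat 1) .nil .nil .nil .nil .nil .nil .nil .nil .nil .nil)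
  .nil .nil .nil .nil
def l6 : Po := .node (.ofNat 0) .nil .nil .nil .nil .nil .nil (.node (.ofNat 1) .nil .nil .nil .nil .nil .nil .nil .nil .nil .nil)
  .nil .nil .nil
def l7 : Po := .node (.ofNat 0) .nil .nil .nil .nil .nil .nil .nil (.node (.ofNat 1) .nil .nil .nil .nil .nil .nil .nil .nil .nil .nil)
  .nil .nil
def l8 : Po := .node (.ofNat 0) .nil .nil .nil .nil .nil .nil .nil .nil (.node (.ofNat 1) .nil .nil .nil .nil .nil .nil .nil .nil .nil .nil)
  .nil
def l9 : Po := .node (.ofNat 0) .nil .nil .nil .nil .nil .nil .nil .nil .nil (.node (.ofNat 1) .nil .nil .nil .nil .nil .nil .nil .nil .nil .nil)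

/-- the associator operator `m ↦ (a, m, b)` from `L_a` and `R_b` -/
noncomputable def Aop (la rb : Po) : Po := add (mul rb la) (smul (.negSucc 0) (mul la rb))

/-- the polynomials of right and left multiplication by a monomial -/
noncomputable def RL (t : Tr) : Po × Po :=
  Tr.rec (motive := fun _ => Po × Po) (l0, l5) (l1, l6) (l2, l7) (l3, l8) (l4, l9)
    (fun _ _ iha ihb =>
      (add (mul ihb.1 iha.1) (Aop iha.2 ihb.1),
       add (mul iha.2 ihb.2) (smul (.negSucc 0) (Aop iha.2 ihb.1)))) t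

/-- right multiplication by a monomial -/
noncomputable def Rp (t : Tr) : Po := (RL t).1
/-- left multiplication by a monomial -/
noncomputable def Lp (t : Tr) : Po := (RL t).2

theorem Rp_m (a b : Tr) : Rp (a.m b) = add (mul (Rp b) (Rp a)) (Aop (Lp a) (Rp b)) := rfl
theorem Lp_m (a b : Tr) : Lp (a.m b) = add (mul (Lp a) (Lp b)) (smul (.negSucc 0) (Aop (Lp a) (Rp b))) := rfl

/-- the relations -/
inductive Core
  | s : Tr → Tr → Core
  | lR : Tr → Tr → Tr → Core
  | lL : Tr → Tr → Tr → Core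
  | rR : Tr → Tr → Tr → Core
  | rL : Tr → Tr → Tr → Core

/-- right multiplication by an associator -/
noncomputable def asR (a b c : Tr) : Po := add (Rp ((a.m b).m c)) (smul (.negSucc 0) (Rp (a.m (b.m c))))
/-- left multiplication by an associator -/
noncomputable def asL (a b c : Tr) : Po := add (Lp ((a.m b).m c)) (smul (.negSucc 0) (Lp (a.m (b.m c))))

/-- the polynomial of a relation -/
noncomputable def Core.po (c : Core) : Po :=
  Core.rec (motive := fun _ => Po)
    (fun a b => add (Aop (Lp a) (Rp b)) (Aop (Lp b) (Rp a)))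
    (fun a b c => add (asR a b c) (asR b a c))
    (fun a b c => add (asL a b c) (asL b a c))
    (fun a b c => add (asR a b c) (asR a c b))
    (fun a b c => add (asL a b c) (asL a c b)) c

end Pool.Agent.W414.AT
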